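import Pool.Agent.Lib.IM.Base

/-! Tools for the three bad sequences. -/

open Set Function

namespace Pool.Agent.Lib.IM

open Pool.Agent.Lib.NC4b

/-- The finite graph of a pattern. -/
def gr (N : ℕ) (E : ℕ → ℕ → Prop) : FinGraph := ⟨N, SimpleGraph.fromRel fun u v => E u.val v.val⟩

/-- The same graph on the natural numbers. -/
def NG (N : ℕ) (E : ℕ → ℕ → Prop) : SimpleGraph ℕ :=
  SimpleGraph.fromRel fun u v => u < N ∧ v < N ∧ E u v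

theorem NG_adj {N : ℕ} {E : ℕ → ℕ → Prop} {u v : ℕ} :
    (NG N E).Adj u v ↔ u ≠ v ∧ u < N ∧ v < N ∧ (E u v ∨ E v u) := by
  simp only [NG, SimpleGraph.fromRel_adj]; tauto

theorem Cn.img {V V' : Type} {G : SimpleGraph V} {G' : SimpleGraph V'} {S : Set V} (f : V → V')
    (hf : ∀ a b, G.Adj a b → G'.Adj (f a) (f b)) (h : Cn G S) : Cn G' (f '' S) := by
  refine ⟨h.1.image f, ?_⟩
  rintro _ ⟨a, ha, rfl⟩ _ ⟨b, hb, rfl⟩
  exact (h.2 a ha b hb).ind (P := fun x => R G' (f '' S) (f a) (f x)) (R.refl ⟨a, ha, rfl⟩)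
    fun x y _ ih xy hy => ih.tail (hf _ _ xy) ⟨y, hy, rfl⟩

theorem gr_adj {N : ℕ} {E : ℕ → ℕ → Prop} {a b : Fin N} :
    (gr N E).2.Adj a b ↔ (NG N E).Adj a.val b.val := by
  simp only [NG_adj, gr, SimpleGraph.fromRel_adj, Ne, Fin.val_inj, a.2, b.2, true_and]

theorem gr_rm {M N : ℕ} {E E' : ℕ → ℕ → Prop} (h : IndMinor (gr M E) (gr N E')) :
    ∃ φ, RM (NG M E) (Iio M) (NG N E') (Iio N) φ := by
  obtain ⟨B, b1, b2, b3⟩ := h
  let C : Fin M → Set (Fin N) := B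
  have e : ∀ u (h : u < M), {w | ∃ h : u < M, w ∈ Fin.val '' C ⟨u, h⟩} = Fin.val '' C ⟨u, h⟩ :=
    fun u h => Set.ext fun w => ⟨fun ⟨_, k⟩ => k, fun k => ⟨h, k⟩⟩
  refine ⟨fun u => {w | ∃ h : u < M, w ∈ Fin.val '' C ⟨u, h⟩}, fun v hv => ?_, ?_,
    fun u hu v hv uv => ?_, fun u hu v hv uv => ?_⟩
  · rw [e v hv]
    exact (cn_iff.1 (b1 _)).img _ fun a b k => gr_adj.1 k
  · rintro v hv _ ⟨_, x, _, rfl⟩; exact x.2
  · rw [e u hu, e v hv]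
    exact (Set.disjoint_image_iff Fin.val_injective).2 (b2 _ _ fun k => uv (congrArg Fin.val k))
  · rw [e u hu, e v hv]
    refine (gr_adj (a := ⟨u, hu⟩) (b := ⟨v, hv⟩)).symm.trans
      ((b3 _ _ fun k => uv (congrArg Fin.val k)).trans ⟨?_, ?_⟩)
    · rintro ⟨a, ha, b, hb, k⟩
      exact ⟨_, ⟨a, ha, rfl⟩, _, ⟨b, hb, rfl⟩, gr_adj.1 k⟩
    · rintro ⟨_, ⟨a, ha, rfl⟩, _, ⟨b, hb, rfl⟩, k⟩
      exact ⟨a, ha, b, hb, gr_adj.2 k⟩

theorem gr_minor {M N : ℕ} {E E' : ℕ → ℕ → Prop} (h : M ≤ N) (hE : ∀ u v, E u v → E' u v) :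
    Minor (gr M E) (gr N E') := by
  refine ⟨fun i : Fin M => {Fin.castLE h i}, fun i => cn_iff.2 (cn_single _), fun i j ij => ?_,
    fun i j a => ⟨_, rfl, _, rfl, ?_⟩⟩
  · exact Set.disjoint_singleton.2 fun k => ij (Fin.castLE_injective h k)
  · have := NG_adj.1 (gr_adj.1 a)
    exact gr_adj.2 (NG_adj.2 ⟨this.1, this.2.1.trans_le h, this.2.2.1.trans_le h,
      this.2.2.2.imp (hE _ _) (hE _ _)⟩)

theorem mn_of_minor {M : ℕ} {E : ℕ → ℕ → Prop} {G : FinGraph} (h : Mn G.2 E M) :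
    Minor (gr M E) G := by
  obtain ⟨φ, a, b, c⟩ := h
  refine ⟨fun i : Fin M => φ i.val, fun i => cn_iff.2 (a _ i.2), fun i j ij =>
    b _ i.2 _ j.2 fun k => ij (Fin.ext k), fun i j k => ?_⟩
  obtain ⟨k1, -, -, k2 | k2⟩ := NG_adj.1 (gr_adj.1 k)
  · exact c _ i.2 _ j.2 k1 k2
  · exact (c _ j.2 _ i.2 k1.symm k2).symm

section
variable {V : Type} {G : SimpleGraph V} {S T K : Set V} {p : V → ℕ}

/-- Closure under steps inside a connected set. -/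
theorem Cn.all {P : V → Prop} {s : V} (h : Cn G S) (hs : s ∈ S) (h0 : P s)
    (st : ∀ a ∈ S, ∀ b ∈ S, P a → G.Adj a b → P b) : ∀ v ∈ S, P v := fun v hv =>
  (h.2 s hs v hv).ind h0 fun a b ha pa ab hb => st a ha.right b hb pa ab

/-- Intermediate levels. -/
theorem Cn.ivt (h : Cn G S) (hp : ∀ a ∈ S, ∀ b ∈ S, G.Adj a b → p b ≤ p a + 1) {u v : V}
    (hu : u ∈ S) (hv : v ∈ S) {t : ℕ} (h1 : p u ≤ t) (h2 : t ≤ p v) : ∃ w ∈ S, p w = t := by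
  by_contra k
  push Not at k
  have := h.all (P := fun x => p x < t) hu (lt_of_le_of_ne h1 (k u hu)) (fun a ha b hb pa ab =>
    lt_of_le_of_ne ((hp a ha b hb ab).trans pa) (k b hb)) v hv
  omega

theorem minp (p : V → ℕ) (hT : T.Nonempty) : ∃ t ∈ T, ∀ t' ∈ T, p t ≤ p t' := by
  obtain ⟨t, ht, e⟩ := Nat.sInf_mem (hT.image p)
  exact ⟨t, ht, fun t' h => e ▸ Nat.sInf_le (mem_image_of_mem p h)⟩

theorem share_aux (hp : ∀ a ∈ K, ∀ b ∈ K, G.Adj a b → p b ≤ p a + 1)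
    (h3 : ∀ a ∈ K, ∀ b ∈ K, ∀ c ∈ K, p a = p b → p b = p c → a = b ∨ a = c ∨ b = c)
    (sK : S ⊆ K) (hT : T.Nonempty) (tK : T ⊆ K) (U : Fin 3 → Set V)
    (hU : ∀ i, Cn G (U i) ∧ U i ⊆ K ∧ Tc G (U i) S ∧ Tc G (U i) T ∧ Disjoint (U i) S ∧
      Disjoint (U i) T) (dU : ∀ i j, i ≠ j → Disjoint (U i) (U j))
    (lt : ∀ s ∈ S, ∀ t ∈ T, p s < p t) : False := by
  obtain ⟨t, ht, mt⟩ := minp p hT
  have hq : ∀ i, ∀ a ∈ U i, ∀ b ∈ U i, G.Adj a b → p b ≤ p a + 1 := fun i a ha b hb =>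
    hp a ((hU i).2.1 ha) b ((hU i).2.1 hb)
  have : ∀ i, ∃ w ∈ U i, p w + 1 = p t ∨ (p w = p t ∧ ∃ s ∈ S, p s + 1 = p t) := fun i => by
    obtain ⟨h1, h2, ⟨a, ha, s, hs, k⟩, ⟨b, hb, t', ht', k'⟩, -⟩ := hU i
    have e1 := hp _ (sK hs) _ (h2 ha) k.symm
    have e2 := hp _ (h2 hb) _ (tK ht') k'
    have e3 := mt t' ht'
    have e4 := lt s hs t ht
    by_cases c : p a + 1 ≤ p t
    · obtain ⟨w, hw, e⟩ := h1.ivt (hq i) ha hb (t := p t - 1) (by omega) (by omega)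
      exact ⟨w, hw, .inl (by omega)⟩
    · exact ⟨a, ha, .inr ⟨by omega, s, hs, by omega⟩⟩
  choose w hw hw' using this
  have ne : ∀ i j, i ≠ j → w i ≠ w j := fun i j ij e => ij (inj_of_dis hw dU e)
  have nS : ∀ i, ∀ s ∈ S, w i ≠ s := fun i s hs e =>
    Set.disjoint_left.1 (hU i).2.2.2.2.1 (hw i) (e ▸ hs)
  have nT : ∀ i, w i ≠ t := fun i e => Set.disjoint_left.1 (hU i).2.2.2.2.2 (hw i) (e ▸ ht)
  have wK : ∀ i, w i ∈ K := fun i => (hU i).2.1 (hw i)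
  have A : ∀ i j, i ≠ j → p (w i) = p t → p (w j) = p t → False := fun i j ij a b => by
    rcases h3 _ (wK i) _ (wK j) _ (tK ht) (a.trans b.symm) b with k | k | k
    exacts [ne i j ij k, nT i k, nT j k]
  have B : ∀ i j, i ≠ j → ∀ s ∈ S, p s + 1 = p t → p (w i) + 1 = p t → p (w j) + 1 = p t →
      False := fun i j ij s hs c a b => by
    rcases h3 _ (wK i) _ (wK j) _ (sK hs) (by omega) (by omega) with k | k | k
    exacts [ne i j ij k, nS i s hs k, nS j s hs k]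
  rcases hw' 0 with a | ⟨a, s, hs, a'⟩ <;> rcases hw' 1 with b | ⟨b, s', hs', b'⟩ <;>
    rcases hw' 2 with c | ⟨c, s'', hs'', c'⟩
  · rcases h3 _ (wK 0) _ (wK 1) _ (wK 2) (by omega) (by omega) with k | k | k
    exacts [ne 0 1 (by decide) k, ne 0 2 (by decide) k, ne 1 2 (by decide) k]
  · exact B 0 1 (by decide) _ hs'' c' a b
  · exact B 0 2 (by decide) _ hs' b' a c
  · exact A 1 2 (by decide) b c
  · exact B 1 2 (by decide) _ hs a' b c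
  · exact A 0 2 (by decide) a c
  · exact A 0 1 (by decide) a b
  · exact A 0 1 (by decide) a b

/-- Levels of size at most two: two connected sets with three common neighbours share a level. -/
theorem share (hp : ∀ a ∈ K, ∀ b ∈ K, G.Adj a b → p b ≤ p a + 1)
    (h3 : ∀ a ∈ K, ∀ b ∈ K, ∀ c ∈ K, p a = p b → p b = p c → a = b ∨ a = c ∨ b = c)
    (hS : Cn G S) (sK : S ⊆ K) (hT : Cn G T) (tK : T ⊆ K) (U : Fin 3 → Set V)
    (hU : ∀ i, Cn G (U i) ∧ U i ⊆ K ∧ Tc G (U i) S ∧ Tc G (U i) T ∧ Disjoint (U i) S ∧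
      Disjoint (U i) T) (dU : ∀ i j, i ≠ j → Disjoint (U i) (U j)) :
    ∃ s ∈ S, ∃ t ∈ T, p s = p t := by
  by_contra k
  push Not at k
  have iS := fun u v => hS.ivt (p := p) (fun a ha b hb => hp a (sK ha) b (sK hb)) (u := u) (v := v)
  have iT := fun u v => hT.ivt (p := p) (fun a ha b hb => hp a (tK ha) b (tK hb)) (u := u) (v := v)
  obtain ⟨s0, hs0⟩ := hS.1
  obtain ⟨t0, ht0⟩ := hT.1
  rcases lt_or_gt_of_ne (k s0 hs0 t0 ht0) with c | c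
  · refine share_aux hp h3 sK hT.1 tK U hU dU fun s hs t ht => ?_
    by_contra j
    by_cases d : p t0 ≤ p s
    · obtain ⟨w, hw, e⟩ := iS s0 s hs0 hs c.le d
      exact k w hw t0 ht0 e
    · obtain ⟨w, hw, e⟩ := iT t t0 ht ht0 (not_lt.1 j) (not_le.1 d).le
      exact k s hs w hw e.symm
  · refine share_aux hp h3 tK hS.1 sK U (fun i => let ⟨a, b, c, d, e, f⟩ := hU i;
      ⟨a, b, d, c, f, e⟩) dU fun t ht s hs => ?_
    by_contra j
    by_cases d : p s0 ≤ p t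
    · obtain ⟨w, hw, e⟩ := iT t0 t ht0 ht c.le d
      exact k s0 hs0 w hw e.symm
    · obtain ⟨w, hw, e⟩ := iS s s0 hs hs0 (not_lt.1 j) (not_le.1 d).le
      exact k w hw t ht e

end

theorem walk (q : ℕ → ℕ) (a b c : ℕ) (h : ∀ i, a ≤ i → i < b → q (i + 1) ≤ q i + c ∧
    q i ≤ q (i + 1) + c) : ∀ k, a + k ≤ b → q (a + k) ≤ q a + c * k ∧ q a ≤ q (a + k) + c * k := by
  intro k
  induction k with
  | zero => simp
  | succ k ih =>
    intro hk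
    have := ih (by omega)
    have := h (a + k) (by omega) (by omega)
    rw [← add_assoc, mul_add]
    omega

section
variable {M N : ℕ} {E E' : ℕ → ℕ → Prop} {φ : ℕ → Set ℕ}

theorem RM.ne (m : RM (NG M E) (Iio M) (NG N E') (Iio N) φ) {u v a b : ℕ} (hu : u < M)
    (hv : v < M) (uv : u ≠ v) (ha : a ∈ φ u) (hb : b ∈ φ v) : a ≠ b := fun e =>
  Set.disjoint_left.1 (m.dis u hu v hv uv) ha (e ▸ hb)

theorem RM.ds (m : RM (NG M E) (Iio M) (NG N E') (Iio N) φ) {u v : ℕ} (hu : u < M)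
    (hv : v < M) (uv : u ≠ v) : Disjoint (φ u) (φ v) := m.dis u hu v hv uv

theorem RM.c (m : RM (NG M E) (Iio M) (NG N E') (Iio N) φ) (u : ℕ) (hu : u < M) :
    Cn (NG N E') (φ u) := m.cn u hu

theorem RM.tc (m : RM (NG M E) (Iio M) (NG N E') (Iio N) φ) {u v : ℕ} (hu : u < M)
    (hv : v < M) (uv : u ≠ v) (h : E u v ∨ E v u) : Tc (NG N E') (φ u) (φ v) :=
  (m.adj u hu v hv uv).1 (NG_adj.2 ⟨uv, hu, hv, h⟩)

theorem RM.nt (m : RM (NG M E) (Iio M) (NG N E') (Iio N) φ) {u v a b : ℕ} (hu : u < M)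
    (hv : v < M) (uv : u ≠ v) (h : ¬ (E u v ∨ E v u)) (ha : a ∈ φ u) (hb : b ∈ φ v) :
    a ≠ b ∧ a < N ∧ b < N ∧ ¬ (E' a b ∨ E' b a) :=
  ⟨m.ne hu hv uv ha hb, m.sub u hu ha, m.sub v hv hb, fun k => h (NG_adj.1 ((m.adj u hu v hv uv).2
    ⟨a, ha, b, hb, NG_adj.2 ⟨m.ne hu hv uv ha hb, m.sub u hu ha, m.sub v hv hb, k⟩⟩)).2.2.2⟩

end

/-- A family in which a model forces comparable sizes gives a bad sequence. -/
theorem anti_of (Γ H : ℕ → FinGraph) (h1 : ∀ i, ∃ m, ∀ n, m ≤ n → Minor (H i) (Γ n))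
    (h2 : ∀ m n, 16 ≤ m → IndMinor (H m) (H n) → n < 4 * m) : Anti Γ := by
  refine ⟨fun i => H (4 ^ (i + 2)), fun i => h1 _, fun i j ij k => ?_⟩
  have a : 4 ^ 2 ≤ 4 ^ (i + 2) := Nat.pow_le_pow_right (by omega) (by omega)
  have b : 4 ^ (i + 2 + 1) ≤ 4 ^ (j + 2) := Nat.pow_le_pow_right (by omega) (by omega)
  have := h2 _ _ a k
  rw [pow_succ] at b
  omega

end Pool.Agent.Lib.IM
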