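import Pool.Agent.Lib.IM.Ant

/-! The bad sequence below the double fans. -/

open Set Function

namespace Pool.Agent.Lib.IM

open Pool.Agent.Lib.NC4b

/-- A path whose inner vertices see the two hubs alternately. -/
def FA (M u v : ℕ) : Prop := (u ≤ 1 ∧ 3 ≤ v ∧ v + 1 < M ∧ v % 2 = u) ∨ (2 ≤ u ∧ v = u + 1)

theorem five (w : ℕ → ℕ) (a b c d : ℕ) (ne : ∀ i < 5, ∀ j < 5, i ≠ j → w i ≠ w j)
    (h : ∀ i < 5, w i = a ∨ w i = b ∨ w i = c ∨ w i = d) : False := by
  obtain ⟨i, hi, j, hj, ij, e⟩ := Finset.exists_ne_map_eq_of_card_lt_of_maps_to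
    (s := Finset.range 5) (t := {a, b, c, d}) (f := w)
    (lt_of_le_of_lt Finset.card_le_four (by simp)) (fun i hi => by
      simpa using h i (Finset.mem_range.1 hi))
  exact ne i (Finset.mem_range.1 hi) j (Finset.mem_range.1 hj) ij e

theorem coreA {m n : ℕ} {φ : ℕ → Set ℕ} (hm : 16 ≤ m)
    (h : RM (NG m (FA m)) (Iio m) (NG n (FA n)) (Iio n) φ) : n ≤ m := by
  have cn : ∀ u < m, Cn (NG n (FA n)) (φ u) := h.cn
  have hub : ∀ c ≤ 1, ∃ x ∈ φ c, x ≤ 1 := fun c hc => by
    by_contra k
    push Not at k
    have c0 := cn c (by omega)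
    obtain ⟨l, hl, ml⟩ := minp id c0.1
    obtain ⟨r, hr, mr⟩ := minp (fun x => n - x) c0.1
    have sub : ∀ x ∈ φ c, x < n := h.sub c (show c < m by omega)
    have iv : ∀ t, l ≤ t → t ≤ r → t ∈ φ c := fun t h1 h2 => by
      obtain ⟨w, hw, e⟩ := c0.ivt (p := id) (fun a ha b hb ab => by
        have := k a ha
        have := k b hb
        have := NG_adj.1 ab
        simp only [FA, id] at *
        omega) hl hr h1 h2
      exact e ▸ hw
    have : ∀ i, ∃ w, i < 5 → w ∈ φ (4 + c + 2 * i) ∧ (w = 0 ∨ w = 1 ∨ w = l - 1 ∨ w = r + 1) :=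
      fun i => by
        by_cases hi : i < 5
        swap
        · exact ⟨0, fun j => absurd j hi⟩
        obtain ⟨s, hs, w, hw, a⟩ := h.tc (u := c) (v := 4 + c + 2 * i) (by omega) (by omega)
          (by omega) (by simp only [FA]; omega)
        refine ⟨w, fun _ => ⟨hw, ?_⟩⟩
        have e1 := ml s hs
        have e2 := mr s hs
        have e3 := sub s hs
        have e4 := sub r hr
        have e5 := k s hs
        have e6 : ¬ (l ≤ w ∧ w ≤ r) := fun j => h.ne (u := c) (v := 4 + c + 2 * i) (by omega)
          (by omega) (by omega) (iv w j.1 j.2) hw rfl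
        have := NG_adj.1 a
        simp only [FA, id] at *
        omega
    choose w hw using this
    exact five w 0 1 (l - 1) (r + 1) (fun i hi j hj ij => h.ne (by omega) (by omega) (by omega)
      (hw i hi).1 (hw j hj).1) fun i hi => (hw i hi).2
  obtain ⟨x, hx, x1⟩ := hub 0 (by omega)
  obtain ⟨y, hy, y1⟩ := hub 1 (by omega)
  have xy := h.ne (by omega) (by omega) (by omega) hx hy
  have two : ∀ u, 2 ≤ u → u < m → ∀ w ∈ φ u, 2 ≤ w := fun u h1 h2 w hw => by
    have := h.ne h2 (by omega) (by omega) hw hx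
    have := h.ne h2 (by omega) (by omega) hw hy
    omega
  have en : ∀ u, u = 2 ∨ u + 1 = m → ∀ w ∈ φ u, w = 2 ∨ w + 1 = n := fun u hu w hw => by
    have := two u (by omega) (by omega) w hw
    have := h.nt (u := u) (v := 0) (by omega) (by omega) (by omega) (by simp only [FA]; omega) hw hx
    have := h.nt (u := u) (v := 1) (by omega) (by omega) (by omega) (by simp only [FA]; omega) hw hy
    simp only [FA] at *
    omega
  have : ∀ u, ∃ w, u < m → w ∈ φ u := fun u => by
    by_cases hu : u < m
    · obtain ⟨w, hw⟩ := (cn u hu).1; exact ⟨w, fun _ => hw⟩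
    · exact ⟨0, fun j => absurd j hu⟩
  choose q hq using this
  have q1 := en 2 (.inl rfl) _ (hq 2 (by omega))
  have q2 := en (m - 1) (.inr (by omega)) _ (hq (m - 1) (by omega))
  have q3 := h.ne (u := 2) (v := m - 1) (by omega) (by omega) (by omega) (hq 2 (by omega))
    (hq (m - 1) (by omega))
  have one : ∀ u, 2 ≤ u → u < m → ∀ w ∈ φ u, w = q u := fun u h1 h2 => by
    by_cases e : u = 2
    · subst e
      intro w hw
      have := en 2 (.inl rfl) w hw
      have := h.ne (u := 2) (v := m - 1) h2 (by omega) (by omega) hw (hq (m - 1) (by omega))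
      omega
    by_cases e' : u = m - 1
    · subst e'
      intro w hw
      have := en (m - 1) (.inr (by omega)) w hw
      have := h.ne (u := m - 1) (v := 2) h2 (by omega) (by omega) hw (hq 2 (by omega))
      omega
    have par : ∃ z, z ≤ 1 ∧ ∀ w ∈ φ u, w % 2 ≠ z := by
      have inn : ∀ w ∈ φ u, 3 ≤ w ∧ w + 1 < n := fun w hw => by
        have := two u h1 h2 w hw
        have := h.ne (v := m - 1) h2 (by omega) e' hw (hq (m - 1) (by omega))
        have := h.ne (v := 2) h2 (by omega) e hw (hq 2 (by omega))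
        have : w < n := h.sub u h2 hw
        omega
      by_cases c : u % 2 = 0
      · refine ⟨y, y1, fun w hw => ?_⟩
        have := inn w hw
        have := h.nt (v := 1) h2 (by omega) (by omega) (by simp only [FA]; omega) hw hy
        simp only [FA] at *
        omega
      · refine ⟨x, x1, fun w hw => ?_⟩
        have := inn w hw
        have := h.nt (v := 0) h2 (by omega) (by omega) (by simp only [FA]; omega) hw hx
        simp only [FA] at *
        omega
    obtain ⟨z, z1, par⟩ := par
    refine (cn u h2).all (hq u h2) rfl fun a ha b hb _ ab => ?_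
    have := par a ha
    have := par b hb
    have := two u h1 h2 a ha
    have := two u h1 h2 b hb
    have := NG_adj.1 ab
    simp only [FA] at *
    omega
  have := walk q 2 (m - 1) 1 (fun i h1 h2 => by
    obtain ⟨a, ha, b, hb, ab⟩ := h.tc (u := i) (v := i + 1) (by omega) (by omega) (by omega)
      (.inl (.inr ⟨h1, rfl⟩))
    have := one i h1 (by omega) a ha
    have := one (i + 1) (by omega) (by omega) b hb
    have := two i h1 (by omega) a ha
    have := two (i + 1) (by omega) (by omega) b hb
    have := NG_adj.1 ab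
    simp only [FA] at *
    omega) (m - 3) (by omega)
  rw [show 2 + (m - 3) = m - 1 by omega] at this
  omega

theorem antA : Anti fan := by
  refine anti_of _ (fun m => gr m (FA m)) (fun i => ⟨i, fun n hn => ?_⟩) fun m n hm k => ?_
  · exact gr_minor (N := n + 2) (E' := EA) (by omega) fun u v k => by
      simp only [FA, EA] at *; omega
  · obtain ⟨φ, h⟩ := gr_rm k
    have := coreA hm h
    omega

end Pool.Agent.Lib.IM
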