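import Pool.Agent.Lib.IM.Ant

/-! The bad sequence below the lozenge chains. -/

open Set Function

namespace Pool.Agent.Lib.IM

open Pool.Agent.Lib.NC4b

/-- The lozenge chain on the levels `0, …, n` without one edge at each end. -/
def FB (n u v : ℕ) : Prop :=
  v / 2 = u / 2 + 1 ∧ ¬ (u = 1 ∧ v = 3) ∧ ¬ (u + 1 = 2 * n ∧ v = 2 * n + 1)

variable {m n : ℕ} {φ : ℕ → Set ℕ}

theorem npB (hm : 16 ≤ m) (mn : m ≤ n)
    (h : RM (NG (2 * m + 2) (FB m)) (Iio (2 * m + 2)) (NG (2 * n + 2) (FB n)) (Iio (2 * n + 2)) φ)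
    {i u v s t : ℕ} (h1 : 1 ≤ i) (h2 : i < m) (hu : u / 2 = i) (hv : v / 2 = i) (uv : u ≠ v)
    (hs : s ∈ φ u) (ht : t ∈ φ v) (e : s / 2 = t / 2) : t ≠ 1 ∧ t ≠ 2 * n + 1 := by
  have nt : ∀ b ∈ φ v, s ≠ b ∧ s < 2 * n + 2 ∧ b < 2 * n + 2 ∧ ¬ (FB n s b ∨ FB n b s) :=
    fun b hb => h.nt (by omega) (by omega) uv (by simp only [FB]; omega) hs hb
  obtain ⟨a, ha, b, hb, ab⟩ := h.tc (u := v) (v := 2 * i - 2) (by omega) (by omega) (by omega)
    (by simp only [FB]; omega)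
  obtain ⟨a', ha', b', hb', ab'⟩ := h.tc (u := v) (v := 2 * i + 2) (by omega) (by omega)
    (by omega) (by simp only [FB]; omega)
  have ne := h.ne (u := 2 * i - 2) (v := 2 * i + 2) (by omega) (by omega) (by omega) hb hb'
  have cn := h.c v (by omega)
  have n16 : 16 ≤ n := hm.trans mn
  clear h1 h2 hu hv uv hm mn
  by_contra k
  have k : t = 1 ∨ t = 2 * n + 1 := by omega
  have all := cn.all (P := fun w => w = t) ht rfl fun a ha b hb pa ab => by
    have x1 := nt b hb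
    have x2 := (nt t ht).1
    have x3 := NG_adj.1 ab
    simp only [FB] at x1 x3
    omega
  have := all a ha
  have := all a' ha'
  have x1 := NG_adj.1 ab
  have x2 := NG_adj.1 ab'
  simp only [FB] at x1 x2
  omega

theorem shareB (hm : 16 ≤ m)
    (h : RM (NG (2 * m + 2) (FB m)) (Iio (2 * m + 2)) (NG (2 * n + 2) (FB n)) (Iio (2 * n + 2)) φ)
    {i : ℕ} (h1 : 1 ≤ i) (h2 : i < m) : ∃ s ∈ φ (2 * i), ∃ t ∈ φ (2 * i + 1), s / 2 = t / 2 := by
  let c : Fin 3 → ℕ := ![2 * i - 2, 2 * i + 2, if i = 1 then 5 else 2 * i - 1]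
  have c1 : ∀ k, c k = 2 * i - 2 ∧ k = 0 ∨ c k = 2 * i + 2 ∧ k = 1 ∨
      ((i = 1 ∧ c k = 5) ∨ (i ≠ 1 ∧ c k = 2 * i - 1)) ∧ k = 2 := fun k => by
    fin_cases k <;> simp [c]
    by_cases e : i = 1 <;> simp [e]
  exact share (G := NG (2 * n + 2) (FB n)) (K := univ)
    (p := fun v => v / 2) (fun a _ b _ ab => by
      have x := NG_adj.1 ab
      simp only [FB] at x ⊢
      omega) (fun a _ b _ c _ x y => by omega) (h.c (2 * i) (by omega)) (subset_univ _)
    (h.c (2 * i + 1) (by omega)) (subset_univ _) (fun k => φ (c k)) (fun k => by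
      have := c1 k
      have l : c k < 2 * m + 2 := by omega
      exact ⟨h.c _ l, subset_univ _, h.tc l (by omega) (by omega) (by simp only [FB]; omega),
        h.tc l (by omega) (by omega) (by simp only [FB]; omega),
        h.ds l (by omega) (by omega), h.ds l (by omega) (by omega)⟩) (fun j k jk => by
      have := c1 k
      have := c1 j
      exact h.ds (by omega) (by omega) (by omega))

theorem shB (hm : 16 ≤ m) (mn : m ≤ n)
    (h : RM (NG (2 * m + 2) (FB m)) (Iio (2 * m + 2)) (NG (2 * n + 2) (FB n)) (Iio (2 * n + 2)) φ)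
    {i s t : ℕ} (h1 : 1 ≤ i) (h2 : i < m) (a1 : s ∈ φ (2 * i)) (a2 : t ∈ φ (2 * i + 1))
    (a3 : s / 2 = t / 2) :
    ∀ w ∈ φ (2 * i), w = s ∨ (w = 1 ∧ s = 2) ∨ (w = 2 * n + 1 ∧ s + 2 = 2 * n) := by
  have n1 := npB hm mn h h1 h2 (by omega) (by omega) (by omega) a1 a2 a3
  refine (h.c _ (by omega)).all a1 (.inl rfl) fun a ha b hb pa ab => ?_
  have x1 := h.nt (by omega) (by omega) (by omega) (by simp only [FB]; omega) hb a2
  have := h.ne (by omega) (by omega) (by omega) a1 a2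
  have x2 := NG_adj.1 ab
  simp only [FB] at x1 x2
  omega

theorem mkB (hm : 16 ≤ m) (mn : m ≤ n)
    (h : RM (NG (2 * m + 2) (FB m)) (Iio (2 * m + 2)) (NG (2 * n + 2) (FB n)) (Iio (2 * n + 2)) φ)
    {i s t : ℕ} (u : ℕ) (hi : (i = 1 ∧ u = 1) ∨ (i + 1 = m ∧ u = 2 * m + 1)) (a1 : s ∈ φ (2 * i))
    (a2 : t ∈ φ (2 * i + 1)) (a3 : s / 2 = t / 2) : s / 2 = 1 ∨ s / 2 + 1 = n := by
  have n1 := npB hm mn h (i := i) (by omega) (by omega) (by omega) (by omega) (by omega) a1 a2 a3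
  obtain ⟨a, ha, b, hb, ab⟩ := h.tc (u := 2 * i) (v := u) (by omega) (by omega) (by omega)
    (by simp only [FB]; omega)
  have := shB hm mn h (by omega) (by omega) a1 a2 a3 a ha
  have x1 := h.nt (by omega) (by omega) (by omega) (by simp only [FB]; omega) hb a2
  have := h.ne (by omega) (by omega) (by omega) a1 a2
  have := h.ne (by omega) (by omega) (by omega) a1 hb
  have x2 := NG_adj.1 ab
  simp only [FB] at x1 x2
  clear hi
  omega

theorem coreB (hm : 16 ≤ m) (mn : m ≤ n)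
    (h : RM (NG (2 * m + 2) (FB m)) (Iio (2 * m + 2)) (NG (2 * n + 2) (FB n)) (Iio (2 * n + 2)) φ) :
    n ≤ m := by
  have : ∀ i, ∃ s t, 1 ≤ i → i < m → s ∈ φ (2 * i) ∧ t ∈ φ (2 * i + 1) ∧ s / 2 = t / 2 :=
    fun i => by
      by_cases hi : 1 ≤ i ∧ i < m
      · obtain ⟨s, hs, t, ht, e⟩ := shareB hm h hi.1 hi.2
        exact ⟨s, t, fun _ _ => ⟨hs, ht, e⟩⟩
      · exact ⟨0, 0, fun a b => absurd ⟨a, b⟩ hi⟩
  choose s t hst using this
  have w := walk (fun i => s i / 2) 1 (m - 1) 1 (fun i h1 h2 => by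
    obtain ⟨a, ha, b, hb, ab⟩ := h.tc (u := 2 * i) (v := 2 * (i + 1)) (by omega) (by omega)
      (by omega) (by simp only [FB]; omega)
    obtain ⟨a1, a2, a3⟩ := hst i h1 (by omega)
    obtain ⟨b1, b2, b3⟩ := hst (i + 1) (by omega) (by omega)
    have := shB hm mn h h1 (by omega) a1 a2 a3 a ha
    have := shB hm mn h (by omega) (by omega) b1 b2 b3 b hb
    have := h.ne (by omega) (by omega) (by omega) ha b1
    have := h.ne (by omega) (by omega) (by omega) hb a1
    have x := NG_adj.1 ab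
    simp only [FB] at x
    clear a3 b3
    omega) (m - 2) (by omega)
  rw [show 1 + (m - 2) = m - 1 by omega] at w
  obtain ⟨a1, a2, a3⟩ := hst 1 (by omega) (by omega)
  obtain ⟨b1, b2, b3⟩ := hst (m - 1) (by omega) (by omega)
  have q1 := mkB hm mn h 1 (by omega) a1 a2 a3
  have q2 := mkB hm mn h (2 * m + 1) (by omega) b1 b2 b3
  have := h.ne (by omega) (by omega) (by omega) a1 a2
  have := h.ne (by omega) (by omega) (by omega) a1 b1
  have := h.ne (by omega) (by omega) (by omega) a2 b1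
  omega

theorem antB : Anti loz := by
  refine anti_of _ (fun m => gr (2 * m + 2) (FB m)) (fun i => ⟨i + 1, fun n hn => ?_⟩)
    fun m n hm k => ?_
  · exact gr_minor (N := 2 * n) (E' := EB) (by omega) fun u v k => k.1
  · obtain ⟨φ, h⟩ := gr_rm k
    by_contra j
    have := coreB hm (by omega) h
    omega

end Pool.Agent.Lib.IM
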