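import Pool.Agent.Lib.IM.Ant

/-! The bad sequence below the hub chains. -/

open Set Function

namespace Pool.Agent.Lib.IM

open Pool.Agent.Lib.NC4b

/-- The hub chain without one hub edge at each end. -/
def FC (n u v : ℕ) : Prop := EC u v ∧ ¬ (u = 0 ∧ (v = 2 ∨ v + 1 = 3 * n))

variable {m n : ℕ} {φ : ℕ → Set ℕ}

theorem adjC {a b : ℕ} (ab : (NG (3 * n + 2) (FC n)).Adj a b) (ha : a ≠ 0) (hb : b ≠ 0) :
    ∃ i < n, ((a = 3 * i + 1 ∨ a = 3 * i + 4) ∧ (b = 3 * i + 2 ∨ b = 3 * i + 3)) ∨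
      ((b = 3 * i + 1 ∨ b = 3 * i + 4) ∧ (a = 3 * i + 2 ∨ a = 3 * i + 3)) := by
  obtain ⟨x, y, z, k | k⟩ := NG_adj.1 ab
  · simp only [FC, EC] at k
    exact ⟨(b - 2) / 3, by omega, .inl (by omega)⟩
  · simp only [FC, EC] at k
    exact ⟨(a - 2) / 3, by omega, .inr (by omega)⟩

theorem levC : ∀ a ∈ ({0}ᶜ : Set ℕ), ∀ b ∈ ({0}ᶜ : Set ℕ), (NG (3 * n + 2) (FC n)).Adj a b →
    (2 * b + 2) / 3 ≤ (2 * a + 2) / 3 + 1 := fun a ha b hb ab => by
  obtain ⟨i, -, k⟩ := adjC ab ha hb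
  omega

theorem grpC
    (h : RM (NG (3 * m + 2) (FC m)) (Iio (3 * m + 2)) (NG (3 * n + 2) (FC n)) (Iio (3 * n + 2)) φ)
    (h0 : 0 ∉ φ 0) {j : ℕ} (h1 : 2 ≤ j) (h2 : j + 2 ≤ m) :
    ∃ u, 3 * j ≤ u + 1 ∧ u ≤ 3 * j + 2 ∧ 0 ∈ φ u := by
  by_contra k
  push Not at k
  let c : Fin 3 → ℕ := ![3 * j - 1, 3 * j, 3 * j + 2]
  have c1 : ∀ k, c k = 3 * j - 1 ∧ k = 0 ∨ c k = 3 * j ∧ k = 1 ∨ c k = 3 * j + 2 ∧ k = 2 :=
    fun k => by fin_cases k <;> simp [c]
  have sb : ∀ u, 0 ∉ φ u → φ u ⊆ {0}ᶜ := fun u hu w hw e => hu (e ▸ hw)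
  have tc : ∀ k, Tc (NG (3 * n + 2) (FC n)) (φ (c k)) (φ 0) := fun k => by
    have := c1 k
    exact h.tc (by omega) (by omega) (by omega) (.inr ⟨⟨by omega, .inl rfl⟩, by omega⟩)
  have dU : ∀ a b, a ≠ b → Disjoint (φ (c a)) (φ (c b)) := fun a b ab => by
    have := c1 a
    have := c1 b
    exact h.ds (by omega) (by omega) (by omega)
  have k1 := k (3 * j + 1) (by omega) (by omega)
  have kc : ∀ a, 0 ∉ φ (c a) := fun a => by
    have := c1 a
    exact k _ (by omega) (by omega)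
  obtain ⟨s, hs, t, ht, e⟩ := share (G := NG (3 * n + 2) (FC n)) (K := {0}ᶜ)
    (p := fun v => (2 * v + 2) / 3) levC (fun a _ b _ c _ x y => by omega) (h.c 0 (by omega))
    (sb _ h0) (h.c (3 * j + 1) (by omega)) (sb _ k1) (fun k => φ (c k)) (fun a => by
      have := c1 a
      have l : c a < 3 * m + 2 := by omega
      exact ⟨h.c _ l, sb _ (kc a), tc a,
        h.tc l (by omega) (by omega) (.inr (by simp only [FC, EC]; omega)),
        h.ds l (by omega) (by omega), h.ds l (by omega) (by omega)⟩) dU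
  have nt : ∀ b ∈ φ 0, b ≠ t ∧ b < 3 * n + 2 ∧ t < 3 * n + 2 ∧ ¬ (FC n b t ∨ FC n t b) :=
    fun b hb => h.nt (by omega) (by omega) (by omega) (by simp only [FC, EC]; omega) hb ht
  have t0 : t ≠ 0 := sb _ k1 ht
  have st := (nt s hs).1
  have all := (h.c 0 (by omega)).all (P := fun w => w = s) hs rfl fun a ha b hb pa ab => by
    obtain ⟨i, hi, x⟩ := adjC ab (sb _ h0 ha) (sb _ h0 hb)
    have y := nt b hb
    simp only [FC, EC] at y
    omega
  have : ∀ a, ∃ w ∈ φ (c a), w = 3 * ((s - 2) / 3) + 1 ∨ w = 3 * ((s - 2) / 3) + 4 := fun a => by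
    obtain ⟨w, hw, s', hs', ab⟩ := tc a
    obtain ⟨i, hi, x⟩ := adjC ab (sb _ (kc a) hw) (sb _ h0 hs')
    have := all s' hs'
    exact ⟨w, hw, by omega⟩
  choose w hw hw' using this
  have inj := inj_of_dis hw dU
  have := hw' 0
  have := hw' 1
  have := hw' 2
  have := inj.ne (show (0 : Fin 3) ≠ 1 by decide)
  have := inj.ne (show (0 : Fin 3) ≠ 2 by decide)
  have := inj.ne (show (1 : Fin 3) ≠ 2 by decide)
  omega

theorem coreC (hm : 16 ≤ m)
    (h : RM (NG (3 * m + 2) (FC m)) (Iio (3 * m + 2)) (NG (3 * n + 2) (FC n)) (Iio (3 * n + 2)) φ) :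
    n < 4 * m := by
  have h0 : 0 ∈ φ 0 := by
    by_contra k
    obtain ⟨u, u1, u2, u3⟩ := grpC h k (j := 2) (by omega) (by omega)
    obtain ⟨v, v1, v2, v3⟩ := grpC h k (j := 4) (by omega) (by omega)
    exact h.ne (by omega) (by omega) (by omega) u3 v3 rfl
  have nz : ∀ u, u ≠ 0 → u < 3 * m + 2 → ∀ w ∈ φ u, w ≠ 0 := fun u h1 h2 w hw =>
    h.ne h2 (by omega) h1 hw h0
  have nh : ∀ u, u < 3 * m + 2 → u % 3 = 1 ∨ u = 2 ∨ u + 1 = 3 * m → ∀ w ∈ φ u,
      w % 3 = 1 ∨ w = 2 ∨ w + 1 = 3 * n := fun u h1 h2 w hw => by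
    have x := h.nt h1 (by omega) (by omega)
      (by simp only [FC, EC, true_or, true_and, and_true]; omega) hw h0
    simp only [FC, EC, true_or, true_and, and_true] at x
    omega
  have : ∀ i, ∃ w, i ≤ m → w ∈ φ (3 * i + 1) := fun i => by
    by_cases hu : i ≤ m
    · obtain ⟨w, hw⟩ := (h.c (3 * i + 1) (by omega)).1; exact ⟨w, fun _ => hw⟩
    · exact ⟨0, fun j => absurd j hu⟩
  choose q hq using this
  by_contra big
  have near : ∀ i ≤ m, ∀ w ∈ φ (3 * i + 1), w = q i ∨ (w ≤ 4 ∧ q i ≤ 4) ∨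
      (3 * n ≤ w + 2 ∧ 3 * n ≤ q i + 2) := fun i hi => by
    refine (h.c _ (by omega)).all (hq i hi) (.inl rfl) fun a ha b hb pa ab => ?_
    obtain ⟨j, hj, x⟩ := adjC ab (nz _ (by omega) (by omega) a ha) (nz _ (by omega) (by omega) b hb)
    have := nh _ (by omega) (by omega) a ha
    have := nh _ (by omega) (by omega) b hb
    omega
  have mk : ∀ i u, (i = 1 ∧ u = 2) ∨ (i + 1 = m ∧ u + 1 = 3 * m) → ∃ a ∈ φ (3 * i + 1), ∃ b ∈ φ u,
      (1 ≤ a ∧ a ≤ 4 ∧ a ≠ 3 ∧ 1 ≤ b ∧ b ≤ 4 ∧ b ≠ 3 ∧ q i ≤ 4) ∨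
      (3 * n ≤ a + 2 ∧ a ≤ 3 * n + 1 ∧ a ≠ 3 * n ∧ 3 * n ≤ b + 2 ∧ b ≤ 3 * n + 1 ∧ b ≠ 3 * n ∧
        3 * n ≤ q i + 2) := fun i u hi => by
    obtain ⟨a, ha, b, hb, ab⟩ := h.tc (u := 3 * i + 1) (v := u) (by omega) (by omega) (by omega)
      (.inl (by simp only [FC, EC]; omega))
    obtain ⟨j, hj, x⟩ := adjC ab (nz _ (by omega) (by omega) a ha) (nz _ (by omega) (by omega) b hb)
    have := nh _ (by omega) (by omega) a ha
    have := nh _ (by omega) (by omega) b hb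
    have := near i (by omega) a ha
    refine ⟨a, ha, b, hb, ?_⟩
    clear hi
    omega
  have link : ∀ i j k, i ≤ m → j ≤ m → k < m → (i = k ∧ j = k + 1) ∨ (j = k ∧ i = k + 1) →
      q j ≤ q i + 12 := fun i j k hi hj hk e => by
    by_contra far
    have : ∀ u, u = 3 * k + 2 ∨ u = 3 * k + 3 → 3 * (q i / 3) + 7 ∈ φ u := fun u hu => by
      obtain ⟨a, ha, b, hb, ab⟩ := h.tc (u := 3 * i + 1) (v := u) (by omega) (by omega) (by omega)
        (.inl (by simp only [FC, EC]; omega))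
      obtain ⟨a', ha', b', hb', ab'⟩ := h.tc (u := 3 * j + 1) (v := u) (by omega) (by omega)
        (by omega) (.inl (by simp only [FC, EC]; omega))
      have z : ∀ w ∈ φ u, w ≠ 0 := nz _ (by omega) (by omega)
      obtain ⟨x, hx, x'⟩ := adjC ab (nz _ (by omega) (by omega) a ha) (z b hb)
      obtain ⟨y, hy, y'⟩ := adjC ab' (nz _ (by omega) (by omega) a' ha') (z b' hb')
      have n1 := near i hi a ha
      have n2 := near j hj a' ha'
      have : q j < 3 * n + 2 := h.sub (3 * j + 1) (show 3 * j + 1 < 3 * m + 2 by omega) (hq j hj)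
      have cu := h.c u (by omega)
      clear e hu
      obtain ⟨w, hw, e⟩ := cu.ivt (p := fun v => (2 * v + 2) / 3)
        (fun a ha b hb => levC a (z a ha) b (z b hb)) hb hb' (t := 2 * (q i / 3) + 5)
        (by omega) (by omega)
      exact (show w = 3 * (q i / 3) + 7 by omega) ▸ hw
    exact h.ne (by omega) (by omega) (by omega) (this _ (.inl rfl)) (this _ (.inr rfl)) rfl
  have w := walk q 1 (m - 1) 12 (fun i h1 h2 => ⟨link i (i + 1) i (by omega) (by omega) (by omega)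
    (by omega), link (i + 1) i i (by omega) (by omega) (by omega) (by omega)⟩) (m - 2) (by omega)
  rw [show 1 + (m - 2) = m - 1 by omega] at w
  obtain ⟨a, ha, b, hb, x⟩ := mk 1 2 (by omega)
  obtain ⟨a', ha', b', hb', x'⟩ := mk (m - 1) (3 * m - 1) (by omega)
  have := h.ne (by omega) (by omega) (by omega) ha hb
  have := h.ne (by omega) (by omega) (by omega) ha ha'
  have := h.ne (by omega) (by omega) (by omega) ha hb'
  have := h.ne (by omega) (by omega) (by omega) hb ha'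
  have := h.ne (by omega) (by omega) (by omega) hb hb'
  have := h.ne (by omega) (by omega) (by omega) ha' hb'
  omega

theorem antC : Anti hub := by
  refine anti_of _ (fun m => gr (3 * m + 2) (FC m)) (fun i => ⟨i, fun n hn => ?_⟩)
    fun m n hm k => ?_
  · exact gr_minor (N := 3 * n + 2) (E' := EC) (by omega) fun u v k => k.1
  · obtain ⟨φ, h⟩ := gr_rm k
    exact coreC hm h

end Pool.Agent.Lib.IM
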