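import Pool.Agent.Lib.IM.Blue

/-! Basic facts on reachability. -/

open Set Function

namespace Pool.Agent.Lib.IM

variable {V : Type} {G : SimpleGraph V} {S T A B Y : Set V} {u v w : V}

theorem R.refl (h : u ∈ S) : R G S u u := ⟨h, .refl⟩

theorem R.left (h : R G S u v) : u ∈ S := h.1

theorem R.right (h : R G S u v) : v ∈ S := by
  obtain ⟨h1, h2⟩ := h
  induction h2 with
  | refl => exact h1
  | tail _ h _ => exact h.2

theorem R.tail (h : R G S u v) (a : G.Adj v w) (hw : w ∈ S) : R G S u w := ⟨h.1, h.2.tail ⟨a, hw⟩⟩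

theorem R.trans (h : R G S u v) (h' : R G S v w) : R G S u w := ⟨h.1, h.2.trans h'.2⟩

theorem R.single (a : G.Adj u v) (hu : u ∈ S) (hv : v ∈ S) : R G S u v := (R.refl hu).tail a hv

theorem R.ind {P : V → Prop} (h : R G S u v) (h0 : P u)
    (hs : ∀ a b, R G S u a → P a → G.Adj a b → b ∈ S → P b) : P v := by
  obtain ⟨h1, h2⟩ := h
  induction h2 with
  | refl => exact h0
  | tail h h' ih => exact hs _ _ ⟨h1, h⟩ ih h'.1 h'.2

theorem R.symm (h : R G S u v) : R G S v u :=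
  h.ind (P := fun a => R G S a u) (R.refl h.1) fun _ _ ha ih a hb =>
    (R.single a.symm hb ha.right).trans ih

theorem R.mono (h : R G S u v) (hS : S ⊆ T) : R G T u v :=
  h.ind (P := fun a => R G T u a) (R.refl (hS h.1)) fun _ _ _ ih a hb => ih.tail a (hS hb)

theorem R.monoG {G' : SimpleGraph V} (h : R G S u v) (hG : G ≤ G') : R G' S u v :=
  h.ind (P := fun a => R G' S u a) (R.refl h.1) fun _ _ _ ih a hb => ih.tail (hG a) hb

/-- The set of vertices reached from `A` inside `S`. -/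
def rc (G : SimpleGraph V) (S A : Set V) : Set V := {v | ∃ a ∈ A, R G S a v}

theorem rc_sub : rc G S A ⊆ S := fun _ ⟨_, _, h⟩ => h.right

theorem rc_adj (h : u ∈ rc G S A) (a : G.Adj u v) (hv : v ∈ S) : v ∈ rc G S A :=
  let ⟨x, hx, h⟩ := h; ⟨x, hx, h.tail a hv⟩

theorem rc_self (h : u ∈ A) (hS : u ∈ S) : u ∈ rc G S A := ⟨u, h, R.refl hS⟩

theorem rc_R (h : u ∈ rc G S A) (h' : R G S u v) : v ∈ rc G S A :=
  let ⟨x, hx, h⟩ := h; ⟨x, hx, h.trans h'⟩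

theorem mem_rc1 : v ∈ rc G S {u} ↔ R G S u v := by simp [rc]

theorem R.in_rc (h : R G S u v) (hu : u ∈ A) : R G (rc G S A) u v :=
  h.ind (P := fun a => R G (rc G S A) u a) (R.refl (rc_self hu h.1)) fun _ _ _ ih a hb =>
    ih.tail a (rc_adj ih.right a hb)

theorem cn_of_root (hu : u ∈ S) (h : ∀ v ∈ S, R G S u v) : Cn G S :=
  ⟨⟨u, hu⟩, fun a ha b hb => (h a ha).symm.trans (h b hb)⟩

theorem cn_rc1 (hu : u ∈ S) : Cn G (rc G S {u}) :=
  cn_of_root (rc_self rfl hu) fun _ hv => (mem_rc1.1 hv).in_rc rfl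

theorem cn_single (u : V) : Cn G {u} := cn_of_root rfl fun _ hv => hv ▸ R.refl rfl

theorem Cn.monoG {G' : SimpleGraph V} (h : Cn G S) (hG : G ≤ G') : Cn G' S :=
  ⟨h.1, fun u hu v hv => (h.2 u hu v hv).monoG hG⟩

theorem Tc.symm (h : Tc G S T) : Tc G T S :=
  let ⟨u, hu, v, hv, a⟩ := h; ⟨v, hv, u, hu, a.symm⟩

theorem Tc.mono {S' T' : Set V} (h : Tc G S T) (hS : S ⊆ S') (hT : T ⊆ T') : Tc G S' T' :=
  let ⟨u, hu, v, hv, a⟩ := h; ⟨u, hS hu, v, hT hv, a⟩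

theorem Cn.union (hS : Cn G S) (hT : Cn G T) (hu : u ∈ S) (hu' : u ∈ T) : Cn G (S ∪ T) :=
  cn_of_root (Or.inl hu) fun v hv => hv.elim
    (fun h => (hS.2 u hu v h).mono subset_union_left) fun h => (hT.2 u hu' v h).mono subset_union_right

theorem Cn.union_tc (hS : Cn G S) (hT : Cn G T) (h : Tc G S T) : Cn G (S ∪ T) := by
  obtain ⟨u, hu, v, hv, a⟩ := h
  refine cn_of_root (Or.inl hu) fun w hw => hw.elim
    (fun h => (hS.2 u hu w h).mono subset_union_left) fun h => ?_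
  exact (R.single a (Or.inl hu) (Or.inr hv)).trans ((hT.2 v hv w h).mono subset_union_right)

/-- A connected set with connected sets attached. -/
theorem Cn.attach {ι : Type} {W : ι → Set V} {p : ι → Prop} (hS : Cn G S)
    (hW : ∀ i, p i → Cn G (W i) ∧ (Tc G S (W i) ∨ (S ∩ W i).Nonempty)) :
    Cn G (S ∪ {v | ∃ i, p i ∧ v ∈ W i}) := by
  obtain ⟨u, hu⟩ := hS.1
  refine cn_of_root (Or.inl hu) fun v hv => hv.elim
    (fun h => (hS.2 u hu v h).mono subset_union_left) fun ⟨i, hi, h⟩ => ?_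
  have c : Cn G (S ∪ W i) := (hW i hi).2.elim (hS.union_tc (hW i hi).1)
    fun ⟨x, h1, h2⟩ => hS.union (hW i hi).1 h1 h2
  exact (c.2 u (Or.inl hu) v (Or.inr h)).mono
    (union_subset_union_right _ fun x hx => ⟨i, hi, hx⟩)

/-- Leaving a set. -/
theorem R.exit (h : R G S u v) (hu : u ∈ T) (hv : v ∉ T) :
    ∃ a b, R G (S ∩ T) u a ∧ G.Adj a b ∧ b ∈ S ∧ b ∉ T ∧ R G S b v := by
  have : R G (S ∩ T) u v ∨ ∃ a b, R G (S ∩ T) u a ∧ G.Adj a b ∧ b ∈ S ∧ b ∉ T ∧ R G S b v := by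
    refine h.ind (P := fun v => R G (S ∩ T) u v ∨
      ∃ a b, R G (S ∩ T) u a ∧ G.Adj a b ∧ b ∈ S ∧ b ∉ T ∧ R G S b v) (.inl (R.refl ⟨h.1, hu⟩)) ?_
    rintro a b _ (ih | ⟨x, y, h1, h2, h3, h4, h5⟩) ab hb
    · by_cases hT : b ∈ T
      · exact .inl (ih.tail ab ⟨hb, hT⟩)
      · exact .inr ⟨a, b, ih, ab, hb, hT, R.refl hb⟩
    · exact .inr ⟨x, y, h1, h2, h3, h4, h5.tail ab hb⟩
  exact this.resolve_left fun h => hv h.right.2

/-- The last visit to a set. -/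
theorem R.last (h : R G S u v) (hu : u ∈ T) (hv : v ∉ T) :
    ∃ a b, a ∈ S ∧ a ∈ T ∧ G.Adj a b ∧ R G (S \ T) b v := by
  obtain ⟨a, b, h1, h2, h3, h4, -⟩ := h.symm.exit (T := Tᶜ) hv (fun h => h hu)
  exact ⟨b, a, h3, not_not.1 h4, h2.symm, h1.symm⟩

theorem R.avoid (h : R G S u v) : R G (S \ T) u v ∨ ∃ c ∈ S ∩ T, R G S u c ∧ R G S c v := by
  by_cases hu : u ∈ T
  · exact .inr ⟨u, ⟨h.1, hu⟩, R.refl h.1, h⟩
  by_cases hv : v ∈ T
  · exact .inr ⟨v, ⟨h.right, hv⟩, h, R.refl h.right⟩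
  refine h.ind (P := fun a => R G (S \ T) u a ∨ ∃ c ∈ S ∩ T, R G S u c ∧ R G S c a)
    (.inl (R.refl ⟨h.1, hu⟩)) ?_
  rintro a b ha (ih | ⟨c, hc, h1, h2⟩) ab hb
  · by_cases hT : b ∈ T
    · exact .inr ⟨b, ⟨hb, hT⟩, ha.tail ab hb, R.refl hb⟩
    · exact .inl (ih.tail ab ⟨hb, hT⟩)
  · exact .inr ⟨c, hc, h1, h2.tail ab hb⟩

/-- In a connected set every other vertex is reached from a neighbour of `T`. -/
theorem Cn.tc_rc (hS : Cn G S) (hu : u ∈ S) (huT : u ∈ T) (hv : v ∈ S) (hvT : v ∉ T) :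
    Tc G (rc G (S \ T) {v}) (S ∩ T) := by
  obtain ⟨a, b, h1, h2, h3, h4⟩ := (hS.2 u hu v hv).last huT hvT
  exact ⟨b, mem_rc1.2 h4.symm, a, ⟨h1, h2⟩, h3.symm⟩

/-! Paths -/

theorem IsP.R {g : ℕ → V} {N a b : ℕ} (h : IsP G g N) (hb : b ≤ N) {i : ℕ} (hi : a ≤ i)
    (hi' : i ≤ b) : R G (g '' Icc a b) (g a) (g i) := by
  induction i, hi using Nat.le_induction with
  | base => exact R.refl ⟨a, ⟨le_rfl, hi'⟩, rfl⟩
  | succ i hi ih => exact (ih (by omega)).tail (h.2 i (by omega)) ⟨i + 1, ⟨by omega, hi'⟩, rfl⟩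

theorem IsP.cn {g : ℕ → V} {N a b : ℕ} (h : IsP G g N) (hab : a ≤ b) (hb : b ≤ N) :
    Cn G (g '' Icc a b) :=
  cn_of_root ⟨a, ⟨le_rfl, hab⟩, rfl⟩ fun _ ⟨_, hi, e⟩ => e ▸ h.R hb hi.1 hi.2

theorem R.path (h : R G S u v) : ∃ g N, IsP G g N ∧ g 0 = u ∧ g N = v ∧ g '' Iic N ⊆ S := by
  refine h.ind (P := fun v => ∃ g N, IsP G g N ∧ g 0 = u ∧ g N = v ∧ g '' Iic N ⊆ S)
    ⟨fun _ => u, 0, ⟨fun a ha b hb _ => by simp only [mem_Iic] at ha hb; omega,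
      fun i hi => by omega⟩, rfl, rfl, fun _ ⟨_, _, e⟩ => e ▸ h.1⟩ ?_
  rintro a b _ ⟨g, N, hp, h0, hN, hS⟩ ab hb
  by_cases hm : b ∈ g '' Iic N
  · obtain ⟨i, hi, rfl⟩ := hm
    exact ⟨g, i, ⟨hp.1.mono (Iic_subset_Iic.2 hi), fun j hj => hp.2 j (lt_of_lt_of_le hj hi)⟩, h0,
      rfl, (image_mono (Iic_subset_Iic.2 hi)).trans hS⟩
  · refine ⟨fun i => if i ≤ N then g i else b, N + 1, ⟨fun i hi j hj e => ?_, fun i hi => ?_⟩,
      by simp [h0], by simp, ?_⟩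
    · simp only [mem_Iic] at hi hj
      by_cases h1 : i ≤ N <;> by_cases h2 : j ≤ N <;> simp only [h1, h2, if_true, if_false] at e
      · exact hp.1 h1 h2 e
      · exact absurd ⟨i, h1, e⟩ hm
      · exact absurd ⟨j, h2, e.symm⟩ hm
      · omega
    · by_cases h1 : i + 1 ≤ N
      · simp only [h1, show i ≤ N by omega, if_true]; exact hp.2 i (by omega)
      · obtain rfl : i = N := by omega
        simp only [h1, le_refl, if_true, if_false, hN]; exact ab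
    · rintro _ ⟨i, -, rfl⟩
      by_cases h1 : i ≤ N
      · simp only [h1, if_true]; exact hS ⟨i, h1, rfl⟩
      · simp only [h1, if_false]; exact hb

theorem PS.cn (h : PS G S) : Cn G S := by
  obtain ⟨g, N, hp, rfl⟩ := h
  have := hp.cn (Nat.zero_le N) le_rfl
  rwa [show Icc 0 N = Iic N by ext; simp] at this

theorem R.ps (h : R G S u v) : ∃ P, PS G P ∧ P ⊆ S ∧ u ∈ P ∧ v ∈ P := by
  obtain ⟨g, N, hp, h0, hN, hS⟩ := h.path
  exact ⟨_, ⟨g, N, hp, rfl⟩, hS, ⟨0, Nat.zero_le N, h0⟩, ⟨N, mem_Iic.2 le_rfl, hN⟩⟩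

/-- A thin connected set between `u` and `v`. -/
theorem R.thin (h : R G S u v) : ∃ P, Cn G P ∧ P ⊆ S ∧ u ∈ P ∧ v ∈ P ∧
    ∀ c, ∀ a ∈ P \ {c}, R G (P \ {c}) u a ∨ R G (P \ {c}) v a := by
  obtain ⟨g, N, hp, rfl, rfl, hS⟩ := h.path
  refine ⟨_, PS.cn ⟨g, N, hp, rfl⟩, hS, ⟨0, Nat.zero_le N, rfl⟩, ⟨N, mem_Iic.2 le_rfl, rfl⟩,
    ?_⟩
  rintro c _ ⟨⟨i, hi, rfl⟩, hc⟩
  by_cases h1 : c ∈ g '' Icc 0 i
  · obtain ⟨j, hj, rfl⟩ := h1
    have hji : j < i := lt_of_le_of_ne hj.2 fun e => hc (e ▸ rfl)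
    refine .inr ((hp.cn hi le_rfl).2 _ ⟨N, ⟨hi, le_rfl⟩, rfl⟩ _ ⟨i, ⟨le_rfl, hi⟩, rfl⟩ |>.mono ?_)
    rintro _ ⟨l, hl, rfl⟩
    refine ⟨⟨l, hl.2, rfl⟩, fun e => ?_⟩
    have := hp.1 hl.2 (show j ≤ N from hj.2.trans hi) e
    have := hl.1
    omega
  · refine .inl ((hp.R hi (Nat.zero_le i) le_rfl).mono ?_)
    rintro _ ⟨l, hl, rfl⟩
    exact ⟨⟨l, hl.2.trans hi, rfl⟩, fun e => h1 ⟨l, hl, e⟩⟩

/-- `k` distinct points of a set with at most `k` points fill it. -/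
theorem cover {k : ℕ} {p : Fin k → V} {P : Set V} (hf : P.Finite) (hi : Injective p)
    (hp : ∀ i, p i ∈ P) (hk : P.ncard ≤ k) : range p = P := by
  refine Set.eq_of_subset_of_ncard_le (range_subset_iff.2 hp) ?_ hf
  rw [Set.ncard_range_of_injective hi]
  simpa using hk

theorem inj_of_dis {ι : Type} {p : ι → V} {Q : ι → Set V} (hp : ∀ i, p i ∈ Q i)
    (hd : ∀ i j, i ≠ j → Disjoint (Q i) (Q j)) : Injective p := fun i j e => by
  by_contra h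
  exact Set.disjoint_left.1 (hd i j h) (hp i) (e ▸ hp j)

theorem eq_of_dis {ι : Type} {Q : ι → Set V} (hd : ∀ i j, i ≠ j → Disjoint (Q i) (Q j)) {i j : ι}
    (hi : u ∈ Q i) (hj : u ∈ Q j) : i = j := by
  by_contra h
  exact Set.disjoint_left.1 (hd i j h) hi hj

theorem En.card {k : ℕ} {x : Fin k → V} {X : Set V} (h : En x X) : X.ncard = k := by
  rw [← h.2, Set.ncard_range_of_injective h.1]; simp

theorem En.mem {k : ℕ} {x : Fin k → V} {X : Set V} (h : En x X) (j : Fin k) : x j ∈ X :=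
  h.2 ▸ mem_range_self j

theorem En.ex {k : ℕ} {x : Fin k → V} {X : Set V} (h : En x X) (hv : v ∈ X) : ∃ j, x j = v := by
  rw [← h.2] at hv; exact hv

theorem exists_en {X : Set V} (h : X.Finite) : ∃ x : Fin X.ncard → V, En x X := by
  obtain ⟨n, f, hf, rfl⟩ := h.fin_param
  have : (range f).ncard = n := by rw [Set.ncard_range_of_injective hf]; simp
  rw [this]
  exact ⟨f, hf, rfl⟩

theorem cn_iff : (G.induce S).Connected ↔ Cn G S := by
  constructor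
  · intro h
    obtain ⟨⟨u, hu⟩⟩ := h.nonempty
    refine ⟨⟨u, hu⟩, fun a ha b hb => ?_⟩
    have := (SimpleGraph.reachable_iff_reflTransGen _ _).1 (h.preconnected ⟨a, ha⟩ ⟨b, hb⟩)
    suffices ∀ y : S, Relation.ReflTransGen (G.induce S).Adj ⟨a, ha⟩ y → R G S a y from this _ ‹_›
    intro y hy
    induction hy with
    | refl => exact R.refl ha
    | tail _ h ih => exact ih.tail h (Subtype.property _)
  · intro h
    obtain ⟨u, hu⟩ := h.1
    have : Nonempty S := ⟨⟨u, hu⟩⟩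
    refine ⟨fun a b => ?_⟩
    have := (h.2 a a.2 b b.2).ind (P := fun v => ∀ hv : v ∈ S, (G.induce S).Reachable a ⟨v, hv⟩)
      (fun _ => .refl _) fun x y hx ih xy hy _ =>
        (ih hx.right).trans (SimpleGraph.Adj.reachable (show (G.induce S).Adj ⟨x, _⟩ ⟨y, _⟩ from xy))
    exact this b.2

end Pool.Agent.Lib.IM
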