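import Pool.Agent.Lib.IM.Defs

/-! Blueprint. -/

open Set Function

namespace Pool.Agent.Lib.IM

open Pool.Agent.Lib.NC4b

/-- Menger's theorem. -/
def St_MEN : Prop := ∀ (V : Type) [Finite V] (G : SimpleGraph V) (S A B : Set V) (k : ℕ),
  (∀ Y, Y ⊆ S → Sp G S A B Y → k ≤ Y.ncard) → ∃ Q : Fin k → Set V,
    (∀ i, Cn G (Q i) ∧ Q i ⊆ S ∧ (Q i ∩ A).Nonempty ∧ (Q i ∩ B).Nonempty) ∧
    ∀ i j, i ≠ j → Disjoint (Q i) (Q j)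

/-- Contact lemma. -/
def St_CON : Prop := ∀ n : ℕ, ∃ M : ℕ, ∀ (V : Type) (G : SimpleGraph V) (a b C H : Set V)
  (P : Fin M → Set V), Cn G a → Cn G b → Disjoint a b → Disjoint a C → Disjoint b C → PS G H →
  H ⊆ C → (∀ i, PS G (P i) ∧ P i ⊆ C ∧ Tc G (P i) a ∧ Tc G (P i) b ∧ (P i ∩ H).Nonempty) →
  (∀ i j, i ≠ j → Disjoint (P i) (P j)) → Mn G EA (n + 2)

/-- Many hubs joined in pairs by many paths. -/
def St_KR : Prop := ∀ n : ℕ, ∃ L : ℕ, 0 < L ∧ ∀ (V : Type) (G : SimpleGraph V) (C : Set V)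
  (I : Fin (n + 2) → Set V), (∀ i, Cn G (I i) ∧ Disjoint (I i) C) →
  (∀ i j, i ≠ j → Disjoint (I i) (I j)) → (∀ i j, i ≠ j → ∃ P : Fin L → Set V,
    (∀ s, Cn G (P s) ∧ P s ⊆ C ∧ Tc G (P s) (I i) ∧ Tc G (P s) (I j)) ∧
    ∀ s t, s ≠ t → Disjoint (P s) (P t)) → Mn G EA (n + 2)

/-- Bounded width without a large double fan. -/
def St_DEC : Prop := ∀ n : ℕ, ∃ w : ℕ, ∀ (V : Type) [Finite V] (G : SimpleGraph V),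
  ¬ Mn G EA (n + 2) → ∃ T : Tr (Sym2 V), T.set = hy G ∧ T.Ok fun Z => (bd G Z).ncard ≤ w

/-- The connectivity function is submodular; cuts between nested sets. -/
structure St_SUB : Prop where
  sub : ∀ {V : Type} [Finite V] (G : SimpleGraph V) (Z W : Set (Sym2 V)),
    lam G (Z ∩ W) + lam G (Z ∪ W) ≤ lam G Z + lam G W
  le : ∀ {V : Type} [Finite V] (G : SimpleGraph V) (X Y : Set V), ord G X ≤ ord G Y ↔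
    X.ncard < Y.ncard ∨ (X.ncard = Y.ncard ∧ ed G Y ≤ ed G X)
  cut : ∀ {V : Type} [Finite V] (G : SimpleGraph V) (Z' Z : Set (Sym2 V)) (Y : Set V), Z' ⊆ Z →
    Sp G (vs G Z \ (vs G Z' \ bd G Z')) (bd G Z) (bd G Z') Y →
    ∃ A, Z' ⊆ A ∧ A ⊆ Z ∧ bd G A ⊆ Y

/-- Linked trees exist. -/
def St_LNK : Prop := ∀ (α : Type) (f : Set α → ℕ) (c : ℕ) (T : Tr α),
  (∀ Z W, f (Z ∩ W) + f (Z ∪ W) ≤ f Z + f W) → (∀ Z, f Zᶜ = f Z) → T.Ok (fun Z => f Z ≤ c) →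
  ∃ T' : Tr α, T'.set = T.set ∧ T'.Ok (fun Z => f Z ≤ c) ∧ T'.Lnk f

/-- The lemma on rooted trees. -/
def St_GAP : Prop := ∀ (N : Type) (ch r : N → N → Prop) (sz ψ : N → ℕ) (L : ℕ),
  (∀ a b c, r a b → r b c → r a c) → (∀ f e, ch e f → sz f < sz e) → (∀ e, ψ e < L) →
  (∀ e f, Relation.ReflTransGen (fun a b => ch a b ∧ ψ e ≤ ψ b) e f → ψ f = ψ e → r f e) →
  (∀ S : Set N, {f | ∃ e ∈ S, ch e f}.PartiallyWellOrderedOn r → S.PartiallyWellOrderedOn r) →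
  (univ : Set N).PartiallyWellOrderedOn r

/-- One rail. -/
def St_L1 : Prop := ∀ (V : Type) [Finite V] (G : SimpleGraph V) (K N : Set V) (x x' : V),
  R G K x x' → R G (K \ N) x x' ∨ (∃ c ∈ K ∩ N, ¬ R G (K \ {c}) x x') ∨ Blk G K N x x'

/-- Two rails. -/
def St_L2 : Prop := ∀ (V : Type) [Finite V] (G : SimpleGraph V) (K P P' : Set V) (x x' y y' : V),
  Cn G P → Cn G P' → P ⊆ K → P' ⊆ K → Disjoint P P' → x ∈ P → x' ∈ P → y ∈ P' → y' ∈ P' →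
  (∃ u ∈ K, ∃ v ∈ K, G.Adj u v ∧ Sp G K {x, y} {x', y'} {u, v}) ∨
  ∃ S S', Cn G S ∧ Cn G S' ∧ S ⊆ K ∧ S' ⊆ K ∧ Disjoint S S' ∧ x ∈ S ∧ x' ∈ S ∧ y ∈ S' ∧ y' ∈ S' ∧
    (¬ Tc G S S' ∨ Crs G S S' x x' y y' ∨ Blk G S (nb G S') x x' ∨ Blk G S' (nb G S) y y')

/-- A tight segment can be skipped or holds a gadget. -/
def St_SEG : Prop := ∀ (V : Type) [Finite V] (G : SimpleGraph V) (H X X' : Set V) (k : ℕ)
  (x : Fin k → V), En x X → X ⊆ H → X' ⊆ H → X'.ncard = k →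
  (∀ Y, Y ⊆ H → Sp G H X X' Y → k ≤ Y.ncard ∧ (Y.ncard = k → ed G Y ≤ ed G X')) →
  ∃ x' Q, En x' X' ∧ Lk G H x x' Q ∧ (Clean G x' Q ∨ Gad G x x' Q)

/-- A long chain of gadgets. -/
def St_CH : Prop := ∀ n k : ℕ, ∃ r : ℕ, ∀ (V : Type) (G : SimpleGraph V) (B I : ℕ → Set V)
  (x₀ : Fin k → V), (∀ i, I i ⊆ B i ∧ B (i + 1) ⊆ B i ∧ I (i + 1) ⊆ I i) → En x₀ (B 0 \ I 0) →
  (∀ i < r, ∀ x : Fin k → V, En x (B i \ I i) → ∃ x' Q, En x' (B (i + 1) \ I (i + 1)) ∧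
    Lk G (B i \ I (i + 1)) x x' Q ∧ Gad G x x' Q) →
  Mn G EA (n + 2) ∨ Mn G EB (2 * n) ∨ Mn G EC (3 * n + 2)

/-- The rooted order. -/
structure St_RO : Prop where
  refl : ∀ a : RG, a.le a
  trans : ∀ a b c : RG, a.le b → b.le c → a.le c
  skip : ∀ (n : ℕ) (G : SimpleGraph (Fin n)) (B X B' X' : Set (Fin n)) (k : ℕ)
    (x x' : Fin k → Fin n) Q, En x X → En x' X' → X' ⊆ B' → B' ⊆ B →
    (∀ u ∈ B' \ X', ∀ v, G.Adj u v → v ∈ B') → Lk G (B \ (B' \ X')) x x' Q → Clean G x' Q →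
    RG.le ⟨n, G, B', X'⟩ ⟨n, G, B, X⟩

/-- From the children to the parents. -/
def St_LIFT : Prop := ∀ (w : ℕ) (S T : Set RG), T.PartiallyWellOrderedOn RG.le →
  (∀ a ∈ S, (a.B.ncard ≤ w ∧ a.X ⊆ a.B) ∨ ∃ B₁ X₁ B₂ X₂, (⟨a.n, a.G, B₁, X₁⟩ : RG) ∈ T ∧
    (⟨a.n, a.G, B₂, X₂⟩ : RG) ∈ T ∧ Split a.G a.B a.X B₁ X₁ B₂ X₂ ∧ X₁.ncard ≤ w ∧ X₂.ncard ≤ w) →
  S.PartiallyWellOrderedOn RG.le

/-- The well-quasi-order theorem. -/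
def St_WQO : Prop := ∀ (n : ℕ) (g : ℕ → FinGraph), (∀ i, ¬ Mn (g i).2 EA (n + 2) ∧
  ¬ Mn (g i).2 EB (2 * n) ∧ ¬ Mn (g i).2 EC (3 * n + 2)) → ∃ i j, i < j ∧ IndMinor (g i) (g j)

/-- A bad sequence below the family `Γ`. -/
def Anti (Γ : ℕ → FinGraph) : Prop := ∃ g : ℕ → FinGraph,
  (∀ i, ∃ m, ∀ n, m ≤ n → Minor (g i) (Γ n)) ∧ ∀ i j, i < j → ¬ IndMinor (g i) (g j)

end Pool.Agent.Lib.IM
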