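import Pool.Agent.Lib.IM.L1

/-! A long chain of gadgets. -/

open Set Function

namespace Pool.Agent.Lib.IM

variable {V : Type} {G : SimpleGraph V} {U U' H : Set V} {k : ℕ} {x x' : Fin k → V}
  {Q : Fin k → Set V}

/-- A model with open ends. -/
def PM (G : SimpleGraph V) (U : Set V) (x : Fin k → V) (m : ℕ) (E : ℕ → ℕ → Prop)
    (rt : ℕ → Fin k → Prop) : Prop := ∃ φ : ℕ → Set V, (∀ w < m, Cn G (φ w) ∧ φ w ⊆ U) ∧
  (∀ i < m, ∀ j < m, i ≠ j → Disjoint (φ i) (φ j)) ∧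
  (∀ i < m, ∀ j < m, i ≠ j → E i j → Tc G (φ i) (φ j)) ∧ ∀ w < m, ∀ j, x j ∈ φ w ↔ rt w j

/-- The position of a segment. -/
structure Pos (U U' H : Set V) (x x' : Fin k → V) : Prop where
  uu : U ⊆ U'
  hu : H ⊆ U'
  int : U ∩ H ⊆ range x

theorem PM.step {m m' E E' rt} {rt' : ℕ → Fin k → Prop} (h : PM G U x m E rt)
    (p : Pos U U' H x x') (ψ : ℕ → Set V) (hx' : ∀ j, x' j ∈ H)
    (c : ∀ w < m', (w < m ∧ ψ w = ∅) ∨ (Cn G (ψ w) ∧ (w < m → ∃ j, rt w j)))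
    (s : ∀ w < m', ψ w ⊆ H) (d : ∀ i < m', ∀ j < m', i ≠ j → Disjoint (ψ i) (ψ j)) (mm : m ≤ m')
    (r : ∀ w < m', ∀ j, x j ∈ ψ w ↔ w < m ∧ rt w j) (r' : ∀ w < m', ∀ j, x' j ∈ ψ w ↔ rt' w j)
    (e : ∀ i < m', ∀ j < m', i ≠ j → E' i j → (i < m ∧ j < m ∧ E i j) ∨ Tc G (ψ i) (ψ j)) :
    PM G U' x' m' E' rt' := by
  obtain ⟨φ, h1, h2, h3, h4⟩ := h
  have key : ∀ w < m, ∀ v ∈ φ w, v ∈ H → v ∈ ψ w := fun w hw v k1 k2 => by
    obtain ⟨j, rfl⟩ := p.int ⟨(h1 w hw).2 k1, k2⟩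
    exact (r w (by omega) j).2 ⟨hw, (h4 w hw j).1 k1⟩
  refine ⟨fun w => {v | w < m ∧ v ∈ φ w} ∪ ψ w, fun w hw => ⟨?_, ?_⟩, fun i hi j hj ij => ?_,
    fun i hi j hj ij k => ?_, fun w hw j => ⟨?_, fun k => .inr ((r' w hw j).2 k)⟩⟩
  · show Cn G ({v | w < m ∧ v ∈ φ w} ∪ ψ w)
    by_cases k : w < m
    · have e1 : {v | w < m ∧ v ∈ φ w} = φ w := by ext; simp [k]
      rw [e1]
      rcases c w hw with ⟨-, k1⟩ | ⟨k1, k2⟩
      · rw [k1, union_empty]; exact (h1 w k).1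
      · obtain ⟨j, hj⟩ := k2 k
        exact (h1 w k).1.union k1 ((h4 w k j).2 hj) ((r w hw j).2 ⟨k, hj⟩)
    · have e1 : {v | w < m ∧ v ∈ φ w} = ∅ := by ext; simp [k]
      rw [e1, empty_union]
      exact ((c w hw).resolve_left fun k1 => k k1.1).1
  · exact union_subset (fun v k => p.uu ((h1 w k.1).2 k.2)) ((s w hw).trans p.hu)
  · rw [Set.disjoint_left]
    rintro v (k1 | k1) (k2 | k2)
    · exact Set.disjoint_left.1 (h2 i k1.1 j k2.1 ij) k1.2 k2.2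
    · exact Set.disjoint_left.1 (d i hi j hj ij) (key i k1.1 v k1.2 (s j hj k2)) k2
    · exact Set.disjoint_left.1 (d i hi j hj ij) k1 (key j k2.1 v k2.2 (s i hi k1))
    · exact Set.disjoint_left.1 (d i hi j hj ij) k1 k2
  · rcases e i hi j hj ij k with ⟨k1, k2, k3⟩ | k1
    · exact (h3 i k1 j k2 ij k3).mono (fun _ k => .inl ⟨k1, k⟩) fun _ k => .inl ⟨k2, k⟩
    · exact k1.mono subset_union_right subset_union_right
  · rintro (k | k)
    · exact (r' w hw j).1 (key w k.1 _ k.2 (hx' j))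
    · exact (r' w hw j).1 k

theorem Lk.l_iff (h : Lk G H x x' Q) {i j : Fin k} : x i ∈ Q j ↔ i = j :=
  ⟨eq_of_dis h.dis (h.l i), fun e => e ▸ h.l i⟩

theorem Lk.r_iff (h : Lk G H x x' Q) {i j : Fin k} : x' i ∈ Q j ↔ i = j :=
  ⟨eq_of_dis h.dis (h.r i), fun e => e ▸ h.r i⟩

theorem PM.stay {m E E'} {rt : ℕ → Fin k → Prop} (h : PM G U x m E rt) (p : Pos U U' H x x')
    (l : Lk G H x x' Q) (f : ∀ w j j', rt w j → rt w j' → j = j')
    (f' : ∀ w w' j, rt w j → rt w' j → w = w')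
    (e : ∀ i j, E' i j → E i j ∨ ∃ a b, rt i a ∧ rt j b ∧ Tc G (Q a) (Q b)) :
    PM G U' x' m E' rt := by
  refine h.step p (fun w => {v | ∃ j, rt w j ∧ v ∈ Q j}) (fun j => l.sub j (l.r j)) (fun w hw => ?_)
    (fun w _ v ⟨j, _, k⟩ => l.sub j k) (fun i _ j _ ij => Set.disjoint_left.2 ?_) le_rfl
    (fun w hw j => ⟨fun ⟨a, k1, k2⟩ => ⟨hw, l.l_iff.1 k2 ▸ k1⟩, fun k => ⟨j, k.2, l.l j⟩⟩)
    (fun w hw j => ⟨fun ⟨a, k1, k2⟩ => l.r_iff.1 k2 ▸ k1, fun k => ⟨j, k, l.r j⟩⟩)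
    fun i hi j hj _ k => (e i j k).imp (fun k => ⟨hi, hj, k⟩) fun ⟨a, b, k1, k2, k3⟩ =>
      k3.mono (fun _ k => ⟨a, k1, k⟩) fun _ k => ⟨b, k2, k⟩
  · by_cases k : ∃ j, rt w j
    · obtain ⟨j, hj⟩ := k
      have : {v | ∃ j, rt w j ∧ v ∈ Q j} = Q j :=
        Subset.antisymm (fun v ⟨a, k1, k2⟩ => f w a j k1 hj ▸ k2) fun v k => ⟨j, hj, k⟩
      exact .inr ⟨this ▸ l.cn j, fun _ => ⟨j, hj⟩⟩
    · exact .inl ⟨hw, eq_empty_of_forall_notMem fun v ⟨j, k1, _⟩ => k ⟨j, k1⟩⟩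
  · rintro v ⟨a, k1, k2⟩ ⟨b, k3, k4⟩
    exact ij (f' _ _ a k1 (eq_of_dis l.dis k4 k2 ▸ k3))

theorem PM.init {m E} {rt : ℕ → Fin k → Prop} (hx : Injective x) (hU : ∀ j, x j ∈ U)
    (ρ : ℕ → Fin k) (h1 : ∀ w < m, ∀ j, j = ρ w ↔ rt w j)
    (h2 : ∀ i < m, ∀ j < m, i ≠ j → ρ i ≠ ρ j ∧ ¬ E i j) : PM G U x m E rt :=
  ⟨fun w => {x (ρ w)}, fun _ _ => ⟨cn_single _, singleton_subset_iff.2 (hU _)⟩,
    fun i hi j hj ij => disjoint_singleton.2 (hx.ne (h2 i hi j hj ij).1),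
    fun i hi j hj ij k => absurd k (h2 i hi j hj ij).2,
    fun w hw j => hx.eq_iff.trans (h1 w hw j)⟩

theorem PM.mn {m m' E E'} {rt : ℕ → Fin k → Prop} (h : PM G U x m E rt) (mm : m' ≤ m)
    (e : ∀ i < m', ∀ j < m', E' i j → E i j) : Mn G E' m' := by
  obtain ⟨φ, h1, h2, h3, -⟩ := h
  exact ⟨φ, fun i hi => (h1 i (by omega)).1, fun i hi j hj => h2 i (by omega) j (by omega),
    fun i hi j hj ij k => h3 i (by omega) j (by omega) ij (e i hi j hj k)⟩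

theorem Cn.split {S : Set V} {u v : V} (h : Cn G S) (hu : u ∈ S) (hv : v ∈ S) (uv : u ≠ v) :
    ∃ y y', Cn G y ∧ Cn G y' ∧ y ⊆ S ∧ y' ⊆ S ∧ Disjoint y y' ∧ Tc G y y' ∧ u ∈ y ∧ v ∈ y' :=
  ⟨rc G (S \ {v}) {u}, {v}, cn_rc1 ⟨hu, uv⟩, cn_single v, fun _ k => (rc_sub k).1,
    singleton_subset_iff.2 hv, disjoint_singleton_right.2 fun k => (rc_sub k).2 rfl,
    tc_side (h.2 u hu v hv) uv, rc_self rfl ⟨hu, uv⟩, rfl⟩

/-- A step described by a finite list of pieces, each inside one rail. -/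
theorem PM.list {m m' E E'} {rt rt' : ℕ → Fin k → Prop} (h : PM G U x m E rt)
    (p : Pos U U' H x x') (l : Lk G H x x' Q) {ι : Type} (w : ι → ℕ) (ρ : ι → Fin k)
    (S : ι → Set V) (hw : Injective w) (c : ∀ i, Cn G (S i) ∧ S i ⊆ Q (ρ i))
    (d : ∀ i j, i ≠ j → ρ i ≠ ρ j ∨ Disjoint (S i) (S j)) (mm : m ≤ m')
    (new : ∀ u, m ≤ u → u < m' → ∃ i, w i = u)
    (o : ∀ i, w i < m → x (ρ i) ∈ S i) (o' : ∀ i, m ≤ w i → x (ρ i) ∉ S i)
    (r : ∀ u j, rt u j ↔ ∃ i, w i = u ∧ ρ i = j ∧ u < m)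
    (r' : ∀ u j, rt' u j ↔ ∃ i, w i = u ∧ ρ i = j ∧ x' j ∈ S i)
    (e : ∀ u < m', ∀ v < m', u ≠ v → E' u v → (u < m ∧ v < m ∧ E u v) ∨
      ∃ i j, w i = u ∧ w j = v ∧ Tc G (S i) (S j)) : PM G U' x' m' E' rt' := by
  refine h.step p (fun u => {v | ∃ i, w i = u ∧ v ∈ S i}) (fun j => l.sub j (l.r j))
    (fun u hu => ?_) (fun u _ v ⟨i, _, k⟩ => l.sub _ ((c i).2 k))
    (fun u _ u' _ uu => Set.disjoint_left.2 ?_) mm (fun u hu j => ⟨?_, ?_⟩) (fun u hu j => ⟨?_, ?_⟩)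
    fun u hu v hv uv k => (e u hu v hv uv k).imp_right fun ⟨i, j, k1, k2, k3⟩ =>
      k3.mono (fun _ k => ⟨i, k1, k⟩) fun _ k => ⟨j, k2, k⟩
  · by_cases k : ∃ i, w i = u
    · obtain ⟨i, rfl⟩ := k
      have : {v | ∃ j, w j = w i ∧ v ∈ S j} = S i :=
        Subset.antisymm (fun v ⟨a, k1, k2⟩ => hw k1 ▸ k2) fun v k => ⟨i, rfl, k⟩
      exact .inr ⟨this ▸ (c i).1, fun k => ⟨ρ i, (r _ _).2 ⟨i, rfl, rfl, k⟩⟩⟩
    · exact .inl ⟨by_contra fun k' => k (new u (by omega) hu),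
        eq_empty_of_forall_notMem fun v ⟨j, k1, _⟩ => k ⟨j, k1⟩⟩
  · rintro v ⟨a, rfl, k2⟩ ⟨b, rfl, k4⟩
    rcases d a b (fun e => uu (e ▸ rfl)) with k | k
    · exact k (eq_of_dis l.dis ((c a).2 k2) ((c b).2 k4))
    · exact Set.disjoint_left.1 k k2 k4
  · rintro ⟨i, rfl, k⟩
    obtain rfl := l.l_iff.1 ((c i).2 k)
    have : w i < m := by_contra fun k' => o' i (by omega) k
    exact ⟨this, (r _ _).2 ⟨i, rfl, rfl, this⟩⟩
  · rintro ⟨k1, k2⟩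
    obtain ⟨i, rfl, rfl, -⟩ := (r _ _).1 k2
    exact ⟨i, rfl, o i k1⟩
  · rintro ⟨i, rfl, k⟩
    exact (r' _ _).2 ⟨i, rfl, (l.r_iff.1 ((c i).2 k)).symm, k⟩
  · intro k
    obtain ⟨i, k1, -, k3⟩ := (r' _ _).1 k
    exact ⟨i, k1, k3⟩

/-- Gadget types. -/
abbrev Ty (k : ℕ) : Type := (Fin k × Fin k × Fin k) ⊕ (Fin k × Fin k) ⊕ (Fin k × Fin k)

/-- Admissible types. -/
def Val : Ty k → Prop
  | .inl (j, a, b) => j ≠ a ∧ j ≠ b ∧ a ≠ b
  | .inr (.inl (j, a)) => j ≠ a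
  | .inr (.inr (j, a)) => j ≠ a

/-- A gadget of a given type. -/
def GdT (G : SimpleGraph V) (x x' : Fin k → V) (Q : Fin k → Set V) : Ty k → Prop
  | .inl (j, a, b) => x j ≠ x' j ∧ Tc G (Q j) (Q a) ∧ Tc G (Q j) (Q b)
  | .inr (.inl (j, a)) => Crs G (Q j) (Q a) (x j) (x' j) (x a) (x' a)
  | .inr (.inr (j, a)) => Blk G (Q j) (nb G (Q a)) (x j) (x' j)

/-- The edges of the double fan after `c` gadgets. -/
def EAc (c u v : ℕ) : Prop := (u ≤ 1 ∧ 2 ≤ v ∧ 2 * (v - 2) < c) ∨ (2 ≤ u ∧ v = u + 1)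

/-- The state after `c` gadgets. -/
def StT (G : SimpleGraph V) (U : Set V) (x : Fin k → V) (c : ℕ) : Ty k → Prop
  | .inl (j, a, b) => PM G U x (3 + c / 2) (EAc c)
      fun w i => (w = 0 ∧ i = a) ∨ (w = 1 ∧ i = b) ∨ (w = 2 + c / 2 ∧ i = j)
  | .inr (.inl (j, a)) => PM G U x (2 * c + 2) EB
      fun w i => (w = 2 * c ∧ i = j) ∨ (w = 2 * c + 1 ∧ i = a)
  | .inr (.inr (j, a)) => PM G U x (3 * c + 2) EC
      fun w i => (w = 0 ∧ i = a) ∨ (w = 3 * c + 1 ∧ i = j)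

theorem st_init (hx : Injective x) (hU : ∀ j, x j ∈ U) (τ : Ty k) (v : Val τ) : StT G U x 0 τ := by
  rcases τ with ⟨j, a, b⟩ | ⟨j, a⟩ | ⟨j, a⟩
  · obtain ⟨v1, v2, v3⟩ := v
    refine PM.init hx hU (fun w => if w = 0 then a else if w = 1 then b else j) (fun w hw i => ?_)
      fun u hu w hw uw => ⟨?_, by unfold EAc; omega⟩
    · interval_cases w <;> simp
    · interval_cases u <;> interval_cases w <;> simp_all [eq_comm]
  · have v1 : j ≠ a := v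
    refine PM.init hx hU (fun w => if w = 0 then j else a) (fun w hw i => ?_)
      fun u hu w hw uw => ⟨?_, by unfold EB; omega⟩
    · interval_cases w <;> simp
    · interval_cases u <;> interval_cases w <;> simp_all [eq_comm]
  · have v1 : j ≠ a := v
    refine PM.init hx hU (fun w => if w = 0 then a else j) (fun w hw i => ?_)
      fun u hu w hw uw => ⟨?_, by unfold EC; omega⟩
    · interval_cases w <;> simp
    · interval_cases u <;> interval_cases w <;> simp_all [eq_comm]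

theorem st_stay {c : ℕ} (p : Pos U U' H x x') (l : Lk G H x x' Q) (τ : Ty k) (v : Val τ)
    (h : StT G U x c τ) : StT G U' x' c τ := by
  rcases τ with ⟨j, a, b⟩ | ⟨j, a⟩ | ⟨j, a⟩
  · obtain ⟨v1, v2, v3⟩ := v
    exact PM.stay h p l (by grind) (by grind) fun _ _ k => .inl k
  · have v1 : j ≠ a := v
    exact PM.stay h p l (by grind) (by grind) fun _ _ k => .inl k
  · have v1 : j ≠ a := v
    exact PM.stay h p l (by grind) (by grind) fun _ _ k => .inl k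

theorem st_up {c : ℕ} (p : Pos U U' H x x') (l : Lk G H x x' Q) (τ : Ty k) (v : Val τ)
    (g : GdT G x x' Q τ) (h : StT G U x c τ) : StT G U' x' (c + 1) τ := by
  rcases τ with ⟨j, a, b⟩ | ⟨j, a⟩ | ⟨j, a⟩
  · obtain ⟨v1, v2, v3⟩ := v
    obtain ⟨g1, g2, g3⟩ := g
    unfold StT at h ⊢
    rcases Nat.even_or_odd' c with ⟨t, rfl | rfl⟩
    · have e1 : (2 * t + 1) / 2 = 2 * t / 2 := by omega
      rw [e1]
      refine PM.stay h p l (by grind) (by grind) fun u w k => ?_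
      by_cases k1 : EAc (2 * t) u w
      · exact .inl k1
      · unfold EAc at k k1
        have k2 : w = 2 + 2 * t / 2 := by omega
        rcases (by omega : u = 0 ∨ u = 1) with k3 | k3
        · exact .inr ⟨a, j, .inl ⟨k3, rfl⟩, .inr (.inr ⟨k2, rfl⟩), g2.symm⟩
        · exact .inr ⟨b, j, .inr (.inl ⟨k3, rfl⟩), .inr (.inr ⟨k2, rfl⟩), g3.symm⟩
    · obtain ⟨y, y', c1, c2, s1, s2, d, t1, m1, m2⟩ := (l.cn j).split (l.l j) (l.r j) g1
      have n1 := Set.disjoint_left.1 d m1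
      have n2 := Set.disjoint_right.1 d m2
      have e1 : (2 * t + 1) / 2 = t := by omega
      have e2 : (2 * t + 1 + 1) / 2 = t + 1 := by omega
      rw [e1] at h
      rw [e2]
      refine PM.list h p l ![0, 1, 2 + t, 3 + t] ![a, b, j, j] ![Q a, Q b, y, y'] ?_ ?_ ?_
        (by omega) (fun u h1 h2 => ⟨3, by simp; omega⟩) ?_ ?_ ?_ ?_ fun u hu w hw uw k => ?_
      · intro i i'; fin_cases i <;> fin_cases i' <;> simp <;> omega
      · intro i; fin_cases i <;> simp [l.cn, *]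
      · intro i i'; fin_cases i <;> fin_cases i' <;> simp [d.symm, v1.symm, v2.symm, v3.symm, *]
      · intro i; fin_cases i <;> simp [l.l, *]
      · intro i; fin_cases i <;> simp [*]; omega
      · intro u i; simp [Fin.exists_fin_succ]; grind
      · intro u i; simp [Fin.exists_fin_succ, l.r_iff]; grind
      · unfold EAc at k ⊢
        by_cases k1 : w = 3 + t
        · exact .inr ⟨2, 3, by simp; omega, by simp; omega, t1⟩
        · exact .inl (by omega)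
  · have v1 : j ≠ a := v
    obtain ⟨s, s', t, t', ⟨c1, c2, c3, c4⟩, ⟨s1, s2, s3, s4⟩, ⟨d1, d2⟩, ⟨t1, t2, t3, t4⟩, m1, m2, m3,
      m4⟩ := g
    have n1 := Set.disjoint_left.1 d1 m1
    have n2 := Set.disjoint_right.1 d1 m2
    have n3 := Set.disjoint_left.1 d2 m3
    have n4 := Set.disjoint_right.1 d2 m4
    refine PM.list h p l ![2 * c, 2 * c + 1, 2 * c + 2, 2 * c + 3] ![j, a, j, a] ![s, t, s', t'] ?_
      ?_ ?_ (by omega) (fun u h1 h2 => ?_) ?_ ?_ ?_ ?_ fun u hu w hw uw k => ?_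
    · intro i i'; fin_cases i <;> fin_cases i' <;> simp
    · intro i; fin_cases i <;> simp [*]
    · intro i i'; fin_cases i <;> fin_cases i' <;> simp [d1.symm, d2.symm, v1.symm, *]
    · simp [Fin.exists_fin_succ]; omega
    · intro i; fin_cases i <;> simp [*]
    · intro i; fin_cases i <;> simp [*]
    · intro u i; simp [Fin.exists_fin_succ]; grind
    · intro u i; simp [Fin.exists_fin_succ]; grind
    · unfold EB at k ⊢
      by_cases k1 : w < 2 * c + 2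
      · exact .inl (by omega)
      rcases (by omega : (u = 2 * c ∨ u = 2 * c + 1) ∧ (w = 2 * c + 2 ∨ w = 2 * c + 3)) with
        ⟨rfl | rfl, rfl | rfl⟩
      · exact .inr ⟨0, 2, rfl, rfl, t1⟩
      · exact .inr ⟨0, 3, rfl, rfl, t2⟩
      · exact .inr ⟨1, 2, rfl, rfl, t3⟩
      · exact .inr ⟨1, 3, rfl, rfl, t4⟩
  · have v1 : j ≠ a := v
    obtain ⟨s, z, z', s', ⟨c1, c2, c3, c4⟩, ⟨s1, s2, s3, s4⟩, ⟨d1, d2, d3, d4, d5, d6⟩,
      ⟨t1, t2, t3, t4⟩, m1, m2, ⟨p1, p2, p3, p4, p5⟩, ⟨q1, q2, q3, q4, q5⟩⟩ := g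
    have n1 := Set.disjoint_left.1 d1 m1
    have n2 := Set.disjoint_left.1 d2 m1
    have n3 := Set.disjoint_left.1 d3 m1
    have n4 := Set.disjoint_right.1 d3 m2
    have n5 := Set.disjoint_right.1 d5 m2
    have n6 := Set.disjoint_right.1 d6 m2
    refine PM.list h p l ![0, 3 * c + 1, 3 * c + 2, 3 * c + 3, 3 * c + 4] ![a, j, j, j, j]
      ![Q a, s, z, z', s'] ?_ ?_ ?_ (by omega) (fun u h1 h2 => ?_) ?_ ?_ ?_ ?_
      fun u hu w hw uw k => ?_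
    · intro i i'; fin_cases i <;> fin_cases i' <;> simp
    · intro i; fin_cases i <;> simp [l.cn, *]
    · intro i i'; fin_cases i <;> fin_cases i' <;>
        simp [d1.symm, d2.symm, d3.symm, d4.symm, d5.symm, d6.symm, v1.symm, *]
    · simp [Fin.exists_fin_succ]; omega
    · intro i; fin_cases i <;> simp [l.l, *]
    · intro i; fin_cases i <;> simp [*]
    · intro u i; simp [Fin.exists_fin_succ]; grind
    · intro u i; simp [Fin.exists_fin_succ, l.r_iff]; grind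
    · unfold EC at k ⊢
      by_cases k1 : w < 3 * c + 2
      · exact .inl (by omega)
      rcases (by omega : (u = 0 ∨ u = 3 * c + 1 ∨ u = 3 * c + 4) ∧
        (w = 3 * c + 2 ∨ w = 3 * c + 3)) with ⟨rfl | rfl | rfl, rfl | rfl⟩
      · exact .inr ⟨0, 2, rfl, rfl, p3, p4, p1, p2, p5.symm⟩
      · exact .inr ⟨0, 3, rfl, rfl, q3, q4, q1, q2, q5.symm⟩
      · exact .inr ⟨1, 2, rfl, rfl, t1⟩
      · exact .inr ⟨1, 3, rfl, rfl, t2⟩
      · exact .inr ⟨4, 2, rfl, rfl, t3.symm⟩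
      · exact .inr ⟨4, 3, rfl, rfl, t4.symm⟩

theorem st_fin {c n : ℕ} (hc : 2 * n ≤ c) (τ : Ty k) (h : StT G U x c τ) :
    Mn G EA (n + 2) ∨ Mn G EB (2 * n) ∨ Mn G EC (3 * n + 2) := by
  rcases τ with ⟨j, a, b⟩ | ⟨j, a⟩ | ⟨j, a⟩
  · exact .inl (PM.mn h (by omega) fun u hu w hw k => by unfold EA at k; unfold EAc; omega)
  · exact .inr (.inl (PM.mn h (by omega) fun _ _ _ _ k => k))
  · exact .inr (.inr (PM.mn h (by omega) fun _ _ _ _ k => k))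

theorem bCH : St_CH := by
  intro n k
  refine ⟨Fintype.card (Ty k) * (2 * n) + 1, fun V G B I x₀ hB h0 H => ?_⟩
  have key : ∀ i ≤ Fintype.card (Ty k) * (2 * n) + 1, ∃ x : Fin k → V, En x (B i \ I i) ∧
      ∃ c : Ty k → ℕ, ∑ τ, c τ = i ∧ ∀ τ, (0 < c τ → Val τ) ∧ (Val τ → StT G (I i)ᶜ x (c τ) τ) := by
    intro i
    induction i with
    | zero => exact fun _ => ⟨x₀, h0, fun _ => 0, by simp, fun τ =>
        ⟨fun h => absurd h (lt_irrefl 0), st_init h0.1 (fun j => (h0.mem j).2) τ⟩⟩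
    | succ i ih =>
      intro hi
      obtain ⟨x, hx, c, h1, h2⟩ := ih (by omega)
      obtain ⟨x', Q, hx', l, j, a, ja, g⟩ := H i (by omega) x hx
      have p : Pos (I i)ᶜ (I (i + 1))ᶜ (B i \ I (i + 1)) x x' :=
        ⟨compl_subset_compl.2 (hB i).2.2, fun _ h => h.2, fun v h => hx.2 ▸ ⟨h.2.1, h.1⟩⟩
      obtain ⟨σ, v, g⟩ : ∃ σ : Ty k, Val σ ∧ GdT G x x' Q σ := by
        rcases g with ⟨b, g1, g2, g3⟩ | g | g
        · exact ⟨.inl (j, a, b), ⟨ja, g1, g2⟩, g3⟩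
        · exact ⟨.inr (.inl (j, a)), ja, g⟩
        · exact ⟨.inr (.inr (j, a)), ja, g⟩
      refine ⟨x', hx', fun τ => c τ + if τ = σ then 1 else 0,
        by simp [Finset.sum_add_distrib, h1], fun τ => ?_⟩
      by_cases e : τ = σ
      · subst e
        simp only [if_true]
        exact ⟨fun _ => v, fun _ => st_up p l τ v g ((h2 τ).2 v)⟩
      · simp only [e, if_false, add_zero]
        exact ⟨(h2 τ).1, fun v => st_stay p l τ v ((h2 τ).2 v)⟩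
  obtain ⟨x, -, c, h1, h2⟩ := key _ le_rfl
  obtain ⟨τ, h⟩ : ∃ τ, 2 * n < c τ := by
    by_contra h
    push Not at h
    have := Finset.sum_le_card_nsmul Finset.univ c _ fun τ _ => h τ
    simp only [Finset.card_univ, smul_eq_mul] at this
    exact absurd (h1.symm.trans_le this) (by omega)
  exact st_fin h.le τ ((h2 τ).2 ((h2 τ).1 (by omega)))

end Pool.Agent.Lib.IM
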