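import Pool.Agent.Lib.IM.Base

/-! The contact lemma and the greedy choice of paths. -/

open Set Function Relation

namespace Pool.Agent.Lib.IM

variable {V : Type} {G : SimpleGraph V}

theorem fan_of {a b : Set V} {D : ℕ → Set V} {n : ℕ} (ca : Cn G a) (cb : Cn G b) (ab : Disjoint a b)
    (h : ∀ s < n, Cn G (D s) ∧ Disjoint a (D s) ∧ Disjoint b (D s) ∧ Tc G a (D s) ∧ Tc G b (D s))
    (d : ∀ s < n, ∀ t < n, s ≠ t → Disjoint (D s) (D t))
    (e : ∀ s, s + 1 < n → Tc G (D s) (D (s + 1))) : Mn G EA (n + 2) := by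
  have cs : ∀ i < n + 2, i = 0 ∨ i = 1 ∨ ∃ s < n, i = s + 2 := fun i hi => by
    by_cases h0 : i < 2
    · omega
    · exact .inr (.inr ⟨i - 2, by omega, by omega⟩)
  refine ⟨fun i => match i with | 0 => a | 1 => b | s + 2 => D s, fun i hi => ?_,
    fun i hi j hj ij => ?_, fun i hi j hj ij k => ?_⟩
  · rcases cs i hi with rfl | rfl | ⟨s, hs, rfl⟩
    exacts [ca, cb, (h s hs).1]
  · rcases cs i hi with rfl | rfl | ⟨s, hs, rfl⟩ <;> rcases cs j hj with rfl | rfl | ⟨t, ht, rfl⟩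
    exacts [absurd rfl ij, ab, (h t ht).2.1, ab.symm, absurd rfl ij, (h t ht).2.2.1,
      (h s hs).2.1.symm, (h s hs).2.2.1.symm, d s hs t ht (by omega)]
  · unfold EA at k
    rcases cs i hi with rfl | rfl | ⟨s, hs, rfl⟩ <;> rcases cs j hj with rfl | rfl | ⟨t, ht, rfl⟩ <;>
      try omega
    · exact (h t ht).2.2.2.1
    · exact (h t ht).2.2.2.2
    · obtain rfl : t = s + 1 := by omega
      exact e s ht

theorem star {a b : Set V} {W : ℕ → Set V} {n N : ℕ} {g : ℕ → V} {q : ℕ → ℕ}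
    (ca : Cn G a) (cb : Cn G b) (ab : Disjoint a b) (hg : IsP G g N)
    (ag : Disjoint a (g '' Iic N)) (bg : Disjoint b (g '' Iic N))
    (hq : ∀ s t, s < t → t ≤ 2 * n → q s < q t) (hN : ∀ s ≤ 2 * n, q s ≤ N)
    (h : ∀ s ≤ 2 * n, Cn G (W s) ∧ Tc G a (W s) ∧ Tc G b (W s) ∧ Disjoint a (W s) ∧
      Disjoint b (W s) ∧ Disjoint (W s) (g '' Iic N) ∧ ∃ w ∈ W s, G.Adj w (g (q s)))
    (d : ∀ s ≤ 2 * n, ∀ t ≤ 2 * n, s ≠ t → Disjoint (W s) (W t)) : Mn G EA (n + 2) := by
  have sub : ∀ s < n, g '' Icc (q (2 * s)) (q (2 * s + 2) - 1) ⊆ g '' Iic N := fun s hs =>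
    image_mono fun i hi => by
      have := hN (2 * s + 2) (by omega)
      have := hi.2
      simp only [mem_Iic]; omega
  have dis : ∀ (c : Set V) (r : ℕ), r ≤ 1 → Disjoint c (g '' Iic N) → ∀ s < n,
      Disjoint (c ∪ {v | ∃ i, i < n ∧ v ∈ W (2 * i + r)})
        (g '' Icc (q (2 * s)) (q (2 * s + 2) - 1)) := fun c r hr k s hs =>
    Disjoint.mono_right (sub s hs) (disjoint_union_left.2 ⟨k, Set.disjoint_left.2
      fun v ⟨i, hi, k⟩ => Set.disjoint_left.1 (h _ (by omega)).2.2.2.2.2.1 k⟩)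
  have tc : ∀ (c : Set V) (r : ℕ), r ≤ 1 → ∀ s < n, Tc G (c ∪ {v | ∃ i, i < n ∧ v ∈ W (2 * i + r)})
      (g '' Icc (q (2 * s)) (q (2 * s + 2) - 1)) := fun c r hr s hs => by
    obtain ⟨w, w1, w2⟩ := (h (2 * s + r) (by omega)).2.2.2.2.2.2
    refine ⟨w, .inr ⟨s, hs, w1⟩, _, ⟨_, ⟨?_, ?_⟩, rfl⟩, w2⟩
    · rcases (by omega : r = 0 ∨ r = 1) with rfl | rfl
      · exact le_rfl
      · exact (hq _ _ (by omega) (by omega)).le
    · have := hq (2 * s + r) (2 * s + 2) (by omega) (by omega)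
      omega
  refine fan_of (a := a ∪ {v | ∃ i, i < n ∧ v ∈ W (2 * i + 0)})
    (b := b ∪ {v | ∃ i, i < n ∧ v ∈ W (2 * i + 1)})
    (D := fun s => g '' Icc (q (2 * s)) (q (2 * s + 2) - 1))
    (ca.attach fun i hi => ⟨(h _ (by omega)).1, .inl (h _ (by omega)).2.1⟩)
    (cb.attach fun i hi => ⟨(h _ (by omega)).1, .inl (h _ (by omega)).2.2.1⟩) ?_
    (fun s hs => ⟨hg.cn ?_ ?_, dis a 0 (by omega) ag s hs, dis b 1 le_rfl bg s hs,
      tc a 0 (by omega) s hs, tc b 1 le_rfl s hs⟩) (fun s hs t ht st => ?_) fun s hs => ?_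
  · rw [Set.disjoint_left]
    rintro v (k | ⟨i, hi, k⟩) (k' | ⟨j, hj, k'⟩)
    · exact Set.disjoint_left.1 ab k k'
    · exact Set.disjoint_left.1 (h _ (by omega)).2.2.2.1 k k'
    · exact Set.disjoint_left.1 (h _ (by omega)).2.2.2.2.1 k' k
    · exact Set.disjoint_left.1 (d _ (by omega) _ (by omega) (by omega)) k k'
  · have := hq (2 * s) (2 * s + 2) (by omega) (by omega)
    omega
  · have := hN (2 * s + 2) (by omega)
    omega
  · rw [Set.disjoint_left]
    rintro _ ⟨i, ⟨i1, i2⟩, rfl⟩ ⟨j, ⟨j1, j2⟩, e⟩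
    have a1 := hN (2 * s + 2) (by omega)
    have a2 := hN (2 * t + 2) (by omega)
    have a3 := hq (2 * s) (2 * s + 2) (by omega) (by omega)
    have a4 := hq (2 * t) (2 * t + 2) (by omega) (by omega)
    obtain rfl : j = i := hg.1 (show j ≤ N by omega) (show i ≤ N by omega) e
    have le : ∀ s t, s ≤ t → t ≤ 2 * n → q s ≤ q t := fun s t h1 h2 =>
      h1.lt_or_eq.elim (fun k => (hq s t k h2).le) fun k => k ▸ le_rfl
    rcases Nat.lt_or_gt_of_ne st with k | k
    · have := le (2 * s + 2) (2 * t) (by omega) (by omega)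
      omega
    · have := le (2 * t + 2) (2 * s) (by omega) (by omega)
      omega
  · have a1 := hN (2 * s + 2) (by omega)
    have a3 := hq (2 * s) (2 * s + 2) (by omega) (by omega)
    have a4 := hq (2 * (s + 1)) (2 * (s + 1) + 2) (by omega) (by omega)
    have := hg.2 (q (2 * s + 2) - 1) (by omega)
    rw [Nat.sub_add_cancel (by omega)] at this
    exact ⟨_, ⟨_, ⟨by omega, le_rfl⟩, rfl⟩, _, ⟨_, ⟨le_rfl, by omega⟩, rfl⟩, this⟩

theorem geodesic {ι : Type} [Fintype ι] {r : ι → ι → Prop} {z : ι} {d n : ℕ}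
    (hz : ∀ i, ReflTransGen r i z) (hd : ∀ j, {i | r i j}.ncard ≤ d)
    (hc : (d + 1) ^ n < Fintype.card ι) :
    ∃ a : ℕ → ι, (∀ s ≤ n, ∀ t ≤ n, a s = a t → s = t) ∧ ∀ s < n, r (a (s + 1)) (a s) := by
  classical
  let B : ℕ → Finset ι := fun t => Nat.rec {z}
    (fun _ B => B ∪ B.biUnion fun j => Finset.univ.filter fun i => r i j) t
  have B1 : ∀ t i, i ∈ B (t + 1) ↔ i ∈ B t ∨ ∃ j ∈ B t, r i j := fun t i => by simp [B]
  have Bc : ∀ t, (B t).card ≤ (d + 1) ^ t := by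
    intro t
    induction t with
    | zero => simp [B]
    | succ t ih =>
      have h1 := Finset.card_biUnion_le_card_mul (B t) (fun j => Finset.univ.filter fun i => r i j)
        d fun j _ => by simpa [← Set.ncard_coe_finset] using hd j
      have h2 : (B (t + 1)).card ≤ (B t).card + ((B t).biUnion fun j =>
        Finset.univ.filter fun i => r i j).card := Finset.card_union_le _ _
      refine le_trans ?_ ((Nat.mul_le_mul_right (d + 1) ih).trans (pow_succ _ _).ge)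
      rw [mul_add, mul_one]
      omega
  have ex : ∀ i, ∃ t, i ∈ B t := by
    intro i
    induction hz i using ReflTransGen.head_induction_on with
    | refl => exact ⟨0, by simp [B]⟩
    | head h _ ih => exact ih.elim fun t ht => ⟨t + 1, (B1 _ _).2 (.inr ⟨_, ht, h⟩)⟩
  obtain ⟨D, D1, D2⟩ : ∃ D : ι → ℕ, (∀ i, i ∈ B (D i)) ∧ ∀ i t, i ∈ B t → D i ≤ t :=
    ⟨fun i => sInf {t | i ∈ B t}, fun i => Nat.sInf_mem (ex i), fun i t h => Nat.sInf_le h⟩
  have key : ∀ t i, D i = t → ∃ a : ℕ → ι, a t = i ∧ (∀ s ≤ t, D (a s) = s) ∧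
      ∀ s < t, r (a (s + 1)) (a s) := by
    intro t
    induction t with
    | zero => exact fun i h => ⟨fun _ => i, rfl, fun s hs => by rw [h]; omega, fun s hs => by omega⟩
    | succ t ih =>
      intro i h
      have h1 : i ∈ B (t + 1) := h ▸ D1 i
      obtain ⟨j, j1, j2⟩ := ((B1 _ _).1 h1).resolve_left fun k => by have := D2 i t k; omega
      have h2 := D2 j t j1
      have h3 := D2 i (D j + 1) ((B1 _ _).2 (.inr ⟨j, D1 j, j2⟩))
      obtain ⟨a, a1, a2, a3⟩ := ih j (by omega)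
      refine ⟨fun s => if s ≤ t then a s else i, by simp, fun s hs => ?_, fun s hs => ?_⟩
      · by_cases k : s ≤ t
        · simp only [k, if_true]; exact a2 s k
        · simp only [k, if_false]; omega
      · by_cases k : s + 1 ≤ t
        · simp only [k, show s ≤ t by omega, if_true]; exact a3 s k
        · obtain rfl : s = t := by omega
          simp only [k, le_refl, if_true, if_false, a1]; exact j2
  obtain ⟨i, hi⟩ : ∃ i, i ∉ B n := by
    by_contra h
    push Not at h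
    have := Finset.card_le_card (show Finset.univ ⊆ B n from fun i _ => h i)
    have := Bc n
    rw [Finset.card_univ] at *
    omega
  have mono : ∀ s t, s ≤ t → B s ⊆ B t := fun s t h => by
    induction h with
    | refl => exact Finset.Subset.refl _
    | step _ ih => exact fun i k => (B1 _ _).2 (.inl (ih k))
  have hn : n < D i := by_contra fun k => hi (mono _ _ (by omega) (D1 i))
  obtain ⟨a, -, a2, a3⟩ := key _ i rfl
  exact ⟨a, fun s hs t ht e => by rw [← a2 s (by omega), e, a2 t (by omega)],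
    fun s hs => a3 s (by omega)⟩

theorem bCON : St_CON := by
  intro n
  refine ⟨(2 * n + 1) ^ n + 1, ?_⟩
  rintro V G a b C _ P ca cb ab aC bC ⟨h, N, hh, rfl⟩ HC hP dP
  let Own : ℕ → Fin ((2 * n + 1) ^ n + 1) → Prop := fun t i =>
    ∃ s ≤ t, h s ∈ P i ∧ ∀ s', s < s' → s' ≤ t → ∀ j, h s' ∉ P j
  have uq : ∀ t i j, Own t i → Own t j → i = j := by
    rintro t i j ⟨s, s1, s2, s3⟩ ⟨u, u1, u2, u3⟩
    rcases lt_trichotomy s u with k | rfl | k
    · exact absurd u2 (s3 u k u1 j)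
    · exact eq_of_dis dP s2 u2
    · exact absurd s2 (u3 s k s1 i)
  have now : ∀ t i, h t ∈ P i → Own t i := fun t i k => ⟨t, le_rfl, k, fun s h1 h2 => by omega⟩
  let W : Fin ((2 * n + 1) ^ n + 1) → Set V := fun i => P i ∪ {v | ∃ t ≤ N, Own t i ∧ h t = v}
  have WC : ∀ i, W i ⊆ C := fun i => union_subset (hP i).2.1 fun v ⟨t, t1, _, e⟩ => HC ⟨t, t1, e⟩
  have cW : ∀ i, Cn G (W i) := by
    intro i
    obtain ⟨u, hu⟩ := (hP i).1.cn.1
    refine cn_of_root (.inl hu) ?_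
    rintro v (k | ⟨t, t1, ⟨s, s1, s2, s3⟩, rfl⟩)
    · exact ((hP i).1.cn.2 u hu v k).mono subset_union_left
    · refine (((hP i).1.cn.2 u hu _ s2).mono subset_union_left).trans
        ((hh.R t1 s1 le_rfl).mono ?_)
      rintro _ ⟨l, ⟨l1, l2⟩, rfl⟩
      exact .inr ⟨l, l2.trans t1, ⟨s, l1, s2, fun s' k1 k2 => s3 s' k1 (k2.trans l2)⟩, rfl⟩
  have dW : ∀ i j, i ≠ j → Disjoint (W i) (W j) := by
    intro i j ij
    rw [Set.disjoint_left]
    rintro v (k | ⟨t, t1, t2, rfl⟩) (k' | ⟨u, u1, u2, e⟩)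
    · exact ij (eq_of_dis dP k k')
    · exact ij (uq u _ _ (now u i (e ▸ k)) u2)
    · exact ij (uq t _ _ t2 (now t j k'))
    · exact ij (uq t _ _ t2 (hh.1 u1 t1 e ▸ u2))
  let r : Fin ((2 * n + 1) ^ n + 1) → Fin ((2 * n + 1) ^ n + 1) → Prop := fun i j =>
    i ≠ j ∧ ∃ t < N, Own t i ∧ h (t + 1) ∈ P j
  have fw : ∀ t i, Own t i → ∀ u, t ≤ u → u ≤ N → ∃ j, Own u j ∧ ReflTransGen r i j := by
    intro t i k u tu
    induction tu with
    | refl => exact fun _ => ⟨i, k, .refl⟩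
    | @step u _ ih =>
      intro hu
      obtain ⟨j, j1, j2⟩ := ih (by omega)
      by_cases e : ∃ l, h (u + 1) ∈ P l
      · obtain ⟨l, e⟩ := e
        by_cases e' : j = l
        · exact ⟨l, now _ _ e, e' ▸ j2⟩
        · exact ⟨l, now _ _ e, j2.tail ⟨e', u, hu, j1, e⟩⟩
      · obtain ⟨s, s1, s2, s3⟩ := j1
        refine ⟨j, ⟨s, by omega, s2, fun s' k1 k2 l k3 => ?_⟩, j2⟩
        by_cases e' : s' = u + 1
        · exact e ⟨l, e' ▸ k3⟩
        · exact s3 s' k1 (by omega) l k3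
  have fw' : ∀ i, ∃ j, Own N j ∧ ReflTransGen r i j := fun i => by
    obtain ⟨_, k, t, t1, rfl⟩ := (hP i).2.2.2.2
    exact fw t i (now t i k) N t1 le_rfl
  obtain ⟨z, hz, -⟩ := fw' 0
  have Wa : ∀ i, Tc G a (W i) := fun i => (hP i).2.2.1.symm.mono Subset.rfl subset_union_left
  have Wb : ∀ i, Tc G b (W i) := fun i => (hP i).2.2.2.1.symm.mono Subset.rfl subset_union_left
  by_cases hd : ∀ j, {i | r i j}.ncard ≤ 2 * n
  · obtain ⟨c, c1, c2⟩ := geodesic (z := z) (n := n)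
      (fun i => (fw' i).elim fun j k => uq N _ _ k.1 hz ▸ k.2) hd (by simp)
    refine fan_of (D := fun s => W (c s)) ca cb ab (fun s _ => ⟨cW _, aC.mono_right (WC _),
      bC.mono_right (WC _), Wa _, Wb _⟩) (fun s hs t ht st => dW _ _ fun e =>
        st (c1 s hs.le t ht.le e)) fun s hs => ?_
    obtain ⟨-, t, t1, t2, t3⟩ := c2 s (by omega)
    exact ⟨_, .inl t3, _, .inr ⟨t, t1.le, t2, rfl⟩, (hh.2 t t1).symm⟩
  push Not at hd
  obtain ⟨j, hj⟩ := hd
  obtain ⟨g, N', hg, e⟩ := (hP j).1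
  have : ∀ i, ∃ p, r i j → p ≤ N' ∧ ∃ t < N, Own t i ∧ g p = h (t + 1) := fun i => by
    by_cases k : r i j
    · obtain ⟨-, t, t1, t2, t3⟩ := k
      obtain ⟨p, p1, p2⟩ := e ▸ t3
      exact ⟨p, fun _ => ⟨p1, t, t1, t2, p2⟩⟩
    · exact ⟨0, fun k' => absurd k' k⟩
  choose p hp using this
  have pi : InjOn p {i | r i j} := fun i hi i' hi' k => by
    obtain ⟨-, t, t1, t2, t3⟩ := hp i hi
    obtain ⟨-, u, u1, u2, u3⟩ := hp i' hi'
    have := hh.1 (show t + 1 ≤ N from t1) (show u + 1 ≤ N from u1) (by rw [← t3, ← u3, k])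
    obtain rfl : t = u := by omega
    exact uq t _ _ t2 u2
  have fin : (p '' {i | r i j}).Finite := toFinite _
  have hc : 2 * n + 1 ≤ fin.toFinset.card := by
    rw [← Set.ncard_eq_toFinset_card _ fin, pi.ncard_image]; omega
  have : ∀ s, ∃ i, ∀ hs : s < 2 * n + 1, r i j ∧ p i = fin.toFinset.orderEmbOfCardLe hc ⟨s, hs⟩ :=
    fun s => by
    by_cases hs : s < 2 * n + 1
    · obtain ⟨i, i1, i2⟩ := fin.mem_toFinset.1 (fin.toFinset.orderEmbOfCardLe_mem hc ⟨s, hs⟩)
      exact ⟨i, fun _ => ⟨i1, i2⟩⟩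
    · exact ⟨0, fun k => absurd k hs⟩
  choose c hc' using this
  have lt : ∀ s t, s < t → t ≤ 2 * n → p (c s) < p (c t) := fun s t h1 h2 => by
    rw [(hc' s (by omega)).2, (hc' t (by omega)).2]
    exact (OrderEmbedding.lt_iff_lt _).2 h1
  refine star (g := g) (q := fun s => p (c s)) (W := fun s => W (c s)) ca cb ab hg
    (aC.mono_right (e ▸ (hP j).2.1)) (bC.mono_right (e ▸ (hP j).2.1)) lt
    (fun s hs => (hp _ (hc' s (by omega)).1).1) (fun s hs => ⟨cW _, Wa _, Wb _,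
      aC.mono_right (WC _), bC.mono_right (WC _),
      (dW _ _ (hc' s (by omega)).1.1).mono_right (e ▸ subset_union_left), ?_⟩)
    fun s hs t ht st => dW _ _ fun k => ?_
  · obtain ⟨-, t, t1, t2, t3⟩ := hp _ (hc' s (by omega)).1
    exact ⟨_, .inr ⟨t, t1.le, t2, rfl⟩, t3 ▸ hh.2 t t1⟩
  · rcases Nat.lt_or_gt_of_ne st with l | l
    · exact absurd (lt s t l ht) (by rw [k]; exact lt_irrefl _)
    · exact absurd (lt t s l hs) (by rw [k]; exact lt_irrefl _)

theorem bKR : St_KR := by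
  intro n
  obtain ⟨M, hM⟩ := bCON n
  refine ⟨(n + 2) * (n + 2) * M + 1, by omega, fun V G C I hI dI H => ?_⟩
  classical
  by_contra hno
  let Ok : Fin (n + 2) × Fin (n + 2) → Set V → Prop := fun e S =>
    PS G S ∧ S ⊆ C ∧ Tc G S (I e.1) ∧ Tc G S (I e.2)
  have key : ∀ E : Finset (Fin (n + 2) × Fin (n + 2)), (∀ e ∈ E, e.1 ≠ e.2) →
      ∃ f : Fin (n + 2) × Fin (n + 2) → Set V, (∀ e ∈ E, Ok e (f e)) ∧
        ∀ e ∈ E, ∀ e' ∈ E, e ≠ e' → Disjoint (f e) (f e') := by
    intro E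
    induction E using Finset.induction_on with
    | empty => exact fun _ => ⟨fun _ => ∅, by simp, by simp⟩
    | insert e E he ih =>
      intro hE
      obtain ⟨f, f1, f2⟩ := ih fun e' k => hE e' (Finset.mem_insert_of_mem k)
      have ne := hE e (Finset.mem_insert_self _ _)
      obtain ⟨P₀, p1, p2⟩ := H e.1 e.2 ne
      have : ∀ s, ∃ S, Ok e S ∧ S ⊆ P₀ s := fun s => by
        obtain ⟨k1, k2, ⟨u, u1, u2⟩, v, v1, v2⟩ := p1 s
        obtain ⟨S, s1, s2, s3, s4⟩ := (k1.2 u u1 v v1).ps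
        exact ⟨S, ⟨s1, s2.trans k2, ⟨u, s3, u2⟩, v, s4, v2⟩, s2⟩
      choose P q1 q2 using this
      have q3 : ∀ s t, s ≠ t → Disjoint (P s) (P t) := fun s t k => (p2 s t k).mono (q2 s) (q2 t)
      have few : ∀ e' ∈ E, (Finset.univ.filter fun s => (P s ∩ f e').Nonempty).card ≤ M := by
        intro e' he'
        by_contra k
        obtain ⟨x, hx⟩ := exists_en (toFinite {s | (P s ∩ f e').Nonempty})
        have k1 : M ≤ {s | (P s ∩ f e').Nonempty}.ncard := by
          rw [← Set.ncard_coe_finset] at k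
          simpa using (not_le.1 k).le
        exact hno (hM V G (I e.1) (I e.2) C (f e') (fun i => P (x (i.castLE k1))) (hI _).1 (hI _).1
          (dI _ _ ne) (hI _).2 (hI _).2 (f1 e' he').1 (f1 e' he').2.1
          (fun i => ⟨(q1 _).1, (q1 _).2.1, (q1 _).2.2.1, (q1 _).2.2.2, hx.mem _⟩)
          fun i j ij => q3 _ _ fun k => ij (Fin.castLE_injective k1 (hx.1 k)))
      obtain ⟨s, hs⟩ : ∃ s, s ∉ E.biUnion fun e' =>
          Finset.univ.filter fun s => (P s ∩ f e').Nonempty := by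
        by_contra k
        push Not at k
        have h1 := Finset.card_le_card (show Finset.univ ⊆ _ from fun i _ => k i)
        have h2 := Finset.card_biUnion_le_card_mul E _ M few
        have h3 := Nat.mul_le_mul_right M (Finset.card_le_univ E)
        simp only [Finset.card_univ, Fintype.card_fin, Fintype.card_prod] at h1 h3
        omega
      have dj : ∀ e' ∈ E, Disjoint (P s) (f e') := fun e' k => by
        rw [Set.disjoint_iff_inter_eq_empty, ← not_nonempty_iff_eq_empty]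
        exact fun k' => hs (Finset.mem_biUnion.2 ⟨e', k, by simpa using k'⟩)
      have up : ∀ e' ∈ E, update f e (P s) e' = f e' := fun e' k =>
        update_of_ne (fun k' : e' = e => he (k' ▸ k)) _ _
      refine ⟨update f e (P s), fun a ha => ?_, fun a ha b hb ab => ?_⟩
      · rcases Finset.mem_insert.1 ha with rfl | ha
        · rw [update_self]; exact q1 s
        · rw [up a ha]; exact f1 a ha
      · rcases Finset.mem_insert.1 ha with rfl | a1 <;> rcases Finset.mem_insert.1 hb with rfl | b1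
        · exact absurd rfl ab
        · rw [update_self, up b b1]; exact dj b b1
        · rw [update_self, up a a1]; exact (dj a a1).symm
        · rw [up a a1, up b b1]; exact f2 a a1 b b1 ab
  obtain ⟨f, f1, f2⟩ := key (Finset.univ.filter fun e => e.1 < e.2)
    fun e k => (Finset.mem_filter.1 k).2.ne
  simp only [Finset.mem_filter, Finset.mem_univ, true_and] at f1 f2
  let J : Fin (n + 2) → Set V := fun j => I j ∪ {v | ∃ i, i < j ∧ v ∈ f (i, j)}
  have tc : ∀ i j, i < j → Tc G (J i) (J j) := fun i j k =>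
    (f1 (i, j) k).2.2.1.symm.mono subset_union_left fun _ h => .inr ⟨i, k, h⟩
  refine hno ⟨fun j => if h : j < n + 2 then J ⟨j, h⟩ else ∅, fun j hj => ?_,
    fun i hi j hj ij => ?_, fun i hi j hj ij _ => ?_⟩
  · simp only [hj, dif_pos]
    exact (hI _).1.attach fun i k => ⟨(f1 _ k).1.cn, .inl (f1 (i, _) k).2.2.2.symm⟩
  · simp only [hi, hj, dif_pos]
    rw [Set.disjoint_left]
    rintro v (k | ⟨a, a1, k⟩) (k' | ⟨b, b1, k'⟩)
    · exact ij (congrArg Fin.val (eq_of_dis dI k k'))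
    · exact Set.disjoint_left.1 (hI _).2 k ((f1 (b, _) b1).2.1 k')
    · exact Set.disjoint_left.1 (hI _).2 k' ((f1 (a, _) a1).2.1 k)
    · exact Set.disjoint_left.1 (f2 (a, _) a1 (b, _) b1 fun e =>
        ij (congrArg (fun p => p.2.val) e)) k k'
  · simp only [hi, hj, dif_pos]
    rcases Nat.lt_or_gt_of_ne ij with k | k
    · exact tc _ _ k
    · exact (tc _ _ k).symm

end Pool.Agent.Lib.IM
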