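import Pool.Agent.Lib.IM.Base

/-! Menger's theorem. -/

open Set Function

namespace Pool.Agent.Lib.IM

variable {V : Type}

theorem Sp.symm {G : SimpleGraph V} {S A B Y : Set V} (h : Sp G S A B Y) : Sp G S B A Y :=
  fun b hb a ha r => h a ha b hb r.symm

/-- A separator on the near side of a cut of `G - e` separates in `G`. -/
theorem men_side {G G' : SimpleGraph V} {S A B S' Y : Set V} {x y : V}
    (he : ∀ a b, G.Adj a b → G'.Adj a b ∨ a = x ∨ a = y) (hS : Sp G' S A B S')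
    (hy : y ∉ rc G' (S \ S') A)
    (h : Sp G' (rc G' (S \ S') A ∪ S') A (insert x S') Y) : Sp G S A B Y := by
  intro a ha b hb r
  have key : R G' ((rc G' (S \ S') A ∪ S') \ Y) a b := by
    refine r.ind (P := fun v => R G' ((rc G' (S \ S') A ∪ S') \ Y) a v) (R.refl ⟨?_, r.1.2⟩) ?_
    · by_cases h1 : a ∈ S'
      · exact .inr h1
      · exact .inl (rc_self ha ⟨r.1.1, h1⟩)
    · intro v v' _ ih vv hv'
      have h1 : v ∉ insert x S' := fun h1 => h a ha v h1 ih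
      have h2 : v ∈ rc G' (S \ S') A := ih.right.1.resolve_right fun h2 => h1 (.inr h2)
      rcases he v v' vv with h3 | rfl | rfl
      · refine ih.tail h3 ⟨?_, hv'.2⟩
        by_cases h4 : v' ∈ S'
        · exact .inr h4
        · exact .inl (rc_adj h2 h3 ⟨hv'.1, h4⟩)
      · exact absurd (.inl rfl) h1
      · exact absurd h2 hy
  rcases key.right.1 with ⟨a', ha', r'⟩ | h1
  · exact hS a' ha' b hb r'
  · exact h a ha b (.inr h1) key

theorem men_aux [Finite V] (k : ℕ) : ∀ (m : ℕ) (G : SimpleGraph V) (S A B : Set V),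
    G.edgeSet.ncard = m → (∀ Y, Y ⊆ S → Sp G S A B Y → k ≤ Y.ncard) → ∃ Q : Fin k → Set V,
    (∀ i, Cn G (Q i) ∧ Q i ⊆ S ∧ (Q i ∩ A).Nonempty ∧ (Q i ∩ B).Nonempty) ∧
    ∀ i j, i ≠ j → Disjoint (Q i) (Q j) := by
  intro m
  induction m using Nat.strong_induction_on with
  | _ m ih =>
  intro G S A B hm H
  by_cases hE : ∃ x y, G.Adj x y
  swap
  · have h1 : k ≤ (S ∩ A ∩ B).ncard := H _ (fun _ h => h.1.1) fun a ha b hb r => by
      have : b = a := r.ind (P := fun v => v = a) rfl fun _ _ _ _ h _ => absurd ⟨_, _, h⟩ hE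
      exact r.1.2 ⟨⟨r.1.1, ha⟩, this ▸ hb⟩
    obtain ⟨x, hx⟩ := exists_en (toFinite (S ∩ A ∩ B))
    refine ⟨fun i => {x (i.castLE h1)}, fun i => ?_, fun i j hij => ?_⟩
    · have := hx.mem (i.castLE h1)
      exact ⟨cn_single _, singleton_subset_iff.2 this.1.1, ⟨_, rfl, this.1.2⟩, ⟨_, rfl, this.2⟩⟩
    · exact disjoint_singleton.2 fun e => hij (Fin.castLE_injective h1 (hx.1 e))
  obtain ⟨x0, y0, hxy0⟩ := hE
  set G' := G.deleteEdges {s(x0, y0)} with hG'
  have hle : G' ≤ G := G.deleteEdges_le _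
  have hlt : G'.edgeSet.ncard < m := by
    rw [← hm]
    refine Set.ncard_lt_ncard ⟨SimpleGraph.edgeSet_mono hle, fun h => ?_⟩ (toFinite _)
    have := h (show s(x0, y0) ∈ G.edgeSet from hxy0)
    simp [hG'] at this
  have he0 : ∀ a b, G.Adj a b → G'.Adj a b ∨ (a = x0 ∧ b = y0) ∨ (a = y0 ∧ b = x0) := by
    intro a b h
    by_cases h1 : s(a, b) = s(x0, y0)
    · exact .inr (Sym2.eq_iff.1 h1)
    · exact .inl (by simp only [hG', SimpleGraph.deleteEdges_adj]; exact ⟨h, h1⟩)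
  by_cases H' : ∀ Y, Y ⊆ S → Sp G' S A B Y → k ≤ Y.ncard
  · obtain ⟨Q, h1, h2⟩ := ih _ hlt G' S A B rfl H'
    exact ⟨Q, fun i => ⟨(h1 i).1.monoG hle, (h1 i).2⟩, h2⟩
  push Not at H'
  obtain ⟨S', hS'S, hS', hk⟩ := H'
  have hns : ¬ Sp G S A B S' := fun h => absurd (H _ hS'S h) (by omega)
  have dis : ∀ v ∈ rc G' (S \ S') A, v ∉ rc G' (S \ S') B :=
    fun v ⟨a, ha, r⟩ ⟨b, hb, r'⟩ => hS' a ha b hb (r.trans r'.symm)
  have side : ∀ {A B : Set V}, Sp G' S A B S' → ¬ Sp G S A B S' →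
      x0 ∈ rc G' (S \ S') A ∨ y0 ∈ rc G' (S \ S') A := by
    intro A B h1 h2
    by_contra h3
    rw [not_or] at h3
    refine h2 fun a ha b hb r => h1 a ha b hb ?_
    refine r.ind (P := fun v => R G' (S \ S') a v) (R.refl r.1) fun v v' _ ih vv hv => ?_
    rcases he0 v v' vv with h | ⟨rfl, -⟩ | ⟨rfl, -⟩
    · exact ih.tail h hv
    · exact absurd ⟨a, ha, ih⟩ h3.1
    · exact absurd ⟨a, ha, ih⟩ h3.2
  obtain ⟨x, y, hxy, he, hx, hy⟩ : ∃ x y, G.Adj x y ∧
      (∀ a b, G.Adj a b → G'.Adj a b ∨ a = x ∨ a = y) ∧ x ∈ rc G' (S \ S') A ∧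
      y ∈ rc G' (S \ S') B := by
    rcases side hS' hns with h1 | h1 <;> rcases side hS'.symm (fun h => hns h.symm) with h2 | h2
    · exact absurd h2 (dis _ h1)
    · exact ⟨x0, y0, hxy0, fun a b h => by have := he0 a b h; tauto, h1, h2⟩
    · exact ⟨y0, x0, hxy0.symm, fun a b h => by have := he0 a b h; tauto, h1, h2⟩
    · exact absurd h2 (dis _ h1)
  have sA : rc G' (S \ S') A ∪ S' ⊆ S := union_subset (rc_sub.trans sdiff_subset) hS'S
  have sB : rc G' (S \ S') B ∪ S' ⊆ S := union_subset (rc_sub.trans sdiff_subset) hS'S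
  obtain ⟨X, hX, dX⟩ := ih _ hlt G' (rc G' (S \ S') A ∪ S') A (insert x S') rfl fun Y hY h =>
    H Y (hY.trans sA) (men_side he hS' (fun h => dis _ h hy) h)
  obtain ⟨Z, hZ, dZ⟩ := ih _ hlt G' (rc G' (S \ S') B ∪ S') B (insert y S') rfl fun Y hY h =>
    H Y (hY.trans sB) (men_side (x := y) (y := x) (fun a b h => by have := he a b h; tauto)
      hS'.symm (dis _ hx) h).symm
  choose p hp using fun i => (hX i).2.2.2
  choose q hq using fun i => (hZ i).2.2.2
  have cp : range p = insert x S' := cover (toFinite _) (inj_of_dis (fun i => (hp i).1) dX)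
    (fun i => (hp i).2) ((Set.ncard_insert_le _ _).trans hk)
  have cq : range q = insert y S' := cover (toFinite _) (inj_of_dis (fun i => (hq i).1) dZ)
    (fun i => (hq i).2) ((Set.ncard_insert_le _ _).trans hk)
  have hyS : y ∉ S' := (rc_sub hy).2
  have hxS : x ∉ S' := (rc_sub hx).2
  have : ∀ i, ∃ j, (p i ∈ S' ∧ q j = p i) ∨ (p i = x ∧ q j = y) := by
    intro i
    rcases (hp i).2 with h | h
    · obtain ⟨j, hj⟩ : y ∈ range q := cq ▸ .inl rfl
      exact ⟨j, .inr ⟨h, hj⟩⟩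
    · obtain ⟨j, hj⟩ : p i ∈ range q := cq ▸ .inr h
      exact ⟨j, .inl ⟨h, hj⟩⟩
  choose σ hσ using this
  have pinj := inj_of_dis (fun i => (hp i).1) dX
  have σinj : ∀ i j, σ i = σ j → i = j := by
    intro i j e
    apply pinj
    rcases hσ i with ⟨h1, h2⟩ | ⟨h1, h2⟩ <;> rcases hσ j with ⟨h3, h4⟩ | ⟨h3, h4⟩
    · rw [← h2, ← h4, e]
    · exact absurd (by rw [← h4, ← e, h2]; exact h1) hyS
    · exact absurd (by rw [← h2, e, h4]; exact h3) hyS
    · rw [h1, h3]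
  have XZ : ∀ i j, ∀ v ∈ X i, v ∈ Z (σ j) → i = j := by
    intro i j v h1 h2
    have hv : v ∈ S' := by
      by_contra hv
      exact dis v (((hX i).2.1 h1).resolve_right hv) (((hZ _).2.1 h2).resolve_right hv)
    obtain ⟨i', rfl⟩ : v ∈ range p := cp ▸ .inr hv
    obtain rfl : i' = i := eq_of_dis dX (hp i').1 h1
    rcases hσ i' with ⟨-, h4⟩ | ⟨h3, -⟩
    · exact σinj _ _ (eq_of_dis dZ (h4 ▸ (hq _).1) h2)
    · exact absurd (h3 ▸ hv) hxS
  refine ⟨fun i => X i ∪ Z (σ i), fun i => ⟨?_, union_subset ((hX i).2.1.trans sA)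
    ((hZ _).2.1.trans sB), (hX i).2.2.1.mono (inter_subset_inter_left _ subset_union_left),
    (hZ _).2.2.1.mono (inter_subset_inter_left _ subset_union_right)⟩, fun i j hij => ?_⟩
  · rcases hσ i with ⟨-, h2⟩ | ⟨h1, h2⟩
    · exact ((hX i).1.monoG hle).union ((hZ _).1.monoG hle) (hp i).1 (h2 ▸ (hq _).1)
    · exact ((hX i).1.monoG hle).union_tc ((hZ _).1.monoG hle)
        ⟨x, h1 ▸ (hp i).1, y, h2 ▸ (hq _).1, hxy⟩
  · rw [Set.disjoint_left]
    rintro v (h1 | h1) (h2 | h2)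
    · exact hij (eq_of_dis dX h1 h2)
    · exact hij (XZ _ _ v h1 h2)
    · exact hij (XZ _ _ v h2 h1).symm
    · exact hij (σinj _ _ (eq_of_dis dZ h1 h2))

theorem bMEN : St_MEN := fun _ _ G S A B k H => men_aux k _ G S A B rfl H

end Pool.Agent.Lib.IM
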