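import Pool.Agent.Lib.IM.Base

/-! The connectivity function. -/

open Set Function

namespace Pool.Agent.Lib.IM

variable {V : Type} {G : SimpleGraph V} {Z W : Set (Sym2 V)} {u v : V}

theorem vs_mono (h : Z ⊆ W) : vs G Z ⊆ vs G W := fun _ ⟨e, h1, h2⟩ => ⟨e, h h1, h2⟩

theorem vs_union : vs G (Z ∪ W) = vs G Z ∪ vs G W := by
  ext v
  constructor
  · rintro ⟨e, h | h, h2⟩
    · exact .inl ⟨e, h, h2⟩
    · exact .inr ⟨e, h, h2⟩
  · rintro (h | h)
    · exact vs_mono subset_union_left h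
    · exact vs_mono subset_union_right h

theorem hy_adj {e : Sym2 V} (he : e ∈ hy G) (hu : u ∈ e) (hv : v ∈ e) (h : u ≠ v) : G.Adj u v := by
  obtain rfl := (Sym2.mem_and_mem_iff h).1 ⟨hu, hv⟩
  exact he.elim id fun h' => absurd (Sym2.mk_isDiag_iff.1 h') h

theorem hy_edge (h : G.Adj u v) : s(u, v) ∈ hy G := .inl h

theorem hy_diag (v : V) : s(v, v) ∈ hy G := .inr (Sym2.mk_isDiag_iff.2 rfl)

theorem bd_compl : bd G Zᶜ = bd G Z := by rw [bd, compl_compl, inter_comm, bd]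

theorem bd_closed (hu : u ∈ vs G Z \ bd G Z) (h : G.Adj u v) : v ∈ vs G Z := by
  by_cases h1 : s(u, v) ∈ Z
  · exact ⟨_, h1, hy_edge h, Sym2.mem_mk_right _ _⟩
  · exact absurd ⟨hu.1, _, h1, hy_edge h, Sym2.mem_mk_left _ _⟩ hu.2

theorem bd_union : bd G (Z ∪ W) ⊆ bd G Z ∪ bd G W := by
  rintro v ⟨h1, h2⟩
  rw [vs_union] at h1
  exact h1.imp (fun h => ⟨h, vs_mono (compl_subset_compl.2 subset_union_left) h2⟩)
    fun h => ⟨h, vs_mono (compl_subset_compl.2 subset_union_right) h2⟩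

theorem bd_inter : bd G (Z ∩ W) ⊆ bd G Z ∪ bd G W := by
  rw [← bd_compl, compl_inter, ← bd_compl (Z := Z), ← bd_compl (Z := W)]
  exact bd_union

theorem bd_both : bd G (Z ∩ W) ∩ bd G (Z ∪ W) ⊆ bd G Z ∩ bd G W := fun _ ⟨h1, h2⟩ =>
  ⟨⟨vs_mono inter_subset_left h1.1, vs_mono (compl_subset_compl.2 subset_union_left) h2.2⟩,
    ⟨vs_mono inter_subset_right h1.1, vs_mono (compl_subset_compl.2 subset_union_right) h2.2⟩⟩

theorem ed_le [Finite V] (Y : Set V) : ed G Y ≤ G.edgeSet.ncard :=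
  Set.ncard_le_ncard (fun _ h => h.1) (toFinite _)

theorem edge_corner (h : bd G Z ∩ bd G W ⊆ bd G (Z ∩ W) ∩ bd G (Z ∪ W)) {e : Sym2 V}
    (he : e ∈ G.edgeSet) (hX : ∀ v ∈ e, v ∈ bd G Z) :
    (∀ v ∈ e, v ∈ bd G (Z ∩ W)) ∨ ∀ v ∈ e, v ∈ bd G (Z ∪ W) := by
  by_cases h1 : e ∈ W
  · refine .inl fun v hv => ?_
    by_cases h2 : v ∈ vs G Wᶜ
    · exact (h ⟨hX v hv, ⟨e, h1, .inl he, hv⟩, h2⟩).1
    · obtain ⟨⟨g, g1, g2⟩, h3⟩ := hX v hv
      exact ⟨⟨g, ⟨g1, by_contra fun g3 => h2 ⟨g, g3, g2⟩⟩, g2⟩,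
        vs_mono (compl_subset_compl.2 inter_subset_left) h3⟩
  · refine .inr fun v hv => ?_
    by_cases h2 : v ∈ vs G W
    · exact (h ⟨hX v hv, h2, e, h1, .inl he, hv⟩).2
    · obtain ⟨h3, g, g1, g2⟩ := hX v hv
      exact ⟨vs_mono subset_union_left h3, g, fun g3 => g3.elim g1 fun g3 => h2 ⟨g, g3, g2⟩, g2⟩

theorem ncard_pair {α : Type} [Finite α] {P Q X Y : Set α} (h1 : P ∪ Q ⊆ X ∪ Y)
    (h2 : P ∩ Q ⊆ X ∩ Y) : P.ncard + Q.ncard ≤ X.ncard + Y.ncard ∧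
      (P.ncard + Q.ncard = X.ncard + Y.ncard → X ∩ Y ⊆ P ∩ Q) := by
  have a := Set.ncard_union_add_ncard_inter P Q
  have b := Set.ncard_union_add_ncard_inter X Y
  have c := Set.ncard_le_ncard h1 (toFinite _)
  have d := Set.ncard_le_ncard h2 (toFinite _)
  exact ⟨by omega, fun h => (Set.eq_of_subset_of_ncard_le h2 (by omega) (toFinite _)).ge⟩

theorem bSUB : St_SUB where
  sub := by
    intro V _ G Z W
    obtain ⟨h1, h2⟩ := ncard_pair (union_subset bd_inter bd_union) (bd_both (G := G) (Z := Z) (W := W))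
    have a := ed_le (G := G) (bd G Z)
    have b := ed_le (G := G) (bd G W)
    have c := ed_le (G := G) (bd G (Z ∩ W))
    have d := ed_le (G := G) (bd G (Z ∪ W))
    unfold lam ord
    rcases h1.lt_or_eq with h | h
    · have := Nat.mul_le_mul_left (2 * G.edgeSet.ncard + 1) (Nat.succ_le_of_lt h)
      simp only [Nat.succ_eq_add_one, mul_add, mul_one] at this
      omega
    · have h3 := h2 h
      have h4 : ed G (bd G Z) + ed G (bd G W) ≤ ed G (bd G (Z ∩ W)) + ed G (bd G (Z ∪ W)) := by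
        refine (ncard_pair ?_ ?_).1
        · rintro e (⟨k1, k2⟩ | ⟨k1, k2⟩)
          · exact (edge_corner h3 k1 k2).imp (fun k => ⟨k1, k⟩) fun k => ⟨k1, k⟩
          · have := edge_corner (Z := W) (W := Z) (by
              rwa [inter_comm (bd G W), inter_comm W, union_comm W]) k1 k2
            rw [inter_comm W, union_comm W] at this
            exact this.imp (fun k => ⟨k1, k⟩) fun k => ⟨k1, k⟩
        · rintro e ⟨⟨k1, k2⟩, -, k3⟩
          exact ⟨⟨k1, fun v hv => (h3 ⟨k2 v hv, k3 v hv⟩).1⟩,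
            k1, fun v hv => (h3 ⟨k2 v hv, k3 v hv⟩).2⟩
      have := congrArg (fun x => (2 * G.edgeSet.ncard + 1) * x) h
      simp only [mul_add] at this
      omega
  le := by
    intro V _ G X Y
    have a := ed_le (G := G) X
    have b := ed_le (G := G) Y
    unfold ord
    rcases lt_trichotomy X.ncard Y.ncard with h | h | h
    · have := Nat.mul_le_mul_left (2 * G.edgeSet.ncard + 1) (Nat.succ_le_of_lt h)
      simp only [Nat.succ_eq_add_one, mul_add, mul_one] at this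
      omega
    · rw [h]; omega
    · have := Nat.mul_le_mul_left (2 * G.edgeSet.ncard + 1) (Nat.succ_le_of_lt h)
      simp only [Nat.succ_eq_add_one, mul_add, mul_one] at this
      omega
  cut := by
    intro V _ G Z' Z Y hZ hS
    refine ⟨Z' ∪ {h ∈ Z | ∃ v ∈ h, v ∉ Y ∧ (v ∈ vs G Z' ∨
      v ∈ rc G ((vs G Z \ (vs G Z' \ bd G Z')) \ Y) (bd G Z'))}, subset_union_left,
      union_subset hZ fun _ h => h.1, ?_⟩
    rintro v ⟨⟨h, h1, h2, h3⟩, g, g1, g2, g3⟩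
    by_contra hv
    have vZ : v ∈ vs G Z := ⟨h, h1.elim (fun k => hZ k) fun k => k.1, h2, h3⟩
    have key : ∀ u ∉ Y, u ∈ vs G Z' → u ∈ vs G Z'ᶜ →
        u ∈ rc G ((vs G Z \ (vs G Z' \ bd G Z')) \ Y) (bd G Z') := fun u k1 k2 k3 =>
      rc_self ⟨k2, k3⟩ ⟨⟨vs_mono hZ k2, fun k => k.2 ⟨k2, k3⟩⟩, k1⟩
    have vB : v ∈ vs G Z' ∨ v ∈ rc G ((vs G Z \ (vs G Z' \ bd G Z')) \ Y) (bd G Z') := by
      by_cases k0 : v ∈ vs G Z'
      · exact .inl k0
      have k1 : h ∉ Z' := fun k => k0 ⟨h, k, h2, h3⟩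
      obtain ⟨-, u, u1, u2, u3⟩ := h1.resolve_left k1
      by_cases e : u = v
      · exact e ▸ u3
      exact .inr (rc_adj (u3.elim (fun k => key u u2 k ⟨h, k1, h2, u1⟩) id) (hy_adj h2 u1 h3 e)
        ⟨⟨vZ, fun k => k0 k.1⟩, hv⟩)
    have gZ : g ∉ Z := fun k => g1 (.inr ⟨k, v, g3, hv, vB⟩)
    obtain ⟨b, hb, r⟩ := vB.elim (fun k => key v hv k ⟨g, fun k => gZ (hZ k), g2, g3⟩) id
    exact hS v ⟨vZ, g, gZ, g2, g3⟩ b hb r.symm

end Pool.Agent.Lib.IM
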