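import Pool.Agent.Lib.IM.Cont
import Pool.Agent.Lib.IM.Men
import Pool.Agent.Lib.IM.Sub

/-! Bounded width without a large double fan. -/

open Set Function

namespace Pool.Agent.Lib.IM

variable {V : Type} {G : SimpleGraph V} {w : ℕ} {C X U : Set V}

/-- The outer neighbours. -/
def Nb (G : SimpleGraph V) (C : Set V) : Set V := nb G C \ C

/-- The edges and vertices that meet `C`. -/
def hE (G : SimpleGraph V) (C : Set V) : Set (Sym2 V) := {e ∈ hy G | ∃ v ∈ e, v ∈ C}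

/-- Decomposable sets. -/
def Dc (G : SimpleGraph V) (w : ℕ) (Z : Set (Sym2 V)) : Prop :=
  ∃ T : Tr (Sym2 V), T.set = Z ∧ T.Ok fun Z => (bd G Z).ncard ≤ w

theorem bd_hE : bd G (hE G C) ⊆ Nb G C := by
  rintro v ⟨⟨h, ⟨-, u, u1, u2⟩, h2, h3⟩, g, g1, g2, g3⟩
  have : v ∉ C := fun k => g1 ⟨g2, v, g3, k⟩
  exact ⟨⟨u, u2, hy_adj h2 h3 u1 fun e => this (e ▸ u2)⟩, this⟩

theorem Dc.union [Finite V] {Z W : Set (Sym2 V)} (h : Dc G w Z) (h' : Dc G w W) (d : Disjoint Z W)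
    (b : bd G Z ⊆ X) (b' : bd G W ⊆ X) (hX : X.ncard ≤ w) : Dc G w (Z ∪ W) := by
  obtain ⟨T, rfl, h⟩ := h
  obtain ⟨T', rfl, h'⟩ := h'
  exact ⟨.node T T', rfl, h, h', d,
    (Set.ncard_le_ncard (bd_union.trans (union_subset b b')) (toFinite _)).trans hX⟩

theorem dc_small [Finite V] {Z : Set (Sym2 V)} (hX : X.ncard ≤ w) (h : ∀ e ∈ Z, ∀ v ∈ e, v ∈ X) :
    Dc G w Z := by
  have b : ∀ {Z : Set (Sym2 V)}, (∀ e ∈ Z, ∀ v ∈ e, v ∈ X) → bd G Z ⊆ X :=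
    fun h v ⟨⟨e, e1, _, e2⟩, _⟩ => h e e1 v e2
  have hf := toFinite Z
  induction Z, hf using Set.Finite.induction_on with
  | empty => exact ⟨.leaf ∅, rfl, subsingleton_empty,
      (Set.ncard_le_ncard (b h) (toFinite _)).trans hX⟩
  | @insert e Z he _ ih =>
    have h1 : ∀ g ∈ ({e} : Set (Sym2 V)), ∀ v ∈ g, v ∈ X := fun g k => h g (.inl k)
    have h2 : ∀ g ∈ Z, ∀ v ∈ g, v ∈ X := fun g k => h g (.inr k)
    exact Dc.union (Z := {e}) ⟨.leaf {e}, rfl, subsingleton_singleton,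
      (Set.ncard_le_ncard (b h1) (toFinite _)).trans hX⟩ (ih h2) (disjoint_singleton_left.2 he)
      (b h1) (b h2) hX

theorem dc_glue [Finite V] {C₁ C₂ : Set V} (h₁ : Dc G w (hE G C₁)) (h₂ : Dc G w (hE G C₂))
    (s₁ : C₁ ⊆ C) (s₂ : C₂ ⊆ C) (d : Disjoint C₁ C₂) (t : ¬ Tc G C₁ C₂) (n₁ : Nb G C₁ ⊆ X)
    (n₂ : Nb G C₂ ⊆ X) (n : Nb G C ⊆ X) (r : C \ (C₁ ∪ C₂) ⊆ X) (hX : X.ncard ≤ w) :
    Dc G w (hE G C) := by
  have k : ∀ e ∈ hE G C \ (hE G C₁ ∪ hE G C₂), ∀ v ∈ e, v ∈ X := by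
    rintro e ⟨⟨e1, u, u1, u2⟩, e2⟩ v hv
    by_cases k : v ∈ C
    · exact r ⟨k, fun k' => e2 (k'.imp (fun k' => ⟨e1, v, hv, k'⟩) fun k' => ⟨e1, v, hv, k'⟩)⟩
    · exact n ⟨⟨u, u2, hy_adj e1 hv u1 fun e => k (e ▸ u2)⟩, k⟩
  have := (h₁.union h₂ (Set.disjoint_left.2 fun e ⟨e1, u, u1, u2⟩ ⟨_, v, v1, v2⟩ =>
    t ⟨u, u2, v, v2, hy_adj e1 u1 v1 fun k => Set.disjoint_left.1 d u2 (k ▸ v2)⟩)
    (bd_hE.trans n₁) (bd_hE.trans n₂) hX).union (dc_small hX k) disjoint_sdiff_right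
    (bd_union.trans (union_subset (bd_hE.trans n₁) (bd_hE.trans n₂)))
    (fun v ⟨⟨e, e1, _, e2⟩, _⟩ => k e e1 v e2) hX
  rwa [union_sdiff_cancel] at this
  exact union_subset (fun e ⟨e1, u, u1, u2⟩ => ⟨e1, u, u1, s₁ u2⟩)
    fun e ⟨e1, u, u1, u2⟩ => ⟨e1, u, u1, s₂ u2⟩

/-- An interval of the outer part. -/
def Iv (U : Set V) (ρ : V → ℕ) (a b : ℕ) : Set V := {v ∈ U | a ≤ ρ v ∧ ρ v ≤ b}

/-- The invariant of the recursion. -/
structure Inv (G : SimpleGraph V) (C U : Set V) (ρ : V → ℕ) : Prop where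
  dis : Disjoint U C
  sub : Nb G C ⊆ U
  inj : InjOn ρ (Nb G C)
  con : ∀ a b, ∀ u ∈ Iv U ρ a b, ∀ v ∈ Iv U ρ a b, R G (Iv U ρ a b) u v

theorem nb_del {u : V} : Nb G (C \ {u}) ⊆ insert u (Nb G C) := by
  rintro v ⟨⟨c, c1, c2⟩, h⟩
  by_cases e : v = u
  · exact .inl e
  · exact .inr ⟨⟨c, c1.1, c2⟩, fun k => h ⟨k, e⟩⟩

theorem Inv.grow [Finite V] {ρ : V → ℕ} (h : Inv G C U ρ) (hC : C.Nonempty) :
    ∃ u ∈ C, ∃ U' ρ', Inv G (C \ {u}) U' ρ' := by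
  classical
  rcases (Nb G C).eq_empty_or_nonempty with e | e
  · obtain ⟨u, hu⟩ := hC
    have : Nb G (C \ {u}) ⊆ {u} := by simpa [e] using nb_del (G := G) (C := C) (u := u)
    refine ⟨u, hu, {u}, ρ, disjoint_sdiff_right, this,
      (subsingleton_singleton.anti this).injOn _, fun a b x hx y hy => ?_⟩
    rw [show y = x from hy.1.trans hx.1.symm]
    exact R.refl hx
  obtain ⟨x, hx, hm⟩ := Set.exists_max_image _ ρ (toFinite _) e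
  obtain ⟨u, hu, xu⟩ := hx.1
  have up : ∀ v, v ∉ C → update ρ u (ρ x + 1) v = ρ v := fun v k =>
    update_of_ne (fun e : v = u => k (e ▸ hu)) _ _
  have UC : ∀ v ∈ U, v ∉ C := fun v k => Set.disjoint_left.1 h.dis k
  refine ⟨u, hu, insert u {v ∈ U | ρ v ≤ ρ x}, update ρ u (ρ x + 1), ?_,
    nb_del.trans (insert_subset_insert fun v k => ⟨h.sub k, hm v k⟩), InjOn.mono nb_del ?_,
    fun a b => ?_⟩
  · rw [Set.disjoint_left]
    rintro v (k | k) k'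
    · exact k'.2 k
    · exact UC v k.1 k'.1
  · rintro a (rfl | ha) b (rfl | hb) e
    · rfl
    · have := hm b hb
      rw [update_self, up b hb.2] at e; omega
    · have := hm a ha
      rw [update_self, up a ha.2] at e; omega
    · rw [up a ha.2, up b hb.2] at e; exact h.inj ha hb e
  · have sub : Iv U ρ a (min b (ρ x)) ⊆
        Iv (insert u {v ∈ U | ρ v ≤ ρ x}) (update ρ u (ρ x + 1)) a b := fun v k =>
      ⟨.inr ⟨k.1, k.2.2.trans (min_le_right _ _)⟩, by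
        rw [up v (UC v k.1)]; exact ⟨k.2.1, k.2.2.trans (min_le_left _ _)⟩⟩
    have old : ∀ v ∈ Iv (insert u {v ∈ U | ρ v ≤ ρ x}) (update ρ u (ρ x + 1)) a b, v ≠ u →
        v ∈ Iv U ρ a (min b (ρ x)) := fun v k e => by
      have k1 := k.1.resolve_left e
      have k2 := k.2
      rw [update_of_ne e] at k2
      exact ⟨k1.1, k2.1, le_min k2.2 k1.2⟩
    have one : ∀ v ∈ Iv U ρ a (min b (ρ x)),
        u ∈ Iv (insert u {v ∈ U | ρ v ≤ ρ x}) (update ρ u (ρ x + 1)) a b →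
        R G (Iv (insert u {v ∈ U | ρ v ≤ ρ x}) (update ρ u (ρ x + 1)) a b) v u := fun v k k' => by
      have k2 := k'.2
      have k3 := k.2
      rw [update_self] at k2
      exact ((h.con _ _ v k x ⟨h.sub hx, by omega, by omega⟩).mono sub).tail xu k'
    intro p hp q hq
    by_cases e : p = u <;> by_cases e' : q = u
    · rw [e'.trans e.symm]; exact R.refl hp
    · rw [e] at hp ⊢; exact (one q (old q hq e') hp).symm
    · rw [e'] at hq ⊢; exact one p (old p hp e) hq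
    · exact (h.con _ _ p (old p hp e) q (old q hq e')).mono sub

/-- The edges that meet `C`. -/
def ext (G : SimpleGraph V) (C : Set V) : SimpleGraph V where
  Adj a b := G.Adj a b ∧ (a ∈ C ∨ b ∈ C)
  symm := ⟨fun _ _ h => ⟨h.1.symm, h.2.symm⟩⟩
  loopless := ⟨fun _ h => h.1.ne rfl⟩

theorem ext_le : ext G C ≤ G := fun _ _ h => h.1

theorem Inv.side [Finite V] {ρ : V → ℕ} {Y Z S C' K : Set V} (h : Inv G C U ρ) (hY : Y ⊆ Nb G C)
    (hZ : Z ⊆ Nb G C) (hK : ∀ v, v ∈ K ↔ v ∈ C ∨ v ∈ Y ∨ v ∈ Z) (SK : S ⊆ K)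
    (hS : Sp (ext G C) K Y Z S) (hm : ∀ S' ⊆ K, Sp (ext G C) K Y Z S' → S.ncard ≤ S'.ncard)
    (hc : S.ncard ≤ Y.ncard) (hC : C' ⊆ (C \ S) \ rc (ext G C) (K \ S) Y)
    (cl : Nb G C' ⊆ Nb G C ∪ S) :
    (Nb G C').ncard ≤ (Nb G C).ncard ∧ ∃ U' ρ', Inv G C' U' ρ' := by
  classical
  set D := rc (ext G C) (K \ S) Y with hD
  have DK : D ∪ S ⊆ K := union_subset (fun _ k => (rc_sub k).1) SK
  have nY : ∀ v ∈ Nb G C', v ∈ Y → v ∈ S := by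
    rintro v ⟨⟨c, c1, c2⟩, -⟩ k
    by_contra k'
    exact (hC c1).2 (rc_adj (rc_self k ⟨(hK v).2 (.inr (.inl k)), k'⟩) ⟨c2, .inr (hC c1).1.1⟩
      ⟨(hK c).2 (.inl (hC c1).1.1), (hC c1).1.2⟩)
  constructor
  · have h1 : Nb G C' ⊆ Nb G C \ Y ∪ S := fun v k => by
      by_cases e : v ∈ S
      · exact .inr e
      · exact .inl ⟨(cl k).resolve_right e, fun k' => e (nY v k k')⟩
    have h2 := Set.ncard_le_ncard h1 (toFinite _)
    have h3 := Set.ncard_union_le (Nb G C \ Y) S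
    have h4 := Set.ncard_sdiff_add_ncard_of_subset hY (toFinite _)
    omega
  obtain ⟨Q, hQ, dQ⟩ := bMEN V (ext G C) (D ∪ S) Y S S.ncard fun Y₀ h1 h2 =>
    hm Y₀ (h1.trans DK) fun a ha b hb r => by
      have key : R (ext G C) ((D ∪ S) \ Y₀) a b := by
        refine r.ind (P := fun v => R (ext G C) ((D ∪ S) \ Y₀) a v) (R.refl ⟨?_, r.1.2⟩)
          fun v v' _ ih vv hv => ih.tail vv ⟨?_, hv.2⟩
        · by_cases k : a ∈ S
          · exact .inr k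
          · exact .inl (rc_self ha ⟨r.1.1, k⟩)
        · by_cases k : v' ∈ S
          · exact .inr k
          · exact .inl (rc_adj (ih.right.1.resolve_right fun k => h2 a ha v k ih) vv ⟨hv.1, k⟩)
      rcases key.right.1 with ⟨a', ha', r'⟩ | k
      · exact hS a' ha' b hb r'
      · exact h2 a ha b k key
  choose q hq using fun i => (hQ i).2.2.2
  have cq : range q = S := cover (toFinite _) (inj_of_dis (fun i => (hq i).1) dQ)
    (fun i => (hq i).2) le_rfl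
  have : ∀ i, ∃ y P, q i ∈ C → y ∈ Q i ∧ y ∈ Y ∧ y ∉ S ∧ P ⊆ Q i ∩ C ∧ q i ∈ P ∧
      ∀ v ∈ P, R G (insert y P) v y := by
    intro i
    by_cases k : q i ∈ C
    swap
    · exact ⟨q i, ∅, fun k' => absurd k' k⟩
    obtain ⟨y, y1, y2⟩ := (hQ i).2.2.1
    obtain ⟨a, b, a1, a2, ab, r⟩ := ((hQ i).1.2 y y1 _ (hq i).1).last (T := Cᶜ) (hY y2).2
      fun k' => k' k
    have aS : a ∉ S := fun k' => by
      obtain ⟨j, rfl⟩ : a ∈ range q := cq.ge k'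
      exact a2 (eq_of_dis dQ (hq j).1 a1 ▸ k)
    obtain ⟨a', a3, a4⟩ := ((hQ i).2.1 a1).resolve_right aS
    refine ⟨a, rc (ext G C) (Q i \ Cᶜ) {b}, fun _ => ⟨a1, ?_, aS,
      fun v k => ⟨(rc_sub k).1, not_not.1 (rc_sub k).2⟩, mem_rc1.2 r, fun v k => ?_⟩⟩
    · rcases (hK a).1 a4.right.1 with k' | k' | k'
      · exact absurd k' a2
      · exact k'
      · exact absurd a4 (hS a' a3 a k')
    · exact (((((mem_rc1.1 k).in_rc (A := {b}) rfl).symm.monoG ext_le).mono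
        (subset_insert _ _)).tail ab.1.symm (.inl rfl))
  choose y P hP using this
  obtain ⟨ρ', r1, r2⟩ : ∃ ρ' : V → ℕ, (∀ v, v ∉ C → ρ' v = ρ v) ∧
      ∀ i, q i ∈ C → ∀ v ∈ P i, ρ' v = ρ (y i) := by
    refine ⟨fun v => if k : ∃ i, q i ∈ C ∧ v ∈ P i then ρ (y k.choose) else ρ v, fun v hv =>
      dif_neg fun ⟨i, i1, i2⟩ => hv ((hP i i1).2.2.2.1 i2).2, fun i i1 v hv => ?_⟩
    have k : ∃ i, q i ∈ C ∧ v ∈ P i := ⟨i, i1, hv⟩
    simp only [dif_pos k]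
    rw [eq_of_dis dQ ((hP _ k.choose_spec.1).2.2.2.1 k.choose_spec.2).1 ((hP i i1).2.2.2.1 hv).1]
  have cs : ∀ v ∈ Nb G C', (v ∈ Nb G C ∧ (v ∈ Y → v ∈ S)) ∨ ∃ i, q i ∈ C ∧ v = q i := by
    intro v hv
    by_cases k : v ∈ Nb G C
    · exact .inl ⟨k, nY v hv⟩
    · obtain ⟨i, rfl⟩ : v ∈ range q := cq.ge ((cl hv).resolve_left k)
      refine .inr ⟨i, ?_, rfl⟩
      rcases (hK _).1 (SK (hq i).2) with k' | k' | k'
      exacts [k', absurd (hY k') k, absurd (hZ k') k]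
  have UC : ∀ v ∈ U, v ∉ C := fun v k => Set.disjoint_left.1 h.dis k
  refine ⟨U ∪ {v | ∃ i, q i ∈ C ∧ v ∈ P i}, ρ', ?_, fun v hv => ?_, fun a ha b hb e => ?_,
    fun a b => ?_⟩
  · rw [Set.disjoint_left]
    rintro v (k | ⟨i, i1, i2⟩) k'
    · exact UC v k (hC k').1.1
    · exact ((hQ i).2.1 ((hP i i1).2.2.2.1 i2).1).elim (hC k').2 (hC k').1.2
  · rcases cs v hv with k | ⟨i, i1, rfl⟩
    · exact .inl (h.sub k.1)
    · exact .inr ⟨i, i1, (hP i i1).2.2.2.2.1⟩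
  · rcases cs a ha with k | ⟨i, i1, rfl⟩ <;> rcases cs b hb with k' | ⟨j, j1, rfl⟩
    · rw [r1 a k.1.2, r1 b k'.1.2] at e; exact h.inj k.1 k'.1 e
    · rw [r1 a k.1.2, r2 j j1 _ (hP j j1).2.2.2.2.1] at e
      obtain rfl := h.inj k.1 (hY (hP j j1).2.1) e
      exact absurd (k.2 (hP j j1).2.1) (hP j j1).2.2.1
    · rw [r1 b k'.1.2, r2 i i1 _ (hP i i1).2.2.2.2.1] at e
      obtain rfl := h.inj (hY (hP i i1).2.1) k'.1 e
      exact absurd (k'.2 (hP i i1).2.1) (hP i i1).2.2.1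
    · rw [r2 i i1 _ (hP i i1).2.2.2.2.1, r2 j j1 _ (hP j j1).2.2.2.2.1] at e
      have := h.inj (hY (hP i i1).2.1) (hY (hP j j1).2.1) e
      rw [eq_of_dis dQ (hP i i1).1 (this ▸ (hP j j1).1)]
  · have sub : Iv U ρ a b ⊆ Iv (U ∪ {v | ∃ i, q i ∈ C ∧ v ∈ P i}) ρ' a b := fun v k =>
      ⟨.inl k.1, by rw [r1 v (UC v k.1)]; exact k.2⟩
    have old : ∀ v ∈ Iv (U ∪ {v | ∃ i, q i ∈ C ∧ v ∈ P i}) ρ' a b, ∃ u ∈ Iv U ρ a b,
        R G (Iv (U ∪ {v | ∃ i, q i ∈ C ∧ v ∈ P i}) ρ' a b) v u := by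
      rintro v ⟨k | ⟨i, i1, i2⟩, k'⟩
      · exact ⟨v, ⟨k, r1 v (UC v k) ▸ k'⟩, R.refl ⟨.inl k, k'⟩⟩
      · rw [r2 i i1 v i2] at k'
        have k1 : y i ∈ Iv U ρ a b := ⟨h.sub (hY (hP i i1).2.1), k'⟩
        exact ⟨y i, k1, ((hP i i1).2.2.2.2.2 v i2).mono (insert_subset (sub k1)
          fun u k => ⟨.inr ⟨i, i1, k⟩, by rw [r2 i i1 u k]; exact k'⟩)⟩
    intro p hp q hq
    obtain ⟨p', p1, p2⟩ := old p hp
    obtain ⟨q', q1, q2⟩ := old q hq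
    exact (p2.trans ((h.con a b p' p1 q' q1).mono sub)).trans q2.symm

theorem Inv.hubs [Finite V] {ρ : V → ℕ} (h : Inv G C U ρ) {r L : ℕ} (hL : 0 < L)
    (hc : r * L ≤ (Nb G C).ncard) : ∃ I : Fin r → Set V, (∀ i, Cn G (I i) ∧ Disjoint (I i) C ∧
      L ≤ (Nb G C ∩ I i).ncard) ∧ ∀ i j, i ≠ j → Disjoint (I i) (I j) := by
  have fin : (ρ '' Nb G C).Finite := toFinite _
  have hc' : r * L ≤ fin.toFinset.card := by
    rwa [← Set.ncard_eq_toFinset_card _ fin, h.inj.ncard_image]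
  have lt : ∀ (i : Fin r) (s : Fin L), i * L + s < r * L := fun i s => by
    have := Nat.mul_le_mul_right L (Nat.succ_le_of_lt i.2)
    have := s.2
    rw [Nat.succ_mul] at *
    omega
  set t := fin.toFinset.orderEmbOfCardLe hc' with ht
  have : ∀ s, ∃ x ∈ Nb G C, ρ x = t s := fun s =>
    fin.mem_toFinset.1 (fin.toFinset.orderEmbOfCardLe_mem hc' s)
  choose x x1 x2 using this
  have mem : ∀ (i : Fin r) (s : Fin L), x ⟨_, lt i s⟩ ∈ Iv U ρ (t ⟨_, lt i ⟨0, hL⟩⟩)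
      (t ⟨_, lt i ⟨L - 1, by omega⟩⟩) := fun i s => ⟨h.sub (x1 _), by
    rw [x2, t.le_iff_le, t.le_iff_le, Fin.mk_le_mk, Fin.mk_le_mk]
    have := s.2
    simp only
    omega⟩
  refine ⟨fun i => Iv U ρ (t ⟨_, lt i ⟨0, hL⟩⟩) (t ⟨_, lt i ⟨L - 1, by omega⟩⟩), fun i =>
    ⟨⟨⟨_, mem i ⟨0, hL⟩⟩, h.con _ _⟩, h.dis.mono_left fun _ k => k.1, ?_⟩, fun i j ij => ?_⟩
  · have inj : Injective fun s : Fin L => x ⟨_, lt i s⟩ := fun s s' e => by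
      have := t.injective ((x2 _).symm.trans ((congrArg ρ e).trans (x2 _)))
      simp only [Fin.mk.injEq] at this
      exact Fin.ext (by omega)
    have := Set.ncard_le_ncard ((range_subset_iff (f := fun s : Fin L => x ⟨_, lt i s⟩)).2
      fun s => mem_inter (x1 _) (mem i s)) (toFinite _)
    rwa [Set.ncard_range_of_injective inj, Nat.card_eq_fintype_card, Fintype.card_fin] at this
  · rw [Set.disjoint_left]
    rintro v ⟨-, a1, a2⟩ ⟨-, b1, b2⟩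
    have c1 := t.le_iff_le.1 (a1.trans b2)
    have c2 := t.le_iff_le.1 (b1.trans a2)
    simp only [Fin.mk_le_mk] at c1 c2
    rcases lt_or_gt_of_ne ij with k | k
    · have := Nat.mul_le_mul_right L (Nat.succ_le_of_lt (show i.val < j.val from k))
      rw [Nat.succ_mul] at this
      omega
    · have := Nat.mul_le_mul_right L (Nat.succ_le_of_lt (show j.val < i.val from k))
      rw [Nat.succ_mul] at this
      omega

theorem inner_path {Y Z Q : Set V} (hY : Y ⊆ Nb G C) (hZ : Z ⊆ Nb G C) (d : Disjoint Y Z)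
    (c : Cn (ext G C) Q) (s : Q ⊆ C ∪ (Y ∪ Z)) (y : (Q ∩ Y).Nonempty) (z : (Q ∩ Z).Nonempty) :
    ∃ P, P ⊆ Q ∧ Cn G P ∧ P ⊆ C ∧ Tc G P Y ∧ Tc G P Z := by
  obtain ⟨y, y1, y2⟩ := y
  obtain ⟨z, z1, z2⟩ := z
  obtain ⟨a, b, -, a2, ab, r⟩ := (c.2 y y1 z z1).last y2 (Set.disjoint_right.1 d z2)
  have bC : b ∈ C := ab.2.resolve_left (hY a2).2
  obtain ⟨p, q, r', pq, q1, q2, -⟩ := r.exit bC (hZ z2).2
  exact ⟨rc (ext G C) ((Q \ Y) ∩ C) {b}, fun _ k => (rc_sub k).1.1, (cn_rc1 r'.1).monoG ext_le,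
    fun _ k => (rc_sub k).2, ⟨b, rc_self rfl r'.1, a, a2, ab.1.symm⟩, p, mem_rc1.2 r', q,
    ((s q1.1).resolve_left q2).resolve_left q1.2, pq.1⟩

theorem bDEC : St_DEC := by
  intro n
  obtain ⟨L, hL, hKR⟩ := bKR n
  refine ⟨(n + 2) * L + L, fun V _ G hno => ?_⟩
  suffices H : ∀ m (C U : Set V) ρ, C.ncard = m → Inv G C U ρ → (Nb G C).ncard ≤ (n + 2) * L →
      Dc G ((n + 2) * L + L) (hE G C) by
    have e : Nb G univ = ∅ := by simp [Nb]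
    have := H _ univ ∅ (fun _ => 0) rfl ⟨empty_disjoint _, e.subset, e ▸ injOn_empty _,
      fun _ _ _ h => h.1.elim⟩ (by simp [e])
    rwa [show hE G univ = hy G from Subset.antisymm (fun _ h => h.1)
      fun e h => ⟨h, e.out.1, Sym2.out_fst_mem e, trivial⟩] at this
  intro m
  induction m using Nat.strong_induction_on with
  | _ m ih =>
  intro C U ρ hm h hc
  have emp : Dc G ((n + 2) * L + L) (hE G ∅) :=
    dc_small (X := ∅) (by simp) fun e ⟨_, _, _, k⟩ => k.elim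
  rcases C.eq_empty_or_nonempty with rfl | hC
  · exact emp
  rcases hc.lt_or_eq with hc | hc
  · obtain ⟨u, hu, U', ρ', h'⟩ := h.grow hC
    have k1 := Set.ncard_insert_le u (Nb G C)
    refine dc_glue (X := insert u (Nb G C)) (ih _ (hm ▸ Set.ncard_lt_ncard ⟨sdiff_subset,
      fun k => (k hu).2 rfl⟩ (toFinite _)) _ U' ρ' rfl h'
      ((Set.ncard_le_ncard nb_del (toFinite _)).trans (by omega))) emp sdiff_subset (empty_subset _)
      (disjoint_empty _) (fun ⟨_, _, _, k, _⟩ => k.elim) nb_del (fun _ ⟨⟨_, k, _⟩, _⟩ => k.elim)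
      (subset_insert _ _) (fun v k => .inl (by_contra fun e => k.2 (.inl ⟨k.1, e⟩))) (by omega)
  obtain ⟨I, hI, dI⟩ := h.hubs hL hc.ge
  obtain ⟨i, j, ij, S₀, hS₀⟩ : ∃ i j, i ≠ j ∧ ∃ S, (S ⊆ C ∪ (Nb G C ∩ I i ∪ Nb G C ∩ I j) ∧
      Sp (ext G C) (C ∪ (Nb G C ∩ I i ∪ Nb G C ∩ I j)) (Nb G C ∩ I i) (Nb G C ∩ I j) S) ∧
      S.ncard < L := by
    by_contra k
    push Not at k
    refine hno (hKR V G C I (fun i => ⟨(hI i).1, (hI i).2.1⟩) dI fun i j ij => ?_)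
    obtain ⟨Q, q1, q2⟩ := bMEN V (ext G C) _ _ _ L fun Y h1 h2 => k i j ij Y ⟨h1, h2⟩
    choose P p1 p2 p3 p4 p5 using fun s => inner_path inter_subset_left inter_subset_left
      ((dI i j ij).mono inter_subset_right inter_subset_right) (q1 s).1 (q1 s).2.1 (q1 s).2.2.1
      (q1 s).2.2.2
    exact ⟨P, fun s => ⟨p2 s, p3 s, (p4 s).mono Subset.rfl inter_subset_right,
      (p5 s).mono Subset.rfl inter_subset_right⟩, fun s t st => (q2 s t st).mono (p1 s) (p1 t)⟩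
  have cY := (hI i).2.2
  have cZ := (hI j).2.2
  have hY : Nb G C ∩ I i ⊆ Nb G C := inter_subset_left
  have hZ : Nb G C ∩ I j ⊆ Nb G C := inter_subset_left
  generalize Nb G C ∩ I i = Y at *
  generalize Nb G C ∩ I j = Z at *
  obtain ⟨S, ⟨SK, hS⟩, hm'⟩ := (measure Set.ncard).wf.has_min
    {S | S ⊆ C ∪ (Y ∪ Z) ∧ Sp (ext G C) (C ∪ (Y ∪ Z)) Y Z S} ⟨S₀, hS₀.1⟩
  have mn : ∀ S' ⊆ C ∪ (Y ∪ Z), Sp (ext G C) (C ∪ (Y ∪ Z)) Y Z S' → S.ncard ≤ S'.ncard :=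
    fun S' k1 k2 => not_lt.1 (hm' S' ⟨k1, k2⟩)
  have SL : S.ncard < L := (mn _ hS₀.1.1 hS₀.1.2).trans_lt hS₀.2
  set D := rc (ext G C) ((C ∪ (Y ∪ Z)) \ S) Y with hD
  have DZ : ∀ v ∈ D, v ∉ rc (ext G C) ((C ∪ (Y ∪ Z)) \ S) Z :=
    fun v ⟨a, ha, r⟩ ⟨b, hb, r'⟩ => hS a ha b hb (r.trans r'.symm)
  have step : ∀ a ∈ D, ∀ c ∈ C, c ∉ S → G.Adj a c → c ∈ D := fun a k c k1 k2 k3 =>
    rc_adj k ⟨k3, .inr k1⟩ ⟨.inl k1, k2⟩
  have n1 : Nb G ((C \ S) \ D) ⊆ Nb G C ∪ S := by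
    rintro v ⟨⟨c, c1, c2⟩, k⟩
    by_cases e : v ∈ C
    · exact .inr (by_contra fun e' => k ⟨⟨e, e'⟩, fun k' => c1.2 (step v k' c c1.1.1 c1.1.2 c2)⟩)
    · exact .inl ⟨⟨c, c1.1.1, c2⟩, e⟩
  have n2 : Nb G (C ∩ D) ⊆ Nb G C ∪ S := by
    rintro v ⟨⟨c, c1, c2⟩, k⟩
    by_cases e : v ∈ C
    · exact .inr (by_contra fun e' => k ⟨e, step c c1.2 v e e' c2.symm⟩)
    · exact .inl ⟨⟨c, c1.1, c2⟩, e⟩
  obtain ⟨a1, U₁, ρ₁, a2⟩ := h.side hY hZ (fun v => Iff.rfl) SK hS mn (by omega) Subset.rfl n1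
  obtain ⟨b1, U₂, ρ₂, b2⟩ := h.side (C' := C ∩ D) hZ hY (fun v => by simp only [mem_union]; tauto)
    SK hS.symm (fun S' k1 k2 => mn S' k1 k2.symm) (by omega)
    (fun v k => ⟨⟨k.1, (rc_sub k.2).2⟩, DZ v k.2⟩) n2
  have ex : ∀ W : Set V, L ≤ W.ncard → ∃ y ∈ W, y ∉ S := fun W k => by
    by_contra k'
    push Not at k'
    have := Set.ncard_le_ncard (show W ⊆ S from k') (toFinite _)
    omega
  obtain ⟨y, y1, y2⟩ := ex Y cY
  obtain ⟨z, z1, z2⟩ := ex Z cZ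
  obtain ⟨c, c1, c2⟩ := (hY y1).1
  obtain ⟨d, d1, d2⟩ := (hZ z1).1
  have k1 := Set.ncard_union_le (Nb G C) S
  refine dc_glue (X := Nb G C ∪ S)
    (ih _ (hm ▸ Set.ncard_lt_ncard ⟨fun _ k => k.1.1, fun k => (k c1).2 (step y
      (rc_self y1 ⟨.inr (.inl y1), y2⟩) c c1 (k c1).1.2 c2)⟩ (toFinite _)) _ U₁ ρ₁ rfl a2 (by omega))
    (ih _ (hm ▸ Set.ncard_lt_ncard ⟨inter_subset_left, fun k => DZ d (k d1).2 (rc_adj
      (rc_self z1 ⟨.inr (.inr z1), z2⟩) ⟨d2, .inr d1⟩ (rc_sub (k d1).2))⟩ (toFinite _)) _ U₂ ρ₂ rfl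
      b2 (by omega)) (fun _ k => k.1.1) inter_subset_left
    (Set.disjoint_left.2 fun v k k' => k.2 k'.2)
    (fun ⟨p, p1, q, q1, pq⟩ => p1.2 (step q q1.2 p p1.1.1 p1.1.2 pq.symm)) n1 n2 subset_union_left
    (fun v k => .inr (by_contra fun e => k.2 ?_)) (by omega)
  by_cases e' : v ∈ D
  · exact .inr ⟨k.1, e'⟩
  · exact .inl ⟨⟨k.1, e⟩, e'⟩

end Pool.Agent.Lib.IM
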