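import Pool.Agent.Lib.IM.SDefs

/-! Working definitions: reachability, models, rails, gadgets, decomposition trees. -/

open Set Function

namespace Pool.Agent.Lib.IM

section
variable {V : Type} (G : SimpleGraph V)

/-- `v` is reached from `u` inside `S`. -/
def R (S : Set V) (u v : V) : Prop :=
  u ∈ S ∧ Relation.ReflTransGen (fun a b => G.Adj a b ∧ b ∈ S) u v

/-- Connected nonempty set. -/
def Cn (S : Set V) : Prop := S.Nonempty ∧ ∀ u ∈ S, ∀ v ∈ S, R G S u v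

/-- An edge joins the two sets. -/
def Tc (S T : Set V) : Prop := ∃ u ∈ S, ∃ v ∈ T, G.Adj u v

/-- `Y` separates `A` from `B` inside `S`. -/
def Sp (S A B Y : Set V) : Prop := ∀ a ∈ A, ∀ b ∈ B, ¬ R G (S \ Y) a b

/-- A path `g 0, …, g N`. -/
def IsP (g : ℕ → V) (N : ℕ) : Prop := InjOn g (Iic N) ∧ ∀ i < N, G.Adj (g i) (g (i + 1))

/-- The vertex set of a path. -/
def PS (S : Set V) : Prop := ∃ g N, IsP G g N ∧ S = g '' Iic N

/-- A minor model of the pattern `E` on `0, …, m - 1`. -/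
def Mn (E : ℕ → ℕ → Prop) (m : ℕ) : Prop :=
  ∃ φ : ℕ → Set V, (∀ i < m, Cn G (φ i)) ∧ (∀ i < m, ∀ j < m, i ≠ j → Disjoint (φ i) (φ j)) ∧
    ∀ i < m, ∀ j < m, i ≠ j → E i j → Tc G (φ i) (φ j)

/-- The number of edges inside `Y`. -/
noncomputable def ed (Y : Set V) : ℕ := {e ∈ G.edgeSet | ∀ v ∈ e, v ∈ Y}.ncard

/-- Rails from `x` to `x'` inside `H`. -/
structure Lk (H : Set V) {k : ℕ} (x x' : Fin k → V) (Q : Fin k → Set V) : Prop where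
  cn : ∀ j, Cn G (Q j)
  sub : ∀ j, Q j ⊆ H
  dis : ∀ i j, i ≠ j → Disjoint (Q i) (Q j)
  l : ∀ j, x j ∈ Q j
  r : ∀ j, x' j ∈ Q j

/-- A four-cycle of connected sets from `x` to `x'` inside `K` whose middle sets meet `N`. -/
def Blk (K N : Set V) (x x' : V) : Prop :=
  ∃ c z z' c' : Set V, (Cn G c ∧ Cn G z ∧ Cn G z' ∧ Cn G c') ∧ (c ⊆ K ∧ z ⊆ K ∧ z' ⊆ K ∧ c' ⊆ K) ∧
    (Disjoint c z ∧ Disjoint c z' ∧ Disjoint c c' ∧ Disjoint z z' ∧ Disjoint z c' ∧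
      Disjoint z' c') ∧ (Tc G c z ∧ Tc G c z' ∧ Tc G z c' ∧ Tc G z' c') ∧
    x ∈ c ∧ x' ∈ c' ∧ (z ∩ N).Nonempty ∧ (z' ∩ N).Nonempty

/-- The vertices with a neighbour in `S`. -/
def nb (S : Set V) : Set V := {v | ∃ u ∈ S, G.Adj v u}

/-- A complete link between `{x, y}` and `{x', y'}` on two rails. -/
def Crs (P P' : Set V) (x x' y y' : V) : Prop :=
  ∃ s s' t t' : Set V, (Cn G s ∧ Cn G s' ∧ Cn G t ∧ Cn G t') ∧
    (s ⊆ P ∧ s' ⊆ P ∧ t ⊆ P' ∧ t' ⊆ P') ∧ (Disjoint s s' ∧ Disjoint t t') ∧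
    (Tc G s s' ∧ Tc G s t' ∧ Tc G t s' ∧ Tc G t t') ∧ x ∈ s ∧ x' ∈ s' ∧ y ∈ t ∧ y' ∈ t'

/-- The three gadgets. -/
def Gad {k : ℕ} (x x' : Fin k → V) (Q : Fin k → Set V) : Prop :=
  ∃ j a, j ≠ a ∧ ((∃ b, j ≠ b ∧ a ≠ b ∧ x j ≠ x' j ∧ Tc G (Q j) (Q a) ∧ Tc G (Q j) (Q b)) ∨
    Crs G (Q j) (Q a) (x j) (x' j) (x a) (x' a) ∨ Blk G (Q j) (nb G (Q a)) (x j) (x' j))

/-- Rails touch only where the lower ends are adjacent. -/
def Clean {k : ℕ} (x' : Fin k → V) (Q : Fin k → Set V) : Prop :=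
  ∀ i j, i ≠ j → Tc G (Q i) (Q j) → G.Adj (x' i) (x' j)

/-- Edges and single vertices. -/
def hy : Set (Sym2 V) := {e | e ∈ G.edgeSet ∨ e.IsDiag}

/-- The vertices covered by `Z`. -/
def vs (Z : Set (Sym2 V)) : Set V := {v | ∃ e ∈ Z, e ∈ hy G ∧ v ∈ e}

/-- The boundary of `Z`. -/
def bd (Z : Set (Sym2 V)) : Set V := vs G Z ∩ vs G Zᶜ

/-- The order of a vertex set: size first, then many edges inside is small. -/
noncomputable def ord (Y : Set V) : ℕ :=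
  (2 * G.edgeSet.ncard + 1) * Y.ncard + (G.edgeSet.ncard - ed G Y)

/-- The connectivity function. -/
noncomputable def lam (Z : Set (Sym2 V)) : ℕ := ord G (bd G Z)

/-- A rooted piece is the union of two rooted pieces. -/
structure Split (B X B₁ X₁ B₂ X₂ : Set V) : Prop where
  un : B = B₁ ∪ B₂
  int : B₁ ∩ B₂ ⊆ X₁ ∩ X₂
  s₁ : X₁ ⊆ B₁
  s₂ : X₂ ⊆ B₂
  c₁ : ∀ u ∈ B₁ \ X₁, ∀ v, G.Adj u v → v ∈ B₁
  c₂ : ∀ u ∈ B₂ \ X₂, ∀ v, G.Adj u v → v ∈ B₂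
  rt : X ⊆ X₁ ∪ X₂

end

/-- `x` lists the set `X` without repetition. -/
def En {V : Type} {k : ℕ} (x : Fin k → V) (X : Set V) : Prop := Injective x ∧ range x = X

/-- The pattern of the double fan. -/
def EA (u v : ℕ) : Prop := (u ≤ 1 ∧ 2 ≤ v) ∨ (2 ≤ u ∧ v = u + 1)

/-- The pattern of the lozenge chain. -/
def EB (u v : ℕ) : Prop := v / 2 = u / 2 + 1

/-- The pattern of the hub chain. -/
def EC (u v : ℕ) : Prop := v % 3 ≠ 1 ∧ (u = 0 ∨ (u % 3 = 1 ∧ 2 ≤ v ∧ u ≤ v + 2 ∧ v ≤ u + 2))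

/-- An induced model of `G[B]` in `G'[B']`. -/
structure RM {V V' : Type} (G : SimpleGraph V) (B : Set V) (G' : SimpleGraph V') (B' : Set V')
    (φ : V → Set V') : Prop where
  cn : ∀ v ∈ B, Cn G' (φ v)
  sub : ∀ v ∈ B, φ v ⊆ B'
  dis : ∀ u ∈ B, ∀ v ∈ B, u ≠ v → Disjoint (φ u) (φ v)
  adj : ∀ u ∈ B, ∀ v ∈ B, u ≠ v → (G.Adj u v ↔ Tc G' (φ u) (φ v))

/-- Rooted pieces of finite graphs. -/
structure RG where
  n : ℕ
  G : SimpleGraph (Fin n)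
  B : Set (Fin n)
  X : Set (Fin n)

/-- Rooted induced minors. -/
def RG.le (a b : RG) : Prop :=
  ∀ (k : ℕ) (x : Fin k → Fin a.n), En x a.X → ∃ x' : Fin k → Fin b.n, En x' b.X ∧
    ∃ φ, RM a.G a.B b.G b.B φ ∧ ∀ j, x' j ∈ φ (x j)

/-- Binary trees of sets. -/
inductive Tr (α : Type) : Type
  | leaf (Z : Set α) : Tr α
  | node (a b : Tr α) : Tr α

namespace Tr
variable {α : Type}

/-- The set displayed by a tree. -/
def set : Tr α → Set α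
  | leaf Z => Z
  | node a b => a.set ∪ b.set

/-- Leaves have at most one element, children are disjoint, every displayed set satisfies `P`. -/
def Ok (P : Set α → Prop) : Tr α → Prop
  | leaf Z => Z.Subsingleton ∧ P Z
  | node a b => a.Ok P ∧ b.Ok P ∧ Disjoint a.set b.set ∧ P (a.set ∪ b.set)

/-- Descent through nodes of value at least `m`. -/
inductive Desc (f : Set α → ℕ) (m : ℕ) : Tr α → Tr α → Prop
  | refl (t : Tr α) : m ≤ f t.set → Desc f m t t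
  | left (a b t : Tr α) : m ≤ f (a.set ∪ b.set) → Desc f m a t → Desc f m (node a b) t
  | right (a b t : Tr α) : m ≤ f (a.set ∪ b.set) → Desc f m b t → Desc f m (node a b) t

/-- Linked trees. -/
def Lnk (f : Set α → ℕ) : Tr α → Prop
  | leaf _ => True
  | node a b => a.Lnk f ∧ b.Lnk f ∧ ∀ m t, Desc f m (node a b) t → ∀ A, t.set ⊆ A →
      A ⊆ a.set ∪ b.set → m ≤ f A

end Tr

end Pool.Agent.Lib.IM
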