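import Pool.Agent.Lib.IM.Blue

/-! The lemma on rooted trees. -/

open Set Function Relation Set.PartiallyWellOrderedOn

namespace Pool.Agent.Lib.IM

/-- The first nodes of level below `j` under `S`. -/
def Dn {N : Type} (ch : N → N → Prop) (ψ : N → ℕ) (j : ℕ) (S : Set N) : Set N :=
  {f | ∃ e ∈ S, ∃ p, ReflTransGen (fun a b => ch a b ∧ j ≤ ψ b) e p ∧ ch p f ∧ ψ f < j}

/-- The nodes of level `j` under `S` with no smaller level in between. -/
def Un {N : Type} (ch : N → N → Prop) (ψ : N → ℕ) (j : ℕ) (S : Set N) : Set N :=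
  {f | ∃ e ∈ S, ∃ p, ReflTransGen (fun a b => ch a b ∧ j ≤ ψ b) e p ∧ ch p f ∧ ψ f = j}

theorem dn_succ {N : Type} {ch : N → N → Prop} {ψ : N → ℕ} {j : ℕ} {S : Set N} :
    Dn ch ψ (j + 1) S ⊆ Un ch ψ j S ∪ Dn ch ψ j S := by
  rintro f ⟨e, he, p, h1, h2, h3⟩
  have h4 : ReflTransGen (fun a b => ch a b ∧ j ≤ ψ b) e p :=
    ReflTransGen.mono (fun a b h => ⟨h.1, by have := h.2; omega⟩) _ _ h1
  by_cases h : ψ f = j
  · exact .inl ⟨e, he, p, h4, h2, h⟩
  · exact .inr ⟨e, he, p, h4, h2, by omega⟩

theorem bGAP : St_GAP := by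
  intro N ch r sz ψ L tr hsz hL gap lift
  classical
  have mono : ∀ {j e p}, ReflTransGen (fun a b => ch a b ∧ j ≤ ψ b) e p → sz p ≤ sz e := by
    intro j e p h
    induction h with
    | refl => exact le_rfl
    | tail _ h ih => exact (hsz _ _ h.1).le.trans ih
  have key : ∀ j ≤ L, ∀ S, (Dn ch ψ j S).PartiallyWellOrderedOn r → S.PartiallyWellOrderedOn r := by
    intro j hj
    induction hj using Nat.decreasingInduction with
    | self =>
      exact fun S h => lift S (h.mono fun f ⟨e, he, hf⟩ => ⟨e, he, e, .refl, hf, hL f⟩)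
    | of_succ j _ ih =>
      intro S hS
      refine ih S ((Set.PartiallyWellOrderedOn.union ?_ hS).mono dn_succ)
      rw [iff_not_exists_isMinBadSeq sz]
      rintro ⟨t, ht, hmin⟩
      have up : ∀ {i p f}, ReflTransGen (fun a b => ch a b ∧ j ≤ ψ b) (t i) p → ch p f →
          ∃ e ∈ S, ∃ p, ReflTransGen (fun a b => ch a b ∧ j ≤ ψ b) e p ∧ ch p f := by
        intro i p f h1 h2
        obtain ⟨e, he, q, h3, h4, h5⟩ := ht.1 i
        exact ⟨e, he, p, (h3.tail ⟨h4, h5.ge⟩).trans h1, h2⟩
      have hE : (Un ch ψ j (range t)).PartiallyWellOrderedOn r := by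
        rw [iff_forall_not_isBadSeq]
        intro f hf
        choose e he p h1 h2 h3 using hf.1
        choose i hi using he
        have hex : ∃ m, ∃ s, i s = m := ⟨_, 0, rfl⟩
        obtain ⟨s0, hs0⟩ := Nat.find_spec hex
        have hle : ∀ s, i s0 ≤ i s := fun s => hs0 ▸ Nat.find_min' hex ⟨s, rfl⟩
        have tj : ∀ i, ψ (t i) = j := fun i => by
          obtain ⟨_, _, _, _, _, h⟩ := ht.1 i
          exact h
        have hr : ∀ s, r (f s) (t (i s)) := fun s => by
          refine gap _ _ ?_ ((h3 s).trans (tj _).symm)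
          rw [tj, hi]
          exact (h1 s).tail ⟨h2 s, (h3 s).ge⟩
        refine hmin (i s0) (fun m => if m < i s0 then t m else f (s0 + (m - i s0)))
          (fun m hm => (if_pos hm).symm) ?_ ⟨fun m => ?_, fun a b hab => ?_⟩
        · simp only [lt_irrefl, if_false, Nat.sub_self, Nat.add_zero, hi]
          exact (hsz _ _ (h2 s0)).trans_le (mono (h1 s0))
        · by_cases hm : m < i s0
          · simp only [hm, if_true]; exact ht.1 m
          · simp only [hm, if_false]
            obtain ⟨e', he', p', h4, h5⟩ := up (i := i _) ((hi _).symm ▸ h1 (s0 + (m - i s0))) (h2 _)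
            exact ⟨e', he', p', h4, h5, h3 _⟩
        · by_cases hb : b < i s0
          · simp only [hb, hab.trans hb, if_true]; exact ht.2 a b hab
          · by_cases ha : a < i s0
            · simp only [ha, hb, if_true, if_false]
              exact fun h => ht.2 a _ (ha.trans_le (hle _)) (tr _ _ _ h (hr _))
            · simp only [ha, hb, if_false]
              exact hf.2 _ _ (by omega)
      have hD : Dn ch ψ j (range t) ⊆ Dn ch ψ j S := by
        rintro f ⟨_, ⟨i, rfl⟩, p, h1, h2, h3⟩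
        obtain ⟨e, he, q, h4, h5⟩ := up h1 h2
        exact ⟨e, he, q, h4, h5, h3⟩
      obtain ⟨a, b, hab, h⟩ := (ih (range t) ((hE.union (hS.mono hD)).mono dn_succ)).exists_lt
        (f := t) fun n => mem_range_self n
      exact ht.2 a b hab h
  refine key 0 (Nat.zero_le L) univ ?_
  rw [partiallyWellOrderedOn_iff_exists_lt]
  intro f hf
  obtain ⟨_, _, _, _, _, h⟩ := hf 0
  omega

end Pool.Agent.Lib.IM
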