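import Pool.Agent.Lib.IM.Men

/-! One rail and two rails. -/

open Set Function

namespace Pool.Agent.Lib.IM

theorem bL1 : St_L1 := by
  intro V _ G K N x x' h
  by_contra hc
  rw [not_or, not_or] at hc
  obtain ⟨ha, hb, hc⟩ := hc
  push Not at hb
  have xN : x ∉ N := fun k => (hb x ⟨h.1, k⟩).1.2 rfl
  set c := rc G (K \ N) {x} with hcd
  have xc : x ∈ c := rc_self rfl ⟨h.1, xN⟩
  have x'c : x' ∉ c := fun k => ha (mem_rc1.1 k)
  set S := (K \ c) ∩ nb G c with hS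
  have SN : S ⊆ N := fun v ⟨h1, w, h2, h3⟩ => by_contra fun k => h1.2 (rc_adj h2 h3.symm ⟨h1.1, k⟩)
  have f1 : ∀ Y, R G (K \ Y) x x' → x' ∈ rc G ((K \ c) \ Y) S := by
    intro Y r
    obtain ⟨a, b, -, h2, h3, h4⟩ := r.last xc x'c
    exact ⟨b, ⟨⟨h4.1.1.1, h4.1.2⟩, a, h2, h3.symm⟩, h4.mono fun v k => ⟨⟨k.1.1, k.2⟩, k.1.2⟩⟩
  obtain ⟨u, ⟨uT, ux⟩, hm⟩ := (measure fun u => (rc G ((K \ c) \ {u}) S).ncard).wf.has_min
    {u | u ∈ K \ c ∧ x' ∉ rc G ((K \ c) \ {u}) S} ⟨x', ⟨h.right, x'c⟩, fun k => (rc_sub k).2 rfl⟩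
  have uN : u ∉ N := fun k => ux (f1 _ (hb u ⟨uT.1, k⟩))
  set D := rc G ((K \ c) \ {u}) S with hD
  have DT : D ⊆ K \ c := fun _ k => (rc_sub k).1
  have uD : u ∉ D := fun k => (rc_sub k).2 rfl
  obtain ⟨Q, hQ, dQ⟩ := bMEN V G D S (nb G {u}) 2 (by
    intro Y hY hs
    by_contra hk
    have k1 : rc G ((K \ c) \ Y) S ⊆ D := by
      rintro v ⟨s, h1, r⟩
      have su : s ≠ u := fun e => uN (SN (e ▸ h1))
      have : R G (D \ Y) s v := by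
        refine r.ind (P := fun v => R G (D \ Y) s v) (R.refl ⟨rc_self h1 ⟨r.1.1, su⟩, r.1.2⟩) ?_
        intro a b _ ih ab k
        by_cases e : b = u
        · exact absurd ih (hs s h1 a ⟨u, rfl, e ▸ ab⟩)
        · exact ih.tail ab ⟨rc_adj ih.right.1 ab ⟨k.1, e⟩, k.2⟩
      exact this.right.1
    rcases (Set.ncard_le_one_iff_eq (toFinite Y)).1 (by omega) with rfl | ⟨u', rfl⟩
    · exact ux (k1 (f1 _ (by rwa [sdiff_empty])))
    · have := hY (show u' ∈ ({u'} : Set V) from rfl)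
      exact hm u' ⟨DT this, fun k => ux (k1 k)⟩
        (Set.ncard_lt_ncard ⟨k1, fun k => (rc_sub (k this)).2 rfl⟩ (toFinite _)))
  have tc : ∀ i, Tc G c (Q i) ∧ Tc G (Q i) (rc G ((K \ c) \ D) {u}) ∧ (Q i ∩ N).Nonempty := by
    intro i
    obtain ⟨-, -, ⟨s, s1, s2⟩, t, t1, _, rfl, t2⟩ := hQ i
    obtain ⟨w, w1, w2⟩ := s2.2
    exact ⟨⟨w, w1, s, s1, w2.symm⟩, ⟨t, t1, _, rc_self rfl ⟨uT, uD⟩, t2⟩, s, s1, SN s2⟩
  have d1 : ∀ i, Disjoint c (Q i) := fun i =>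
    Set.disjoint_left.2 fun v k1 k2 => (DT ((hQ i).2.1 k2)).2 k1
  have d2 : ∀ i, Disjoint (Q i) (rc G ((K \ c) \ D) {u}) := fun i =>
    Set.disjoint_left.2 fun v k1 k2 => (rc_sub k2).2 ((hQ i).2.1 k1)
  refine hc ⟨c, Q 0, Q 1, rc G ((K \ c) \ D) {u},
    ⟨cn_rc1 ⟨h.1, xN⟩, (hQ 0).1, (hQ 1).1, cn_rc1 ⟨uT, uD⟩⟩,
    ⟨fun _ k => (rc_sub k).1, fun _ k => (DT ((hQ 0).2.1 k)).1, fun _ k => (DT ((hQ 1).2.1 k)).1,
      fun _ k => (rc_sub k).1.1⟩,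
    ⟨d1 0, d1 1, Set.disjoint_left.2 fun v k1 k2 => (rc_sub k2).1.2 k1, dQ 0 1 (by decide), d2 0,
      d2 1⟩, ⟨(tc 0).1, (tc 1).1, (tc 0).2.1, (tc 1).2.1⟩, xc, ?_, (tc 0).2.2, (tc 1).2.2⟩
  obtain ⟨s, s1, r⟩ := f1 ∅ (by rwa [sdiff_empty])
  rw [sdiff_empty] at r
  obtain ⟨a, b, -, h2, h3, h4⟩ := r.last (T := D) (rc_self s1 ⟨r.1, fun e => uN (SN (e ▸ s1))⟩) ux
  obtain rfl : b = u := by_contra fun e => h4.1.2 (rc_adj h2 h3 ⟨h4.1.1, e⟩)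
  exact mem_rc1.2 h4

variable {V : Type} {G : SimpleGraph V}

theorem Blk.mono {K K' N N' : Set V} {x x' : V} (h : Blk G K N x x') (hK : K ⊆ K') (hN : N ⊆ N') :
    Blk G K' N' x x' := by
  obtain ⟨c, z, z', c', h1, ⟨a1, a2, a3, a4⟩, h3, h4, h5, h6, h7, h8⟩ := h
  exact ⟨c, z, z', c', h1, ⟨a1.trans hK, a2.trans hK, a3.trans hK, a4.trans hK⟩, h3, h4, h5, h6,
    h7.mono (inter_subset_inter_right _ hN), h8.mono (inter_subset_inter_right _ hN)⟩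

theorem Blk.rail {K N : Set V} {x x' : V} (h : Blk G K N x x') :
    ∃ S, Cn G S ∧ S ⊆ K ∧ x ∈ S ∧ x' ∈ S ∧ Blk G S N x x' := by
  obtain ⟨c, z, z', c', h1, h2, h3, h4, h5, h6, h7⟩ := h
  refine ⟨c ∪ z ∪ z' ∪ c', ((h1.1.union_tc h1.2.1 h4.1).union_tc h1.2.2.1
    (h4.2.1.mono subset_union_left Subset.rfl)).union_tc h1.2.2.2
    (h4.2.2.2.mono subset_union_right Subset.rfl),
    union_subset (union_subset (union_subset h2.1 h2.2.1) h2.2.2.1) h2.2.2.2,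
    .inl (.inl (.inl h5)), .inr h6, c, z, z', c', h1, ⟨fun _ k => .inl (.inl (.inl k)),
      fun _ k => .inl (.inl (.inr k)), fun _ k => .inl (.inr k), fun _ k => .inr k⟩, h3, h4, h5, h6,
    h7⟩

theorem crs_rail {K s s' t t' : Set V} {x x' y y' : V} (h1 : Cn G s ∧ Cn G s' ∧ Cn G t ∧ Cn G t')
    (h2 : s ⊆ K ∧ s' ⊆ K ∧ t ⊆ K ∧ t' ⊆ K) (h3 : Disjoint s s' ∧ Disjoint t t')
    (h : Disjoint (s ∪ s') (t ∪ t')) (h4 : Tc G s s' ∧ Tc G s t' ∧ Tc G t s' ∧ Tc G t t')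
    (h5 : x ∈ s ∧ x' ∈ s' ∧ y ∈ t ∧ y' ∈ t') :
    ∃ S S', Cn G S ∧ Cn G S' ∧ S ⊆ K ∧ S' ⊆ K ∧ Disjoint S S' ∧ x ∈ S ∧ x' ∈ S ∧ y ∈ S' ∧ y' ∈ S' ∧
    (¬ Tc G S S' ∨ Crs G S S' x x' y y' ∨ Blk G S (nb G S') x x' ∨ Blk G S' (nb G S) y y') :=
  ⟨s ∪ s', t ∪ t', h1.1.union_tc h1.2.1 h4.1, h1.2.2.1.union_tc h1.2.2.2 h4.2.2.2,
    union_subset h2.1 h2.2.1, union_subset h2.2.2.1 h2.2.2.2, h, .inl h5.1, .inr h5.2.1,
    .inl h5.2.2.1, .inr h5.2.2.2, .inr (.inl ⟨s, s', t, t', h1, ⟨subset_union_left,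
      subset_union_right, subset_union_left, subset_union_right⟩, h3, h4, h5⟩)⟩

/-- The side of `x` together with the cut vertex is connected. -/
theorem cn_side {T : Set V} {x c : V} (h : R G T x c) : Cn G (rc G (T \ {c}) {x} ∪ {c}) := by
  by_cases e : x = c
  · subst e
    have : rc G (T \ {x}) {x} = ∅ := eq_empty_of_forall_notMem fun v k => (mem_rc1.1 k).1.2 rfl
    rw [this, empty_union]; exact cn_single _
  · obtain ⟨a, b, h1, h2, -, h4, -⟩ := h.exit (T := {c}ᶜ) e (fun k => k rfl)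
    exact (cn_rc1 (S := T \ {c}) ⟨h.1, e⟩).union_tc (cn_single c)
      ⟨a, mem_rc1.2 h1, b, not_not.1 h4, h2⟩

theorem tc_side {T : Set V} {x c : V} (h : R G T x c) (e : x ≠ c) :
    Tc G (rc G (T \ {c}) {x}) {c} := by
  obtain ⟨a, b, h1, h2, -, h4, -⟩ := h.exit (T := {c}ᶜ) e (fun k => k rfl)
  exact ⟨a, mem_rc1.2 h1, b, not_not.1 h4, h2⟩

theorem bL2 : St_L2 := by
  intro V _ G K P₀ P₀' x x' y y' c0 c0' s0 s0' d0 hx hx' hy hy'
  obtain ⟨P, cP, sP, xP, x'P, tP⟩ := (c0.2 x hx x' hx').thin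
  obtain ⟨P₁, q1, q2, q3, q4, q5⟩ := (c0'.2 y hy y' hy').thin
  replace sP' := sP.trans s0
  obtain ⟨P', ⟨cP', sP'', dP, yP, y'P, tP'⟩, hm⟩ :=
    (measure fun P' => (nb G P' ∩ P).ncard).wf.has_min {P' | Cn G P' ∧ P' ⊆ K ∧ Disjoint P P' ∧
      y ∈ P' ∧ y' ∈ P' ∧ ∀ c, ∀ a ∈ P' \ {c}, R G (P' \ {c}) y a ∨ R G (P' \ {c}) y' a}
      ⟨P₁, q1, q2.trans s0', d0.mono sP q2, q3, q4, q5⟩
  have PT : P ⊆ K \ P' := fun v k => ⟨sP' k, Set.disjoint_left.1 dP k⟩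
  rcases bL1 V G (K \ P') (nb G P') x x' ((cP.2 x xP x' x'P).mono PT) with h | ⟨c, hc, h⟩ | h
  · obtain ⟨S, k1, k2, k3, k4⟩ := h.ps
    exact .inr ⟨S, P', k1.cn, cP', fun _ k => (k2 k).1.1, sP'',
      Set.disjoint_left.2 fun _ k => (k2 k).1.2, k3, k4, yP, y'P,
      .inl fun ⟨a, a1, b, b1, ab⟩ => (k2 a1).2 ⟨b, b1, ab⟩⟩
  swap
  · obtain ⟨S, k1, k2, k3, k4, k5⟩ := h.rail
    exact .inr ⟨S, P', k1, cP', fun _ k => (k2 k).1, sP'',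
      Set.disjoint_left.2 fun _ k => (k2 k).2, k3, k4, yP, y'P, .inr (.inr (.inl k5))⟩
  have cP0 : c ∈ P := by_contra fun k =>
    h ((cP.2 x xP x' x'P).mono fun v hv => ⟨PT hv, fun e => k (e ▸ hv)⟩)
  set L := rc G ((K \ P') \ {c}) {x} with hL
  set M := rc G ((K \ P') \ {c}) {x'} with hM
  have LM : Disjoint L M := Set.disjoint_left.2 fun v k1 k2 =>
    h ((mem_rc1.1 k1).trans (mem_rc1.1 k2).symm)
  have PL : P ⊆ L ∪ {c} ∪ M := fun v k => by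
    by_cases e : v = c
    · exact .inl (.inr e)
    · exact (tP c v ⟨k, e⟩).elim
        (fun r => .inl (.inl (mem_rc1.2 (r.mono (sdiff_subset_sdiff_left PT)))))
        fun r => .inr (mem_rc1.2 (r.mono (sdiff_subset_sdiff_left PT)))
  set H := K \ (L ∪ {c} ∪ M) with hH
  have P'H : P' ⊆ H := fun v k => ⟨sP'' k, by
    rintro ((j | j) | j)
    · exact (rc_sub j).1.2 k
    · exact hc.1.2 (j ▸ k)
    · exact (rc_sub j).1.2 k⟩
  have out : ∀ a ∈ L ∪ M, ∀ b ∈ H, G.Adj a b → b ∈ P' := by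
    intro a ha b hb ab
    by_contra k
    have : b ∈ (K \ P') \ {c} := ⟨⟨hb.1, k⟩, fun e => hb.2 (.inl (.inr e))⟩
    exact hb.2 (ha.elim (fun j => .inl (.inl (rc_adj j ab this))) fun j => .inr (rc_adj j ab this))
  have dH : ∀ S ⊆ H, Disjoint P S := fun S k =>
    Set.disjoint_left.2 fun v k1 k2 => (k k2).2 (PL k1)
  rcases bL1 V G H (nb G {c}) y y' ((cP'.2 y yP y' y'P).mono P'H) with g | ⟨v, hv, g⟩ | g
  · obtain ⟨S, k1, k2, k3, k4, k5⟩ := g.thin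
    refine absurd (Set.ncard_lt_ncard ⟨?_, fun k => ?_⟩ (toFinite _))
      (hm S ⟨k1, fun _ k => (k2 k).1.1, dH S fun _ k => (k2 k).1, k3, k4, k5⟩)
    · rintro w ⟨⟨b, b1, wb⟩, w1⟩
      rcases PL w1 with (j | j) | j
      · exact ⟨⟨b, out w (.inl j) b (k2 b1).1 wb, wb⟩, w1⟩
      · exact absurd ⟨c, rfl, j ▸ wb.symm⟩ (k2 b1).2
      · exact ⟨⟨b, out w (.inr j) b (k2 b1).1 wb, wb⟩, w1⟩
    · obtain ⟨⟨b, b1, cb⟩, -⟩ := k ⟨hc.2, cP0⟩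
      exact (k2 b1).2 ⟨c, rfl, cb.symm⟩
  swap
  · obtain ⟨S, k1, k2, k3, k4, k5⟩ := g.rail
    exact .inr ⟨P, S, cP, k1, sP', fun _ k => (k2 k).1, dH S k2, xP, x'P, k3, k4,
      .inr (.inr (.inr (k5.mono Subset.rfl fun _ ⟨b, b1, e⟩ => ⟨b, b1 ▸ cP0, e⟩)))⟩
  have vP : v ∈ P' := by_contra fun k =>
    g ((cP'.2 y yP y' y'P).mono fun w hw => ⟨P'H hw, fun e => k (e ▸ hw)⟩)
  have vc : G.Adj v c := by
    obtain ⟨_, rfl, vc⟩ := hv.2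
    exact vc
  set Y := rc G (H \ {v}) {y} with hY
  set Y' := rc G (H \ {v}) {y'} with hY'
  have YY : Disjoint Y Y' := Set.disjoint_left.2 fun v k1 k2 =>
    g ((mem_rc1.1 k1).trans (mem_rc1.1 k2).symm)
  have PY : ∀ w ∈ P', w ≠ v → w ∈ Y ∨ w ∈ Y' := fun w k e => (tP' v w ⟨k, e⟩).imp
    (fun r => mem_rc1.2 (r.mono (sdiff_subset_sdiff_left P'H)))
    fun r => mem_rc1.2 (r.mono (sdiff_subset_sdiff_left P'H))
  have rx : R G (K \ P') x c := (cP.2 x xP c cP0).mono PT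
  have rx' : R G (K \ P') x' c := (cP.2 x' x'P c cP0).mono PT
  have ry : R G H y v := (cP'.2 y yP v vP).mono P'H
  have ry' : R G H y' v := (cP'.2 y' y'P v vP).mono P'H
  have LK : L ⊆ K := fun _ k => (rc_sub k).1.1
  have MK : M ⊆ K := fun _ k => (rc_sub k).1.1
  have YH : Y ⊆ H := fun _ k => (rc_sub k).1
  have Y'H : Y' ⊆ H := fun _ k => (rc_sub k).1
  have cL : c ∉ L := fun k => (rc_sub k).2 rfl
  have cM : c ∉ M := fun k => (rc_sub k).2 rfl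
  have vY : v ∉ Y := fun k => (rc_sub k).2 rfl
  have vY' : v ∉ Y' := fun k => (rc_sub k).2 rfl
  have mem : ∀ {T : Set V} {a b : V}, a ∈ T → a ∈ rc G (T \ {b}) {a} ∪ {b} := by
    intro T a b k
    by_cases e : a = b
    · exact .inr e
    · exact .inl (rc_self rfl ⟨k, e⟩)
  have dd : ∀ {s t : Set V}, s ⊆ L ∪ {c} ∪ M → t ⊆ H → Disjoint s t := fun k1 k2 =>
    Set.disjoint_left.2 fun w j1 j2 => (k2 j2).2 (k1 j1)
  by_cases t1 : Tc G L Y'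
  · obtain ⟨a, a1, b, b1, ab⟩ := id t1
    have e1 := (mem_rc1.1 a1).1
    have e2 := (mem_rc1.1 b1).1
    exact .inr (crs_rail (s := L) (s' := M ∪ {c}) (t := Y ∪ {v}) (t' := Y')
      ⟨cn_rc1 e1, cn_side rx', cn_side ry, cn_rc1 e2⟩
      ⟨LK, union_subset MK (singleton_subset_iff.2 hc.1.1),
        union_subset (fun _ k => (YH k).1) (singleton_subset_iff.2 hv.1.1), fun _ k => (Y'H k).1⟩
      ⟨disjoint_union_right.2 ⟨LM, disjoint_singleton_right.2 cL⟩,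
        disjoint_union_left.2 ⟨YY, disjoint_singleton_left.2 vY'⟩⟩
      (dd (fun w k => by simp only [mem_union] at k ⊢; tauto)
        (union_subset (union_subset YH (singleton_subset_iff.2 hv.1)) Y'H))
      ⟨(tc_side rx e1.2).mono Subset.rfl subset_union_right, t1, ⟨v, .inr rfl, c, .inr rfl, vc⟩,
        (tc_side ry' e2.2).symm.mono subset_union_right Subset.rfl⟩
      ⟨rc_self rfl e1, mem rx'.1, mem ry.1, rc_self rfl e2⟩)
  by_cases t2 : Tc G Y M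
  · obtain ⟨a, a1, b, b1, ab⟩ := id t2
    have e1 := (mem_rc1.1 a1).1
    have e2 := (mem_rc1.1 b1).1
    exact .inr (crs_rail (s := L ∪ {c}) (s' := M) (t := Y) (t' := Y' ∪ {v})
      ⟨cn_side rx, cn_rc1 e2, cn_rc1 e1, cn_side ry'⟩
      ⟨union_subset LK (singleton_subset_iff.2 hc.1.1), MK, fun _ k => (YH k).1,
        union_subset (fun _ k => (Y'H k).1) (singleton_subset_iff.2 hv.1.1)⟩
      ⟨disjoint_union_left.2 ⟨LM, disjoint_singleton_left.2 cM⟩,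
        disjoint_union_right.2 ⟨YY, disjoint_singleton_right.2 vY⟩⟩
      (dd Subset.rfl (union_subset YH (union_subset Y'H (singleton_subset_iff.2 hv.1))))
      ⟨(tc_side rx' e2.2).symm.mono subset_union_right Subset.rfl,
        ⟨c, .inr rfl, v, .inr rfl, vc.symm⟩, t2,
        (tc_side ry e1.2).mono Subset.rfl subset_union_right⟩
      ⟨mem rx.1, rc_self rfl e2, rc_self rfl e1, mem ry'.1⟩)
  refine .inl ⟨c, hc.1.1, v, hv.1.1, vc.symm, fun a ha b hb r => ?_⟩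
  have nc : ∀ w ∈ K \ ({c, v} : Set V), w ≠ c ∧ w ≠ v := fun w k =>
    ⟨fun e => k.2 (.inl e), fun e => k.2 (.inr e)⟩
  have key : b ∈ L ∪ Y := by
    refine r.ind (P := fun w => w ∈ L ∪ Y) ?_ ?_
    · rcases ha with rfl | rfl
      · exact .inl (rc_self rfl ⟨rx.1, (nc _ r.1).1⟩)
      · exact .inr (rc_self rfl ⟨ry.1, (nc _ r.1).2⟩)
    · rintro p q _ (hp | hp) pq hq
      · by_cases k : q ∈ P'
        · exact (PY q k (nc q hq).2).elim .inr fun j => absurd ⟨p, hp, q, j, pq⟩ t1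
        · exact .inl (rc_adj hp pq ⟨⟨hq.1, k⟩, (nc q hq).1⟩)
      · by_cases k : q ∈ L ∪ {c} ∪ M
        · rcases k with (k | k) | k
          · exact .inl k
          · exact absurd k (nc q hq).1
          · exact absurd ⟨p, hp, q, k, pq⟩ t2
        · exact .inr (rc_adj hp pq ⟨⟨hq.1, k⟩, (nc q hq).2⟩)
  rcases hb with rfl | rfl
  · have k : b ∈ M := rc_self rfl ⟨rx'.1, (nc _ r.right).1⟩
    exact key.elim (fun j => Set.disjoint_left.1 LM j k) fun j => (YH j).2 (.inr k)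
  · have k : b ∈ Y' := rc_self rfl ⟨ry'.1, (nc _ r.right).2⟩
    exact key.elim (fun j => (Y'H k).2 (.inl (.inl j))) fun j => Set.disjoint_left.1 YY j k

end Pool.Agent.Lib.IM
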