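import Pool.Agent.Lib.IM.Base

/-! The rooted order, and the step from the children to the parents. -/

open Set Function

namespace Pool.Agent.Lib.IM

section
variable {V V' V'' : Type} {G : SimpleGraph V} {G' : SimpleGraph V'} {G'' : SimpleGraph V''}

theorem tc_single {u v : V} : Tc G {u} {v} ↔ G.Adj u v := by simp [Tc]

theorem RM.comp {B B' B'' φ ψ} (h : RM G B G' B' φ) (h' : RM G' B' G'' B'' ψ) :
    RM G B G'' B'' fun v => {y | ∃ x ∈ φ v, y ∈ ψ x} := by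
  refine ⟨fun v hv => ?_, fun v hv y ⟨x, x1, x2⟩ => h'.sub x (h.sub v hv x1) x2,
    fun u hu v hv uv => Set.disjoint_left.2 fun y ⟨x, x1, x2⟩ ⟨x', x3, x4⟩ => ?_,
    fun u hu v hv uv => (h.adj u hu v hv uv).trans ⟨?_, ?_⟩⟩
  · obtain ⟨a, ha⟩ := (h.cn v hv).1
    obtain ⟨b, hb⟩ := (h'.cn a (h.sub v hv ha)).1
    refine cn_of_root ⟨a, ha, hb⟩ fun y ⟨x, x1, x2⟩ => ?_
    refine ((h.cn v hv).2 a ha x x1).ind (P := fun x => ∀ y ∈ ψ x,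
      R G'' {y | ∃ x ∈ φ v, y ∈ ψ x} b y) (fun y hy => ((h'.cn a (h.sub v hv ha)).2 b hb y hy).mono
        fun z k => ⟨a, ha, k⟩) (fun p q hp ih pq hq y hy => ?_) y x2
    obtain ⟨s, s1, t, t1, st⟩ := (h'.adj p (h.sub v hv hp.right) q (h.sub v hv hq) pq.ne).1 pq
    exact ((ih s s1).tail st ⟨q, hq, t1⟩).trans
      (((h'.cn q (h.sub v hv hq)).2 t t1 y hy).mono fun z k => ⟨q, hq, k⟩)
  · by_cases e : x = x'
    · exact Set.disjoint_left.1 (h.dis u hu v hv uv) x1 (e ▸ x3)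
    · exact Set.disjoint_left.1 (h'.dis x (h.sub u hu x1) x' (h.sub v hv x3) e) x2 x4
  · rintro ⟨p, p1, q, q1, pq⟩
    exact ((h'.adj p (h.sub u hu p1) q (h.sub v hv q1) pq.ne).1 pq).mono
      (fun z k => ⟨p, p1, k⟩) fun z k => ⟨q, q1, k⟩
  · rintro ⟨s, ⟨p, p1, s1⟩, t, ⟨q, q1, t1⟩, st⟩
    exact ⟨p, p1, q, q1, (h'.adj p (h.sub u hu p1) q (h.sub v hv q1) fun e =>
      Set.disjoint_left.1 (h.dis u hu v hv uv) p1 (e ▸ q1)).2 ⟨s, s1, t, t1, st⟩⟩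

/-- A model that respects labels on the roots. -/
def LM {κ : Type} (G : SimpleGraph V) (B X : Set V) (l : V → κ) (G' : SimpleGraph V')
    (B' X' : Set V') (l' : V' → κ) : Prop :=
  ∃ φ, RM G B G' B' φ ∧ ∀ v ∈ X, ∃ v' ∈ X', l' v' = l v ∧ v' ∈ φ v

/-- The labelled adjacency inside a set. -/
def pat {κ : Type} (G : SimpleGraph V) (X : Set V) (l : V → κ) : Set (κ × κ) :=
  {p | ∃ u ∈ X, ∃ v ∈ X, G.Adj u v ∧ l u = p.1 ∧ l v = p.2}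

theorem pat_adj {κ : Type} {X : Set V} {X' : Set V'} {l : V → κ} {l' : V' → κ} (i' : InjOn l' X')
    (h : pat G X l ⊆ pat G' X' l') {u v u' v'} (hu : u ∈ X) (hv : v ∈ X) (hu' : u' ∈ X')
    (hv' : v' ∈ X') (eu : l' u' = l u) (ev : l' v' = l v) (a : G.Adj u v) : G'.Adj u' v' := by
  obtain ⟨p, p1, q, q1, pq, e1, e2⟩ := h (show (l u, l v) ∈ _ from ⟨u, hu, v, hv, a, rfl, rfl⟩)
  rwa [i' hu' p1 (eu.trans e1.symm), i' hv' q1 (ev.trans e2.symm)]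

theorem lm_flat {κ : Type} {X : Set V} {X' : Set V'} {l : V → κ} {l' : V' → κ} (i : InjOn l X)
    (i' : InjOn l' X') (e : l '' X = l' '' X') (p : pat G X l = pat G' X' l') :
    LM G X X l G' X' X' l' := by
  have : ∀ v, ∃ S : Set V', v ∈ X → ∃ v' ∈ X', l' v' = l v ∧ S = {v'} := fun v => by
    by_cases k : v ∈ X
    · obtain ⟨v', k1, k2⟩ := e.le ⟨v, k, rfl⟩
      exact ⟨{v'}, fun _ => ⟨v', k1, k2, rfl⟩⟩
    · exact ⟨∅, fun k' => absurd k' k⟩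
  choose φ hφ using this
  refine ⟨φ, ⟨fun v hv => ?_, fun v hv => ?_, fun u hu v hv uv => ?_, fun u hu v hv uv => ?_⟩,
    fun v hv => let ⟨v', k1, k2, k3⟩ := hφ v hv; ⟨v', k1, k2, k3.ge rfl⟩⟩
  · obtain ⟨v', -, -, k⟩ := hφ v hv
    exact k ▸ cn_single _
  · obtain ⟨v', k1, -, k⟩ := hφ v hv
    exact k ▸ singleton_subset_iff.2 k1
  · obtain ⟨v', -, k2, k⟩ := hφ v hv
    obtain ⟨u', -, j2, j⟩ := hφ u hu
    rw [k, j, disjoint_singleton]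
    exact fun e => uv (i hu hv (by rw [← j2, ← k2, e]))
  · obtain ⟨v', k1, k2, k⟩ := hφ v hv
    obtain ⟨u', j1, j2, j⟩ := hφ u hu
    rw [k, j, tc_single]
    exact ⟨pat_adj i' p.le hu hv j1 k1 j2 k2, pat_adj i p.ge j1 k1 hu hv j2.symm k2.symm⟩

theorem Split.swap {B X B₁ X₁ B₂ X₂ : Set V} (s : Split G B X B₁ X₁ B₂ X₂) :
    Split G B X B₂ X₂ B₁ X₁ :=
  ⟨s.un.trans (union_comm _ _), by rw [inter_comm, inter_comm X₂]; exact s.int, s.s₂, s.s₁, s.c₂,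
    s.c₁, union_comm X₁ X₂ ▸ s.rt⟩

theorem lm_root {κ : Type} {B X : Set V} {B' X' : Set V'} {l : V → κ} {l' : V' → κ} {φ}
    (h : RM G B G' B' φ) (r : ∀ v ∈ X, ∃ v' ∈ X', l' v' = l v ∧ v' ∈ φ v) (s : X ⊆ B)
    (i' : InjOn l' X') (e : l '' X = l' '' X') {v w} (hv : v ∈ B) (hw : w ∈ φ v) (hw' : w ∈ X') :
    v ∈ X ∧ l' w = l v := by
  obtain ⟨u, u1, u2⟩ := e.ge ⟨w, hw', rfl⟩
  obtain ⟨u', k1, k2, k3⟩ := r u u1
  obtain rfl : u' = w := i' k1 hw' (k2.trans u2)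
  obtain rfl : u = v := by_contra fun k => Set.disjoint_left.1 (h.dis u (s u1) v hv k) k3 hw
  exact ⟨u1, k2⟩

theorem lm_glue {κ : Type} {B X B₁ X₁ B₂ X₂ : Set V} {B' X' B₁' X₁' B₂' X₂' : Set V'} {l : V → κ}
    {l' : V' → κ} (s : Split G B X B₁ X₁ B₂ X₂) (s' : Split G' B' X' B₁' X₁' B₂' X₂')
    (i : InjOn l (X₁ ∪ X₂)) (i' : InjOn l' (X₁' ∪ X₂')) (e₁ : l '' X₁ = l' '' X₁')
    (e₂ : l '' X₂ = l' '' X₂') (e : l '' X = l' '' X')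
    (p : pat G (X₁ ∪ X₂) l = pat G' (X₁' ∪ X₂') l') (h₁ : LM G B₁ X₁ l G' B₁' X₁' l')
    (h₂ : LM G B₂ X₂ l G' B₂' X₂' l') : LM G B X l G' B' X' l' := by
  obtain ⟨φ₁, m₁, r₁⟩ := h₁
  obtain ⟨φ₂, m₂, r₂⟩ := h₂
  have t₁ := @lm_root _ _ _ _ _ _ _ _ _ _ _ _ m₁ r₁ s.s₁ (i'.mono subset_union_left) e₁
  have t₂ := @lm_root _ _ _ _ _ _ _ _ _ _ _ _ m₂ r₂ s.s₂ (i'.mono subset_union_right) e₂
  have mix : ∀ u ∈ B₁, ∀ v ∈ B₂, ∀ w ∈ φ₁ u, w ∈ φ₂ v → u = v := fun u hu v hv w k1 k2 => by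
    have k := s'.int ⟨m₁.sub u hu k1, m₂.sub v hv k2⟩
    exact i (.inl (t₁ hu k1 k.1).1) (.inr (t₂ hv k2 k.2).1)
      ((t₁ hu k1 k.1).2.symm.trans (t₂ hv k2 k.2).2)
  have crs : ∀ u ∈ B₁, ∀ v ∈ B₂, u ≠ v → Tc G' (φ₁ u) (φ₂ v) → G.Adj u v := by
    rintro u hu v hv uv ⟨a, ha, b, hb, ab⟩
    by_cases k1 : a ∈ X₁'
    · by_cases k2 : b ∈ X₂'
      · exact pat_adj i p.ge (.inl k1) (.inr k2) (.inl (t₁ hu ha k1).1) (.inr (t₂ hv hb k2).1)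
          (t₁ hu ha k1).2.symm (t₂ hv hb k2).2.symm ab
      · have k3 := s'.c₂ b ⟨m₂.sub v hv hb, k2⟩ a ab.symm
        obtain ⟨u', j1, j2⟩ := e₂.ge ⟨a, (s'.int ⟨s'.s₁ k1, k3⟩).2, rfl⟩
        obtain rfl : u' = u := i (.inr j1) (.inl (t₁ hu ha k1).1) (j2.trans (t₁ hu ha k1).2)
        obtain ⟨a', j3, j4, j5⟩ := r₂ _ j1
        obtain rfl : a' = a := i' (.inr j3) (.inl k1) (j4.trans j2)
        exact (m₂.adj _ (s.s₂ j1) v hv uv).2 ⟨_, j5, b, hb, ab⟩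
    · have k3 := s'.int ⟨s'.c₁ a ⟨m₁.sub u hu ha, k1⟩ b ab, m₂.sub v hv hb⟩
      obtain ⟨v', j1, j2⟩ := e₁.ge ⟨b, k3.1, rfl⟩
      obtain rfl : v' = v := i (.inl j1) (.inr (t₂ hv hb k3.2).1) (j2.trans (t₂ hv hb k3.2).2)
      obtain ⟨b', j3, j4, j5⟩ := r₁ _ j1
      obtain rfl : b' = b := i' (.inl j3) (.inl k3.1) (j4.trans j2)
      exact (m₁.adj u hu _ (s.s₁ j1) uv).2 ⟨a, ha, _, j5, ab⟩
  have out : ∀ u ∈ B₁, u ∉ B₂ → ∀ v ∈ B₂, v ∉ B₁ → G.Adj u v → Tc G' (φ₁ u) (φ₂ v) := by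
    intro u hu _ v hv hv' a
    have k1 : u ∈ X₁ := by_contra fun k => hv' (s.c₁ u ⟨hu, k⟩ v a)
    have k2 : v ∈ X₂ := by_contra fun k => ‹u ∉ B₂› (s.c₂ v ⟨hv, k⟩ u a.symm)
    obtain ⟨u', j1, j2, j3⟩ := r₁ u k1
    obtain ⟨v', j4, j5, j6⟩ := r₂ v k2
    exact ⟨u', j3, v', j6, pat_adj i' p.le (.inl k1) (.inr k2) (.inl j1) (.inr j4) j2 j5 a⟩
  refine ⟨fun v => {w | (v ∈ B₁ ∧ w ∈ φ₁ v) ∨ (v ∈ B₂ ∧ w ∈ φ₂ v)}, ⟨fun v hv => ?_,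
    fun v hv w k => ?_, fun u hu v hv uv => Set.disjoint_left.2 ?_, fun u hu v hv uv => ⟨fun a => ?_,
    ?_⟩⟩, fun v hv => ?_⟩
  · by_cases k1 : v ∈ B₁ <;> by_cases k2 : v ∈ B₂ <;> simp only [k1, k2, true_and, false_and,
      or_false, false_or]
    · obtain ⟨a, a1, a2, a3⟩ := r₁ v (s.int ⟨k1, k2⟩).1
      obtain ⟨b, b1, b2, b3⟩ := r₂ v (s.int ⟨k1, k2⟩).2
      exact (m₁.cn v k1).union (m₂.cn v k2) a3 (i' (.inr b1) (.inl a1) (b2.trans a2.symm) ▸ b3)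
    · exact m₁.cn v k1
    · exact m₂.cn v k2
    · exact absurd (s.un.le hv) (not_or.2 ⟨k1, k2⟩)
  · exact s'.un.ge (k.imp (fun k => m₁.sub v k.1 k.2) fun k => m₂.sub v k.1 k.2)
  · rintro w (k | k) (k' | k')
    · exact Set.disjoint_left.1 (m₁.dis u k.1 v k'.1 uv) k.2 k'.2
    · exact uv (mix u k.1 v k'.1 w k.2 k'.2)
    · exact uv (mix v k'.1 u k.1 w k'.2 k.2).symm
    · exact Set.disjoint_left.1 (m₂.dis u k.1 v k'.1 uv) k.2 k'.2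
  · by_cases k1 : u ∈ B₁ ∧ v ∈ B₁
    · exact ((m₁.adj u k1.1 v k1.2 uv).1 a).mono (fun _ k => .inl ⟨k1.1, k⟩)
        fun _ k => .inl ⟨k1.2, k⟩
    by_cases k2 : u ∈ B₂ ∧ v ∈ B₂
    · exact ((m₂.adj u k2.1 v k2.2 uv).1 a).mono (fun _ k => .inr ⟨k2.1, k⟩)
        fun _ k => .inr ⟨k2.2, k⟩
    rcases s.un.le hu with j | j <;> rcases s.un.le hv with j' | j'
    · exact absurd ⟨j, j'⟩ k1
    · exact (out u j (fun k => k2 ⟨k, j'⟩) v j' (fun k => k1 ⟨j, k⟩) a).mono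
        (fun _ k => .inl ⟨j, k⟩) fun _ k => .inr ⟨j', k⟩
    · exact (out v j' (fun k => k2 ⟨j, k⟩) u j (fun k => k1 ⟨k, j'⟩) a.symm).symm.mono
        (fun _ k => .inr ⟨j, k⟩) fun _ k => .inl ⟨j', k⟩
    · exact absurd ⟨j, j'⟩ k2
  · rintro ⟨a, k | k, b, k' | k', ab⟩
    · exact (m₁.adj u k.1 v k'.1 uv).2 ⟨a, k.2, b, k'.2, ab⟩
    · exact crs u k.1 v k'.1 uv ⟨a, k.2, b, k'.2, ab⟩
    · exact (crs v k'.1 u k.1 uv.symm ⟨b, k'.2, a, k.2, ab.symm⟩).symm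
    · exact (m₂.adj u k.1 v k'.1 uv).2 ⟨a, k.2, b, k'.2, ab⟩
  · obtain ⟨v', j1, j2⟩ := e.le ⟨v, hv, rfl⟩
    refine ⟨v', j1, j2, ?_⟩
    rcases s.rt hv with k | k
    · obtain ⟨a, a1, a2, a3⟩ := r₁ v k
      exact .inl ⟨s.s₁ k, i' (.inl a1) (s'.rt j1) (a2.trans j2.symm) ▸ a3⟩
    · obtain ⟨a, a1, a2, a3⟩ := r₂ v k
      exact .inr ⟨s.s₂ k, i' (.inr a1) (s'.rt j1) (a2.trans j2.symm) ▸ a3⟩

end

theorem bRO : St_RO where
  refl a k x hx := ⟨x, hx, fun v => {v}, ⟨fun v _ => cn_single v,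
    fun _ h => singleton_subset_iff.2 h, fun _ _ _ _ h => disjoint_singleton.2 h,
    fun _ _ _ _ _ => tc_single.symm⟩, fun _ => rfl⟩
  trans a b c h h' k x hx := by
    obtain ⟨x', hx', φ, m, r⟩ := h k x hx
    obtain ⟨x'', hx'', ψ, m', r'⟩ := h' k x' hx'
    exact ⟨x'', hx'', _, m.comp m', fun j => ⟨x' j, r j, r' j⟩⟩
  skip n G B X B' X' k x x' Q hx hx' s1 s2 cl l c k' y hy := by
    choose σ hσ using fun j => hx'.ex (hy.mem j)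
    have σi : Injective σ := fun a b e => hy.1 (by rw [← hσ, ← hσ, e])
    have σs : Surjective σ := fun i => by
      obtain ⟨j, e⟩ := hy.ex (hx'.mem i)
      exact ⟨j, hx'.1 ((hσ j).trans e)⟩
    obtain ⟨φ, p1, p2⟩ : ∃ φ : Fin n → Set (Fin n), (∀ j, φ (x' j) = Q j) ∧
        ∀ v, v ∉ X' → φ v = {v} :=
      ⟨extend x' Q fun v => {v}, fun j => hx'.1.extend_apply _ _ j,
        fun v hv => extend_apply' _ _ _ fun ⟨j, e⟩ => hv (e ▸ hx'.mem j)⟩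
    have cs : ∀ v, (∃ j, v = x' j) ∨ v ∉ X' := fun v =>
      (em (v ∈ X')).imp_left fun k => (hx'.ex k).imp fun _ => Eq.symm
    have one : ∀ j, ∀ v ∈ B', v ∉ X' → Disjoint (Q j) {v} ∧ (G.Adj (x' j) v ↔ Tc G (Q j) {v}) := by
      refine fun j v h1 h2 => ⟨disjoint_singleton_right.2 fun k => (l.sub j k).2 ⟨h1, h2⟩,
        fun a => ⟨_, l.r j, v, rfl, a⟩, ?_⟩
      rintro ⟨u, u1, _, rfl, a⟩
      have : u ∈ X' := by_contra fun k => (l.sub j u1).2 ⟨cl _ ⟨h1, h2⟩ u a.symm, k⟩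
      obtain ⟨i, rfl⟩ := hx'.ex this
      exact eq_of_dis l.dis (l.r i) u1 ▸ a
    refine ⟨x ∘ σ, ⟨hx.1.comp σi, (σs.range_comp x).trans hx.2⟩, φ, ⟨fun v hv => ?_, fun v hv => ?_,
      fun u hu v hv uv => ?_, fun u hu v hv uv => ?_⟩, fun j => ?_⟩
    · rcases cs v with ⟨j, rfl⟩ | k
      · exact p1 j ▸ l.cn j
      · exact p2 v k ▸ cn_single v
    · rcases cs v with ⟨j, rfl⟩ | k
      · exact p1 j ▸ fun _ k => (l.sub j k).1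
      · exact p2 v k ▸ singleton_subset_iff.2 (s2 hv)
    · rcases cs u with ⟨i, rfl⟩ | k <;> rcases cs v with ⟨j, rfl⟩ | k'
      · rw [p1, p1]; exact l.dis i j fun e => uv (e ▸ rfl)
      · rw [p1, p2 v k']; exact (one i v hv k').1
      · rw [p1, p2 u k]; exact (one j u hu k).1.symm
      · rw [p2 u k, p2 v k']; exact disjoint_singleton.2 uv
    · rcases cs u with ⟨i, rfl⟩ | k <;> rcases cs v with ⟨j, rfl⟩ | k'
      · rw [p1, p1]; exact ⟨fun a => ⟨_, l.r i, _, l.r j, a⟩, c i j fun e => uv (e ▸ rfl)⟩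
      · rw [p1, p2 v k']; exact (one i v hv k').2
      · rw [p1, p2 u k]
        exact ⟨fun a => ((one j u hu k).2.1 a.symm).symm, fun a => ((one j u hu k).2.2 a.symm).symm⟩
      · rw [p2 u k, p2 v k']; exact tc_single.symm
    · rw [← hσ, p1]; exact l.l _

theorem sub_const {β : Type} [Finite β] (f : ℕ → β) :
    ∃ g : ℕ → ℕ, StrictMono g ∧ ∀ i j, f (g i) = f (g j) := by
  obtain ⟨y, hy⟩ := Finite.exists_infinite_fiber f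
  have h : {n | f n = y}.Infinite := Set.infinite_coe_iff.1 hy
  exact ⟨Nat.nth fun n => f n = y, Nat.nth_strictMono h,
    fun i j => (Nat.nth_mem_of_infinite h i).trans (Nat.nth_mem_of_infinite h j).symm⟩

theorem lab {κ : Type} [Finite κ] {T : Set RG} (hT : T.PartiallyWellOrderedOn RG.le) (a : ℕ → RG)
    (ha : ∀ i, a i ∈ T) (l : ∀ i, Fin (a i).n → κ) : ∃ g : ℕ → ℕ, StrictMono g ∧ ∀ i j, i < j →
      LM (a (g i)).G (a (g i)).B (a (g i)).X (l _) (a (g j)).G (a (g j)).B (a (g j)).X (l _) := by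
  obtain ⟨g, hg⟩ := exists_increasing_or_nonincreasing_subseq' RG.le a
  replace hg := hg.resolve_right fun h => by
    obtain ⟨i, j, ij, k⟩ := hT.exists_lt fun n => ha (g n)
    exact h i j ij k
  obtain ⟨x₀, h₀⟩ := exists_en (toFinite (a (g 0)).X)
  generalize (a (g 0)).X.ncard = k at x₀ h₀
  choose nx n1 n2 using fun i (x : {x : Fin k → Fin (a (g i)).n // En x (a (g i)).X}) =>
    hg i k x.1 x.2
  let x : ∀ i, {x : Fin k → Fin (a (g i)).n // En x (a (g i)).X} := fun i =>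
    Nat.rec ⟨x₀, h₀⟩ (fun i x => ⟨nx i x, n1 i x⟩) i
  have ch : ∀ i j, i < j → ∃ φ, RM (a (g i)).G (a (g i)).B (a (g j)).G (a (g j)).B φ ∧
      ∀ s, (x j).1 s ∈ φ ((x i).1 s) := by
    intro i j ij
    induction ij with
    | refl => exact n2 i (x i)
    | @step j _ ih =>
      obtain ⟨φ, m, r⟩ := ih
      obtain ⟨ψ, m', r'⟩ := n2 j (x j)
      exact ⟨_, m.comp m', fun s => ⟨_, r s, r' s⟩⟩
  obtain ⟨h, h1, h2⟩ := sub_const fun i s => l (g i) ((x i).1 s)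
  refine ⟨g ∘ h, g.strictMono.comp h1, fun i j ij => ?_⟩
  obtain ⟨φ, m, r⟩ := ch _ _ (h1 ij)
  refine ⟨φ, m, fun v hv => ?_⟩
  obtain ⟨s, rfl⟩ := (x (h i)).2.ex hv
  exact ⟨_, (x (h j)).2.mem s, congrFun (h2 j i) s, r s⟩

theorem le_of_lm {κ : Type} {a b : RG} {l : Fin a.n → κ} {l' : Fin b.n → κ} (i : InjOn l a.X)
    (i' : InjOn l' b.X) (e : l '' a.X = l' '' b.X) (h : LM a.G a.B a.X l b.G b.B b.X l') :
    a.le b := by
  intro k x hx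
  obtain ⟨φ, m, r⟩ := h
  choose x' h1 h2 h3 using fun j => r (x j) (hx.mem j)
  refine ⟨x', ⟨fun s t k => hx.1 (i (hx.mem s) (hx.mem t) (by rw [← h2, ← h2, k])),
    Subset.antisymm (range_subset_iff.2 h1) fun v hv => ?_⟩, φ, m, h3⟩
  obtain ⟨u, u1, u2⟩ := e.ge ⟨v, hv, rfl⟩
  obtain ⟨s, rfl⟩ := hx.ex u1
  exact ⟨s, i' (h1 s) hv ((h2 s).trans u2)⟩

theorem exists_lab {V : Type} {X : Set V} (hf : X.Finite) {L : ℕ} (h : X.ncard ≤ L) :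
    ∃ l : V → Option (Fin L), InjOn l X := by
  obtain ⟨x, hx⟩ := exists_en hf
  refine ⟨extend x (fun j => some (j.castLE h)) fun _ => none, fun u hu v hv e => ?_⟩
  obtain ⟨i, rfl⟩ := hx.ex hu
  obtain ⟨j, rfl⟩ := hx.ex hv
  rw [hx.1.extend_apply, hx.1.extend_apply] at e
  rw [Fin.castLE_injective h (Option.some.inj e)]

theorem bLIFT : St_LIFT := by
  intro w S T hT H
  rw [partiallyWellOrderedOn_iff_exists_lt]
  intro a ha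
  have : ∀ i, ∃ (p : Prop) (B₁ X₁ B₂ X₂ : Set (Fin (a i).n)) (l : Fin (a i).n → Option (Fin (w + w))),
      Split (a i).G (a i).B (a i).X B₁ X₁ B₂ X₂ ∧ InjOn l (X₁ ∪ X₂) ∧
      (p → B₁ = X₁ ∪ X₂ ∧ X₁ = X₁ ∪ X₂ ∧ B₂ = X₁ ∪ X₂ ∧ X₂ = X₁ ∪ X₂) ∧
      (¬ p → (⟨_, (a i).G, B₁, X₁⟩ : RG) ∈ T ∧ (⟨_, (a i).G, B₂, X₂⟩ : RG) ∈ T) := by
    intro i
    rcases H _ (ha i) with ⟨h1, h2⟩ | ⟨B₁, X₁, B₂, X₂, h1, h2, h3, h4, h5⟩
    · obtain ⟨l, hl⟩ := exists_lab (toFinite (a i).B) (h1.trans (Nat.le_add_right w w))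
      exact ⟨True, (a i).B, (a i).B, (a i).B, (a i).B, l, ⟨(union_self _).symm, Subset.rfl,
        Subset.rfl, Subset.rfl, fun _ k => absurd k.1 k.2, fun _ k => absurd k.1 k.2,
        h2.trans subset_union_left⟩, by rwa [union_self], by simp, fun k => absurd trivial k⟩
    · obtain ⟨l, hl⟩ := exists_lab (toFinite (X₁ ∪ X₂))
        ((Set.ncard_union_le _ _).trans (Nat.add_le_add h4 h5))
      exact ⟨False, B₁, X₁, B₂, X₂, l, h3, hl, False.elim, fun _ => ⟨h1, h2⟩⟩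
  choose p B₁ X₁ B₂ X₂ l s inj hp hp' using this
  obtain ⟨g, g1, g2⟩ := sub_const fun i =>
    (p i, l i '' X₁ i, l i '' X₂ i, l i '' (a i).X, pat (a i).G (X₁ i ∪ X₂ i) (l i))
  simp only [Prod.mk.injEq] at g2
  have fin : ∀ i j, LM (a (g i)).G (B₁ _) (X₁ _) (l _) (a (g j)).G (B₁ _) (X₁ _) (l _) →
      LM (a (g i)).G (B₂ _) (X₂ _) (l _) (a (g j)).G (B₂ _) (X₂ _) (l _) →
      (a (g i)).le (a (g j)) := fun i j h1 h2 =>
    le_of_lm ((inj _).mono (s _).rt) ((inj _).mono (s _).rt) (g2 i j).2.2.2.1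
      (lm_glue (s _) (s _) (inj _) (inj _) (g2 i j).2.1 (g2 i j).2.2.1 (g2 i j).2.2.2.1
        (g2 i j).2.2.2.2 h1 h2)
  by_cases k : p (g 0)
  · obtain ⟨a1, a2, a3, a4⟩ := hp _ k
    obtain ⟨b1, b2, b3, b4⟩ := hp (g 1) ((g2 0 1).1 ▸ k)
    have := lm_flat (inj (g 0)) (inj (g 1)) (by rw [← a2, ← b2]; exact (g2 0 1).2.1)
      (g2 0 1).2.2.2.2
    refine ⟨g 0, g 1, g1 Nat.zero_lt_one, fin 0 1 ?_ ?_⟩
    · rw [a1.trans a2.symm, b1.trans b2.symm]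
      rwa [← a2, ← b2] at this
    · rw [a3.trans a4.symm, b3.trans b4.symm]
      rwa [← a4, ← b4] at this
  · have k' : ∀ i, ¬ p (g i) := fun i => (g2 0 i).1 ▸ k
    obtain ⟨h, h1, h2⟩ := lab hT (fun i => ⟨_, (a (g i)).G, B₁ _, X₁ _⟩) (fun i => (hp' _ (k' i)).1)
      fun i => l (g i)
    obtain ⟨h', h3, h4⟩ := lab hT (fun i => ⟨_, (a (g (h i))).G, B₂ _, X₂ _⟩)
      (fun i => (hp' _ (k' _)).2) fun i => l (g (h i))
    exact ⟨_, _, g1 (h1 (h3 Nat.zero_lt_one)),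
      fin _ _ (h2 _ _ (h3 Nat.zero_lt_one)) (h4 0 1 Nat.zero_lt_one)⟩

end Pool.Agent.Lib.IM
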