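import Pool.Agent.Lib.IM.Blue

/-! Linked trees. -/

open Set Function

namespace Pool.Agent.Lib.IM

/-- A value and its two copies. -/
def Gd (μ v p q : ℕ) : Prop := p ≤ v ∧ q ≤ v ∧ ((p < v ∧ q < v) ∨ p ≤ μ ∨ q ≤ μ)

/-- Replacement of values by smaller ones, with values up to `μ` for free. -/
def DD (μ : ℕ) (M' M : Multiset ℕ) (s : Prop) : Prop := ∃ X Y Z, M' = X + Y ∧ M = X + Z ∧
  (∀ y ∈ Y, y ≤ μ ∨ ∃ z ∈ Z, y < z) ∧ (s → ∃ z ∈ Z, μ < z)

theorem DD.add {μ M₁' M₁ M₂' M₂ s s'} (h : DD μ M₁' M₁ s) (h' : DD μ M₂' M₂ s') :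
    DD μ (M₁' + M₂') (M₁ + M₂) (s ∨ s') := by
  obtain ⟨X, Y, Z, rfl, rfl, h1, h2⟩ := h
  obtain ⟨X', Y', Z', rfl, rfl, h3, h4⟩ := h'
  refine ⟨X + X', Y + Y', Z + Z', by abel, by abel, fun y hy => ?_, ?_⟩
  · rcases Multiset.mem_add.1 hy with h | h
    · exact (h1 y h).imp_right fun ⟨z, hz, l⟩ => ⟨z, Multiset.mem_add.2 (.inl hz), l⟩
    · exact (h3 y h).imp_right fun ⟨z, hz, l⟩ => ⟨z, Multiset.mem_add.2 (.inr hz), l⟩
  · rintro (h | h)
    · exact (h2 h).imp fun z hz => ⟨Multiset.mem_add.2 (.inl hz.1), hz.2⟩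
    · exact (h4 h).imp fun z hz => ⟨Multiset.mem_add.2 (.inr hz.1), hz.2⟩

theorem DD.of_eq {μ M₁' M₁ M₂' M₂} {s s' : Prop} (h : DD μ M₁' M₁ s) (e' : M₂' = M₁') (e : M₂ = M₁)
    (hs : s' → s) : DD μ M₂' M₂ s' := by
  obtain ⟨X, Y, Z, h1, h2, h3, h4⟩ := h
  exact ⟨X, Y, Z, e'.trans h1, e.trans h2, h3, fun h => h4 (hs h)⟩

theorem Gd.dd {μ v p q} (h : Gd μ v p q) : DD μ ({p} + {q}) {v} (μ < v ∧ p < v ∧ q < v) := by
  unfold Gd at h
  by_cases h1 : p = v ∧ q ≤ μ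
  · exact ⟨{v}, {q}, 0, by rw [h1.1], by simp, by simp [h1.2], by omega⟩
  by_cases h2 : q = v ∧ p ≤ μ
  · exact ⟨{v}, {p}, 0, by rw [h2.1, add_comm], by simp, by simp [h2.2], by omega⟩
  refine ⟨0, {p} + {q}, {v}, by simp, by simp, fun y hy => ?_, fun h => ⟨v, by simp, h.1⟩⟩
  simp only [Multiset.mem_add, Multiset.mem_singleton, exists_eq_left] at hy ⊢
  omega

theorem Gd.min {μ v p q v' p' q'} (h : Gd μ v p q) (h' : Gd μ v' p' q') :
    Gd μ (min v v') (min p p') (min q q') := by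
  unfold Gd at *
  omega

theorem DD.lt {μ M' M} (h : DD μ M' M True) : Multiset.IsDershowitzMannaLT M' M := by
  obtain ⟨X, Y, Z, h1, h2, h3, h4⟩ := h
  obtain ⟨z, hz, l⟩ := h4 trivial
  refine ⟨X, Y, Z, fun e => by simp [e] at hz, h1, h2, fun y hy => ?_⟩
  exact (h3 y hy).elim (fun h => ⟨z, hz, by omega⟩) id

namespace Tr
variable {α : Type} {f : Set α → ℕ} {A : Set α} {P : Set α → Prop}

/-- Intersection of all displayed sets with `A`. -/
def cap (A : Set α) : Tr α → Tr α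
  | leaf Z => leaf (Z ∩ A)
  | node a b => node (a.cap A) (b.cap A)

/-- The displayed sets. -/
def dis : Tr α → Set (Set α)
  | leaf Z => {Z}
  | node a b => insert (a.set ∪ b.set) (a.dis ∪ b.dis)

/-- The potential. -/
def pot (f : Set α → ℕ) : Tr α → Multiset ℕ
  | leaf Z => {f Z}
  | node a b => a.pot f + b.pot f + {f (a.set ∪ b.set)} + {min (f (a.set ∪ b.set)) (f a.set)} +
      {min (f (a.set ∪ b.set)) (f b.set)}

theorem cap_set (t : Tr α) : (t.cap A).set = t.set ∩ A := by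
  induction t with
  | leaf Z => rfl
  | node a b ha hb => simp only [cap, set, ha, hb, union_inter_distrib_right]

theorem cap_eq {t : Tr α} (h : t.set ⊆ A) : t.cap A = t := by
  induction t with
  | leaf Z => exact congrArg leaf (inter_eq_left.2 h)
  | node a b ha hb => simp only [cap, ha (subset_union_left.trans h), hb (subset_union_right.trans h)]

theorem set_mem (t : Tr α) : t.set ∈ t.dis := by
  cases t with
  | leaf Z => rfl
  | node a b => exact .inl rfl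

theorem dis_sub {t : Tr α} {Z} (h : Z ∈ t.dis) : Z ⊆ t.set := by
  induction t with
  | leaf Z => exact Eq.subset h
  | node a b ha hb =>
    rcases h with h | h | h
    · exact h.subset
    · exact (ha h).trans subset_union_left
    · exact (hb h).trans subset_union_right

theorem dis_fin (t : Tr α) : t.dis.Finite := by
  induction t with
  | leaf Z => exact finite_singleton Z
  | node a b ha hb => exact (ha.union hb).insert _

theorem laminar {t : Tr α} (h : t.Ok P) {Z W} (hZ : Z ∈ t.dis) (hW : W ∈ t.dis) :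
    Z ⊆ W ∨ W ⊆ Z ∨ Disjoint Z W := by
  induction t with
  | leaf Z => exact .inl (Eq.subset (hZ.trans hW.symm))
  | node a b ha hb =>
    rcases hZ with hZ | hZ
    · exact .inr (.inl (hZ ▸ dis_sub hW))
    rcases hW with hW | hW
    · exact .inl (hW ▸ dis_sub (t := node a b) (.inr hZ))
    rcases hZ with hZ | hZ <;> rcases hW with hW | hW
    · exact ha h.1 hZ hW
    · exact .inr (.inr (h.2.2.1.mono (dis_sub hZ) (dis_sub hW)))
    · exact .inr (.inr (h.2.2.1.symm.mono (dis_sub hZ) (dis_sub hW)))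
    · exact hb h.2.1 hZ hW

theorem Ok.top {t : Tr α} (h : t.Ok P) : P t.set := by
  cases t with
  | leaf Z => exact h.2
  | node a b => exact h.2.2.2

theorem Ok.cap {c : ℕ} {t : Tr α} (h : t.Ok fun Z => f Z ≤ c) (hA : ∀ Z ∈ t.dis, f (Z ∩ A) ≤ f Z) :
    (t.cap A).Ok fun Z => f Z ≤ c := by
  induction t with
  | leaf Z => exact ⟨h.1.anti inter_subset_left, (hA Z rfl).trans h.2⟩
  | node a b ha hb =>
    refine ⟨ha h.1 fun Z hZ => hA Z (.inr (.inl hZ)), hb h.2.1 fun Z hZ => hA Z (.inr (.inr hZ)),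
      ?_, ?_⟩
    · rw [cap_set, cap_set]; exact h.2.2.1.mono inter_subset_left inter_subset_left
    · rw [cap_set, cap_set, ← union_inter_distrib_right]; exact (hA _ (.inl rfl)).trans h.2.2.2

theorem off {μ : ℕ} {t : Tr α} (h : ∀ Z ∈ t.dis, Gd μ (f Z) (f (Z ∩ A)) (f (Z ∩ Aᶜ))) :
    DD μ ((t.cap A).pot f + (t.cap Aᶜ).pot f) (t.pot f) False := by
  induction t with
  | leaf Z => exact (h Z rfl).dd.of_eq rfl rfl False.elim
  | node a b ha hb =>
    have h0 := h _ (.inl rfl)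
    refine (((((ha fun Z hZ => h Z (.inr (.inl hZ))).add
      (hb fun Z hZ => h Z (.inr (.inr hZ)))).add h0.dd).add
      (h0.min (h _ (.inr (.inl a.set_mem)))).dd).add
      (h0.min (h _ (.inr (.inr b.set_mem)))).dd).of_eq ?_ rfl False.elim
    simp only [cap, pot, cap_set, ← union_inter_distrib_right]
    abel

theorem Desc.sub {m : ℕ} {t s : Tr α} (h : Desc f m t s) : s.set ⊆ t.set := by
  induction h with
  | refl => exact Subset.rfl
  | left _ _ _ _ _ ih => exact ih.trans subset_union_left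
  | right _ _ _ _ _ ih => exact ih.trans subset_union_right

theorem Desc.top {m : ℕ} {t s : Tr α} (h : Desc f m t s) : m ≤ f t.set := by
  cases h <;> assumption

/-- What the surgery produces along the path. -/
def Sg (f : Set α → ℕ) (c : ℕ) (A : Set α) (S : Tr α) (Z : Set α) (M₁ M₀ : Multiset ℕ) : Prop :=
  ∃ (t : Tr α) (M : Multiset ℕ) (s : Prop), t.set = Z ∪ A ∧ t.Ok (fun Z => f Z ≤ c) ∧
    t.pot f = S.pot f + M ∧ DD (f A) (M₁ + M) M₀ s ∧ (s ∨ f (Z ∩ A) = f Z)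

theorem sg_step {c : ℕ} {S a b : Tr α} (ha : Sg f c A S a.set ((a.cap A).pot f) (a.pot f))
    (hb : b.Ok fun Z => f Z ≤ c) (hd : Disjoint a.set b.set) (hc : f (a.set ∪ b.set) ≤ c)
    (hoff : ∀ Z ∈ b.dis, Gd (f A) (f Z) (f (Z ∩ A)) (f (Z ∩ Aᶜ)))
    (hon : ∀ Z, Z = a.set ∨ Z = a.set ∪ b.set → f A < f Z ∧ f A ≤ f (Z ∩ A) ∧ f A ≤ f (Z ∪ A) ∧
      f (Z ∩ A) + f (Z ∪ A) ≤ f Z + f A) :
    Sg f c A S (a.set ∪ b.set) (((node a b).cap A).pot f) ((node a b).pot f) := by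
  obtain ⟨t, M, s, h1, h2, h3, h4, h5⟩ := ha
  have e : a.set ∪ A ∪ b.set ∩ Aᶜ = a.set ∪ b.set ∪ A := by
    ext x; simp only [mem_union, mem_inter_iff, mem_compl_iff]; tauto
  have ga := hon _ (.inl rfl)
  have gt := hon _ (.inr rfl)
  have g1 : Gd (f A) (f a.set) (f (a.set ∩ A)) (f (a.set ∪ A)) := by unfold Gd; omega
  have g2 : Gd (f A) (f (a.set ∪ b.set)) (f ((a.set ∪ b.set) ∩ A)) (f (a.set ∪ b.set ∪ A)) := by
    unfold Gd; omega
  refine ⟨node t (b.cap Aᶜ), M + (b.cap Aᶜ).pot f + {f (a.set ∪ b.set ∪ A)} +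
    {min (f (a.set ∪ b.set ∪ A)) (f (a.set ∪ A))} + {min (f (a.set ∪ b.set ∪ A)) (f (b.set ∩ Aᶜ))},
    _, ?_, ⟨h2, hb.cap fun Z hZ => (hoff Z hZ).2.1, ?_, ?_⟩, ?_,
    ((((h4.add (off hoff)).add g2.dd).add (g2.min g1).dd).add
      (g2.min (hoff _ b.set_mem)).dd).of_eq ?_ rfl id, ?_⟩
  · simp only [set, h1, cap_set, e]
  · rw [h1, cap_set]
    exact disjoint_union_left.2 ⟨hd.mono_right inter_subset_left,
      disjoint_compl_right.mono_right inter_subset_right⟩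
  · rw [h1, cap_set, e]; omega
  · simp only [pot, h1, cap_set, e, h3]; abel
  · simp only [cap, pot, cap_set, ← union_inter_distrib_right]; abel
  · rcases h5 with h5 | h5
    · tauto
    · by_cases h6 : f ((a.set ∪ b.set) ∩ A) = f (a.set ∪ b.set)
      · exact .inr h6
      · by_cases h7 : f (a.set ∪ b.set ∪ A) = f (a.set ∪ b.set)
        · exact .inl (.inl (.inr (by omega)))
        · exact .inl (.inl (.inl (.inr (by omega))))

theorem pot_swap (a b : Tr α) : (node a b).pot f = (node b a).pot f := by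
  simp only [pot, union_comm b.set]; abel

theorem sg {c m : ℕ} {S s : Tr α} {E : Set α} (hS : S.set = A) (hS' : S.Ok fun Z => f Z ≤ c)
    (hs : s.set ⊆ A) (hm : f A < m) (hsub : ∀ Z W, f (Z ∩ W) + f (Z ∪ W) ≤ f Z + f W) (hA : A ⊆ E)
    (hmin : ∀ B, s.set ⊆ B → B ⊆ E → f A ≤ f B) {t : Tr α} (h : Desc f m t s) (hE : t.set ⊆ E)
    (ht : t.Ok fun Z => f Z ≤ c)
    (hoff : ∀ Z ∈ t.dis, Disjoint Z s.set → Gd (f A) (f Z) (f (Z ∩ A)) (f (Z ∩ Aᶜ))) :
    Sg f c A S t.set ((t.cap A).pot f) (t.pot f) := by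
  have hon : ∀ Z, s.set ⊆ Z → Z ⊆ E → m ≤ f Z → f A < f Z ∧ f A ≤ f (Z ∩ A) ∧ f A ≤ f (Z ∪ A) ∧
      f (Z ∩ A) + f (Z ∪ A) ≤ f Z + f A := fun Z h1 h2 h3 =>
    ⟨by omega, hmin _ (subset_inter h1 hs) (inter_subset_left.trans h2),
      hmin _ (h1.trans subset_union_left) (union_subset h2 hA), hsub _ _⟩
  induction h with
  | refl t _ =>
    exact ⟨S, 0, False, by rw [hS, union_eq_right.2 hs], hS', by simp,
      ⟨t.pot f, 0, 0, by rw [cap_eq hs, add_zero], by simp, by simp, False.elim⟩,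
      .inr (by rw [inter_eq_left.2 hs])⟩
  | left a b s h1 h2 ih =>
    have ha : a.set ⊆ E := subset_union_left.trans hE
    refine sg_step (ih hs hmin ha ht.1 (fun Z hZ => hoff Z (.inr (.inl hZ))) hon) ht.2.1 ht.2.2.1
      ht.2.2.2 (fun Z hZ => hoff Z (.inr (.inr hZ)) (ht.2.2.1.symm.mono (dis_sub hZ) h2.sub)) ?_
    rintro _ (rfl | rfl)
    · exact hon _ h2.sub ha h2.top
    · exact hon _ (h2.sub.trans subset_union_left) hE h1
  | right a b s h1 h2 ih =>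
    have ha : b.set ⊆ E := subset_union_right.trans hE
    have := sg_step (ih hs hmin ha ht.2.1 (fun Z hZ => hoff Z (.inr (.inr hZ))) hon) ht.1
      ht.2.2.1.symm (union_comm _ _ ▸ ht.2.2.2)
      (fun Z hZ => hoff Z (.inr (.inl hZ)) (ht.2.2.1.mono (dis_sub hZ) h2.sub)) (by
        rintro _ (rfl | rfl)
        · exact hon _ h2.sub ha h2.top
        · exact hon _ (h2.sub.trans subset_union_left) (union_comm _ _ ▸ hE) (union_comm _ _ ▸ h1))
    simp only [cap] at this ⊢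
    rwa [pot_swap, pot_swap a, show (node a b).set = b.set ∪ a.set from union_comm _ _]

end Tr

/-- A minimal set that splits few members of a laminar family. -/
theorem exists_unsplit {α : Type} {f : Set α → ℕ} (hsub : ∀ Z W, f (Z ∩ W) + f (Z ∪ W) ≤ f Z + f W)
    (hc : ∀ Z, f Zᶜ = f Z) {F E : Set α} (hFE : F ⊆ E) {L : Set (Set α)} (hL : L.Finite)
    (hLE : ∀ Z ∈ L, Z ⊆ E ∧ Disjoint Z F)
    (lam : ∀ Z ∈ L, ∀ W ∈ L, Z ⊆ W ∨ W ⊆ Z ∨ Disjoint Z W) :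
    ∃ A, F ⊆ A ∧ A ⊆ E ∧ (∀ B, F ⊆ B → B ⊆ E → f A ≤ f B) ∧
      ∀ Z ∈ L, Gd (f A) (f Z) (f (Z ∩ A)) (f (Z ∩ Aᶜ)) := by
  obtain ⟨A₀, h₀, m₀⟩ := (measure f).wf.has_min {A | F ⊆ A ∧ A ⊆ E} ⟨F, Subset.rfl, hFE⟩
  obtain ⟨A, ⟨h1, h2, h3⟩, hm⟩ := (measure fun A : Set α =>
    {Z ∈ L | (Z ∩ A).Nonempty ∧ (Z ∩ Aᶜ).Nonempty}.ncard).wf.has_min
    {A | F ⊆ A ∧ A ⊆ E ∧ ∀ B, F ⊆ B → B ⊆ E → f A ≤ f B}
    ⟨A₀, h₀.1, h₀.2, fun B h h' => not_lt.1 (m₀ B ⟨h, h'⟩)⟩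
  refine ⟨A, h1, h2, h3, fun Z hZ => ?_⟩
  have e0 : f ∅ ≤ f A := by
    have h4 := hsub A Aᶜ
    have h5 := hc ∅
    rw [inter_compl_self, union_compl_self, hc] at h4
    rw [compl_empty] at h5
    omega
  have u1 : F ⊆ Z ∪ A := h1.trans subset_union_right
  have u2 : Z ∪ A ⊆ E := union_subset (hLE Z hZ).1 h2
  have v1 : F ⊆ A ∩ Zᶜ := subset_inter h1 (hLE Z hZ).2.symm.subset_compl_right
  have v2 : A ∩ Zᶜ ⊆ E := inter_subset_left.trans h2
  have a1 := hsub Z A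
  have a2 := h3 _ u1 u2
  have b1 := hsub Z Aᶜ
  have b2 := h3 _ v1 v2
  have b3 : f (Z ∪ Aᶜ) = f (A ∩ Zᶜ) := by
    rw [← hc, compl_union, compl_compl, inter_comm]
  rw [hc, b3] at b1
  refine ⟨by omega, by omega, ?_⟩
  by_cases s1 : (Z ∩ A).Nonempty
  swap
  · rw [not_nonempty_iff_eq_empty.1 s1]; exact .inr (.inl e0)
  by_cases s2 : (Z ∩ Aᶜ).Nonempty
  swap
  · rw [not_nonempty_iff_eq_empty.1 s2]; exact .inr (.inr e0)
  have less : ∀ B, F ⊆ B → B ⊆ E → f B ≤ f A → ¬ ((Z ∩ B).Nonempty ∧ (Z ∩ Bᶜ).Nonempty) →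
      (∀ x, x ∉ Z → (x ∈ B ↔ x ∈ A)) → False := by
    intro B k1 k2 k3 k4 k5
    refine hm B ⟨k1, k2, fun C c1 c2 => k3.trans (h3 C c1 c2)⟩ ?_
    refine Set.ncard_lt_ncard ⟨fun W ⟨hW, ⟨x, x1, x2⟩, ⟨y, y1, y2⟩⟩ => ⟨hW, ?_⟩, fun h => ?_⟩
      (hL.subset fun _ h => h.1)
    · rcases lam Z hZ W hW with h | h | h
      · exact ⟨s1.mono (inter_subset_inter_left _ h), s2.mono (inter_subset_inter_left _ h)⟩
      · exact absurd ⟨⟨x, h x1, x2⟩, ⟨y, h y1, y2⟩⟩ k4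
      · exact ⟨⟨x, x1, (k5 x fun hx => Set.disjoint_left.1 h hx x1).1 x2⟩,
          ⟨y, y1, fun hy => y2 ((k5 y fun hx => Set.disjoint_left.1 h hx y1).2 hy)⟩⟩
    · exact k4 (h ⟨hZ, s1, s2⟩).2
  refine .inl ⟨?_, ?_⟩
  · by_contra h
    exact less _ u1 u2 (by omega) (fun ⟨_, ⟨x, x1, x2⟩⟩ => x2 (.inl x1)) fun x hx => by simp [hx]
  · by_contra h
    exact less _ v1 v2 (by omega) (fun ⟨⟨x, x1, x2⟩, _⟩ => x2.2 x1) fun x hx => by simp [hx]

theorem bLNK : St_LNK := by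
  intro α f c T hsub hc
  have step : ∀ t : Tr α, t.Ok (fun Z => f Z ≤ c) → t.Lnk f ∨ ∃ t' : Tr α, t'.set = t.set ∧
      t'.Ok (fun Z => f Z ≤ c) ∧ Multiset.IsDershowitzMannaLT (t'.pot f) (t.pot f) := by
    intro t ht
    induction t with
    | leaf Z => exact .inl trivial
    | node a b ha hb =>
      rcases ha ht.1 with ha | ⟨a', h1, h2, X, Y, Z, h3, h4, h5, h6⟩
      swap
      · refine .inr ⟨.node a' b, by simp only [Tr.set, h1], ⟨h2, ht.2.1, h1 ▸ ht.2.2.1,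
          h1 ▸ ht.2.2.2⟩, X + (b.pot f + {f (a.set ∪ b.set)} +
          {min (f (a.set ∪ b.set)) (f a.set)} + {min (f (a.set ∪ b.set)) (f b.set)}), Y, Z, h3,
          ?_, ?_, h6⟩
        · simp only [Tr.pot, h1, h4]; abel
        · simp only [Tr.pot, h5]; abel
      rcases hb ht.2.1 with hb | ⟨b', h1, h2, X, Y, Z, h3, h4, h5, h6⟩
      swap
      · refine .inr ⟨.node a b', by simp only [Tr.set, h1], ⟨ht.1, h2, h1 ▸ ht.2.2.1,
          h1 ▸ ht.2.2.2⟩, X + (a.pot f + {f (a.set ∪ b.set)} +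
          {min (f (a.set ∪ b.set)) (f a.set)} + {min (f (a.set ∪ b.set)) (f b.set)}), Y, Z, h3,
          ?_, ?_, h6⟩
        · simp only [Tr.pot, h1, h4]; abel
        · simp only [Tr.pot, h5]; abel
      by_cases h : ∀ m t, Tr.Desc f m (.node a b) t → ∀ A, t.set ⊆ A → A ⊆ a.set ∪ b.set → m ≤ f A
      · exact .inl ⟨ha, hb, h⟩
      push Not at h
      obtain ⟨m, s, hd, A₀, k1, k2, k3⟩ := h
      obtain ⟨A, h1, h2, h3, h4⟩ := exists_unsplit hsub hc (k1.trans k2)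
        (L := {Z ∈ (Tr.node a b).dis | Disjoint Z s.set}) ((Tr.dis_fin _).subset fun _ h => h.1)
        (fun Z hZ => ⟨Tr.dis_sub hZ.1, hZ.2⟩) fun Z hZ W hW => Tr.laminar ht hZ.1 hW.1
      have hm : f A < m := (h3 _ k1 k2).trans_lt k3
      have e : (Tr.node a b).set ∩ A = A := inter_eq_right.2 h2
      obtain ⟨t, M, p, j1, j2, j3, j4, j5⟩ := Tr.sg (S := (Tr.node a b).cap A)
        ((Tr.cap_set _).trans e) (ht.cap fun Z hZ => by
          have := hsub Z A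
          have := h3 (Z ∪ A) (h1.trans subset_union_right) (union_subset (Tr.dis_sub hZ) h2)
          omega) h1 hm hsub h2 h3 hd Subset.rfl ht fun Z hZ hZ' => h4 Z ⟨hZ, hZ'⟩
      refine .inr ⟨t, j1.trans (union_eq_left.2 h2), j2, (j4.of_eq j3 rfl fun _ => ?_).lt⟩
      refine j5.resolve_right ?_
      have := hd.top
      rw [e]; omega
  suffices H : ∀ M : Multiset ℕ, ∀ T : Tr α, T.pot f = M → T.Ok (fun Z => f Z ≤ c) →
      ∃ T' : Tr α, T'.set = T.set ∧ T'.Ok (fun Z => f Z ≤ c) ∧ T'.Lnk f from H _ T rfl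
  intro M
  refine (Multiset.wellFounded_isDershowitzMannaLT (α := ℕ)).induction (C := fun M =>
    ∀ T : Tr α, T.pot f = M → T.Ok (fun Z => f Z ≤ c) →
      ∃ T' : Tr α, T'.set = T.set ∧ T'.Ok (fun Z => f Z ≤ c) ∧ T'.Lnk f) M ?_
  intro M ih T hT h
  rcases step T h with h1 | ⟨t, h1, h2, h3⟩
  · exact ⟨T, rfl, h, h1⟩
  · obtain ⟨T', k1, k2⟩ := ih _ (hT ▸ h3) t rfl h2
    exact ⟨T', k1.trans h1, k2⟩

end Pool.Agent.Lib.IM
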