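import Pool.Agent.Lib.NC4b.Defs

namespace Pool.Agent.Lib.IM

open Pool.Agent.Lib.NC4b

/-- `H` is a minor of `G`: there are pairwise disjoint connected branch sets in `G`, one for each
vertex of `H`, joined by an edge of `G` whenever the vertices are adjacent. -/
def Minor (H G : FinGraph) : Prop :=
  ∃ B : Fin H.1 → Set (Fin G.1), (∀ i, (G.2.induce (B i)).Connected) ∧
    (∀ i j, i ≠ j → Disjoint (B i) (B j)) ∧
    ∀ i j, H.2.Adj i j → ∃ u ∈ B i, ∃ v ∈ B j, G.2.Adj u v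

/-- The double fan: the path `2, …, n + 1`, and the vertices `0` and `1` joined to all of it. -/
def fan (n : ℕ) : FinGraph :=
  ⟨n + 2, SimpleGraph.fromRel fun u v => (u.val ≤ 1 ∧ 2 ≤ v.val) ∨ (2 ≤ u.val ∧ v.val = u.val + 1)⟩

/-- The lozenge chain: `n` levels `{2 i, 2 i + 1}`, consecutive levels completely joined. -/
def loz (n : ℕ) : FinGraph := ⟨2 * n, SimpleGraph.fromRel fun u v => v.val / 2 = u.val / 2 + 1⟩

/-- The hub chain: the `n` four-cycles `3 i + 1, 3 i + 2, 3 i + 4, 3 i + 3` in a row, and the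
vertex `0` joined to all the vertices `3 i + 2` and `3 i + 3`. -/
def hub (n : ℕ) : FinGraph :=
  ⟨3 * n + 2, SimpleGraph.fromRel fun u v => v.val % 3 ≠ 1 ∧
    (u.val = 0 ∨ (u.val % 3 = 1 ∧ 2 ≤ v.val ∧ u.val ≤ v.val + 2 ∧ v.val ≤ u.val + 2))⟩

end Pool.Agent.Lib.IM
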