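import Pool.Agent.Lib.IM.L1

/-! A tight segment. -/

open Set Function

namespace Pool.Agent.Lib.IM

variable {V : Type} {G : SimpleGraph V} {H : Set V} {k : ℕ} {x x' : Fin k → V} {Q : Fin k → Set V}

/-- Replacement of two rails. -/
def upd (Q : Fin k → Set V) (j a : Fin k) (S S' : Set V) : Fin k → Set V :=
  fun i => if i = j then S else if i = a then S' else Q i

theorem upd_j {j a : Fin k} {S S' : Set V} : upd Q j a S S' j = S := by simp [upd]

theorem upd_a {j a : Fin k} {S S' : Set V} (h : j ≠ a) : upd Q j a S S' a = S' := by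
  simp [upd, h.symm]

theorem upd_o {j a i : Fin k} {S S' : Set V} (h : i ≠ j) (h' : i ≠ a) : upd Q j a S S' i = Q i := by
  simp [upd, h, h']

theorem Lk.upd (h : Lk G H x x' Q) {j a : Fin k} {S S' : Set V} (ja : j ≠ a) (c : Cn G S)
    (c' : Cn G S') (s : S ⊆ H) (s' : S' ⊆ H) (d : Disjoint S S') (l : x j ∈ S) (r : x' j ∈ S)
    (l' : x a ∈ S') (r' : x' a ∈ S') (o : ∀ i, i ≠ j → i ≠ a → Disjoint (S ∪ S') (Q i)) :
    Lk G H x x' (upd Q j a S S') := by
  have tri : ∀ i, i = j ∨ i = a ∨ (i ≠ j ∧ i ≠ a) := fun i => by tauto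
  refine ⟨fun i => ?_, fun i => ?_, fun i i' ii => ?_, fun i => ?_, fun i => ?_⟩
  · rcases tri i with rfl | rfl | ⟨h1, h2⟩
    · rwa [upd_j]
    · rwa [upd_a ja]
    · rw [upd_o h1 h2]; exact h.cn i
  · rcases tri i with rfl | rfl | ⟨h1, h2⟩
    · rwa [upd_j]
    · rwa [upd_a ja]
    · rw [upd_o h1 h2]; exact h.sub i
  · rcases tri i with rfl | rfl | ⟨h1, h2⟩ <;> rcases tri i' with rfl | rfl | ⟨h3, h4⟩
    · exact absurd rfl ii
    · rwa [upd_j, upd_a ja]
    · rw [upd_j, upd_o h3 h4]; exact (o _ h3 h4).mono_left subset_union_left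
    · rw [upd_j, upd_a ja]; exact d.symm
    · exact absurd rfl ii
    · rw [upd_a ja, upd_o h3 h4]; exact (o _ h3 h4).mono_left subset_union_right
    · rw [upd_j, upd_o h1 h2]; exact ((o _ h1 h2).mono_left subset_union_left).symm
    · rw [upd_a ja, upd_o h1 h2]; exact ((o _ h1 h2).mono_left subset_union_right).symm
    · rw [upd_o h1 h2, upd_o h3 h4]; exact h.dis _ _ ii
  · rcases tri i with rfl | rfl | ⟨h1, h2⟩
    · rwa [upd_j]
    · rwa [upd_a ja]
    · rw [upd_o h1 h2]; exact h.l i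
  · rcases tri i with rfl | rfl | ⟨h1, h2⟩
    · rwa [upd_j]
    · rwa [upd_a ja]
    · rw [upd_o h1 h2]; exact h.r i

theorem seg_start [Finite V] {X X' : Set V} (hx : En x X) (hk : X'.ncard = k)
    (h : ∀ Y, Y ⊆ H → Sp G H X X' Y → k ≤ Y.ncard) :
    ∃ x' Q, En x' X' ∧ Lk G H x x' Q ∧ ∀ j, x j = x' j → Q j = {x j} := by
  classical
  obtain ⟨Q, hQ, dQ⟩ := bMEN V G H X X' k h
  choose p hp using fun i => (hQ i).2.2.1
  choose q hq using fun i => (hQ i).2.2.2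
  have cp : range p = X := cover (toFinite _) (inj_of_dis (fun i => (hp i).1) dQ)
    (fun i => (hp i).2) hx.card.le
  have : ∀ j, ∃ i, p i = x j := fun j => by
    have := hx.mem j
    rwa [← cp] at this
  choose σ hσ using this
  have σi : Injective σ := fun a b e => hx.1 (by rw [← hσ, ← hσ, e])
  have qi : Injective fun j => q (σ j) := (inj_of_dis (fun i => (hq i).1) dQ).comp σi
  have sub : ∀ j, (if x j = q (σ j) then {x j} else Q (σ j)) ⊆ Q (σ j) := fun j => by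
    split_ifs
    · exact singleton_subset_iff.2 (hσ j ▸ (hp _).1)
    · exact Subset.rfl
  refine ⟨fun j => q (σ j), fun j => if x j = q (σ j) then {x j} else Q (σ j),
    ⟨qi, cover (toFinite _) qi (fun j => (hq _).2) hk.le⟩, ⟨fun j => ?_,
      fun j => (sub j).trans (hQ _).2.1, fun i j ij => (dQ _ _ (σi.ne ij)).mono (sub i) (sub j),
      fun j => ?_, fun j => ?_⟩, fun j e => if_pos e⟩
  · split_ifs
    · exact cn_single _
    · exact (hQ _).1
  · split_ifs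
    · rfl
    · exact hσ j ▸ (hp _).1
  · split_ifs with e
    · exact e.symm
    · exact (hq _).1

theorem bSEG : St_SEG := by
  intro V _ G H X X' k x hx hX hX' hk tight
  obtain ⟨x', Q₀, hx', k0⟩ := seg_start hx hk fun Y h1 h2 => (tight Y h1 h2).1
  obtain ⟨Q, ⟨hQ, nrm⟩, hm⟩ := (measure fun Q : Fin k → Set V => {p : Fin k × Fin k | p.1 ≠ p.2 ∧
    Tc G (Q p.1) (Q p.2) ∧ ¬ G.Adj (x' p.1) (x' p.2)}.ncard).wf.has_min
    {Q | Lk G H x x' Q ∧ ∀ j, x j = x' j → Q j = {x j}} ⟨Q₀, k0⟩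
  by_contra hno
  have noG : ∀ Q, Lk G H x x' Q → ¬ Gad G x x' Q := fun Q h g => hno ⟨x', Q, hx', h, .inr g⟩
  obtain ⟨j, a, ja, tja, nja, mv⟩ : ∃ j a, j ≠ a ∧ Tc G (Q j) (Q a) ∧ ¬ G.Adj (x' j) (x' a) ∧
      x j ≠ x' j := by
    have : ¬ Clean G x' Q := fun h => hno ⟨x', Q, hx', hQ, .inl h⟩
    unfold Clean at this
    push Not at this
    obtain ⟨i, j, ij, t, n⟩ := this
    by_cases e : x i = x' i
    · refine ⟨j, i, ij.symm, t.symm, fun h => n h.symm, fun e' => n ?_⟩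
      rw [nrm i e, nrm j e', e, e'] at t
      obtain ⟨_, rfl, _, rfl, t⟩ := t
      exact t
    · exact ⟨i, j, ij, t, n, e⟩
  set Fx := {v | ∃ i, i ≠ j ∧ (i ≠ a ∨ x a = x' a) ∧ v ∈ Q i} with hFx
  set Sr := {v | v ∈ Q j ∨ (x a ≠ x' a ∧ v ∈ Q a)} with hSr
  set W := rc G (H \ Fx) Sr with hW
  have jW : Q j ⊆ W := fun v h => rc_self (.inl h)
    ⟨hQ.sub j h, fun ⟨i, h1, _, h2⟩ => h1 (eq_of_dis hQ.dis h2 h)⟩
  have aW : x a ≠ x' a → Q a ⊆ W := fun e v h => rc_self (.inr ⟨e, h⟩)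
    ⟨hQ.sub a h, fun ⟨i, _, h1, h2⟩ => h1.elim (fun h1 => h1 (eq_of_dis hQ.dis h2 h)) e⟩
  have WH : W ⊆ H := fun _ h => (rc_sub h).1
  have Wo : ∀ i, i ≠ j → i ≠ a → Disjoint (W ∪ Q a) (Q i) := fun i h1 h2 =>
    Set.disjoint_left.2 fun v h h' => h.elim (fun h => (rc_sub h).2 ⟨i, h1, .inl h2, h'⟩)
      fun h => h2 (eq_of_dis hQ.dis h' h)
  have gA : ∀ j₁ j₂ i D, j₁ ≠ j₂ → i ≠ j₁ → i ≠ j₂ → x j₁ ≠ x' j₁ → Tc G (Q j₁) (Q j₂) →
      Cn G (Q j₁ ∪ D) → D ⊆ H → (∀ l, Disjoint D (Q l)) → ¬ Tc G (Q j₁ ∪ D) (Q i) := by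
    intro j₁ j₂ i D h1 h2 h3 h4 h5 h6 h7 h8 h9
    refine noG _ (hQ.upd h1 h6 (hQ.cn j₂) (union_subset (hQ.sub _) h7) (hQ.sub _)
      (disjoint_union_left.2 ⟨hQ.dis _ _ h1, h8 _⟩) (.inl (hQ.l _)) (.inl (hQ.r _)) (hQ.l _)
      (hQ.r _) fun l l1 l2 => disjoint_union_left.2 ⟨disjoint_union_left.2
        ⟨hQ.dis _ _ l1.symm, h8 _⟩, hQ.dis _ _ l2.symm⟩) ⟨j₁, j₂, h1, .inl ⟨i, h2.symm, h3.symm, h4,
          ?_, ?_⟩⟩
    · rw [upd_j, upd_a h1]; exact h5.mono subset_union_left Subset.rfl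
    · rwa [upd_j, upd_o h2 h3]
  have Wt : ∀ i, i ≠ j → i ≠ a → ¬ Tc G W (Q i) := by
    rintro i h1 h2 ⟨w, ⟨s, hs, r⟩, u, hu, wu⟩
    have fin : ∀ s D, s ∈ Sr → (∀ l, s ∈ Q l → Cn G (Q l ∪ D) ∧ w ∈ Q l ∪ D) → D ⊆ H →
        (∀ l, Disjoint D (Q l)) → False := by
      rintro s D (hs | hs) k1 k2 k3
      · exact gA j a i D ja h1 h2 mv tja (k1 _ hs).1 k2 k3 ⟨w, (k1 _ hs).2, u, hu, wu⟩
      · exact gA a j i D ja.symm h2 h1 hs.1 tja.symm (k1 _ hs.2).1 k2 k3
          ⟨w, (k1 _ hs.2).2, u, hu, wu⟩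
    by_cases e : w ∈ Sr
    · exact fin w ∅ e (fun l hl => ⟨by rw [union_empty]; exact hQ.cn l, .inl hl⟩) (empty_subset _)
        fun l => empty_disjoint _
    · obtain ⟨p, q, -, p1, pq, r'⟩ := r.last hs e
      refine fin p (rc G ((H \ Fx) \ Sr) {q}) p1 (fun l hl => ⟨(hQ.cn l).union_tc (cn_rc1 r'.1)
        ⟨p, hl, q, rc_self rfl r'.1, pq⟩, .inr (mem_rc1.2 r')⟩) (fun _ h => (rc_sub h).1.1)
        fun l => Set.disjoint_left.2 fun v h h' => ?_
      by_cases l1 : l = j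
      · exact (rc_sub h).2 (.inl (l1 ▸ h'))
      by_cases l2 : l ≠ a ∨ x a = x' a
      · exact (rc_sub h).1.2 ⟨l, l1, l2, h'⟩
      · rw [not_or, not_not] at l2
        exact (rc_sub h).2 (.inr ⟨l2.2, l2.1 ▸ h'⟩)
  have KH : W ∪ Q a ⊆ H := union_subset WH (hQ.sub a)
  have idx : ∀ i v, v ∈ Q i → v ∈ W ∪ Q a → i = j ∨ i = a := fun i v h1 h2 => by
    by_contra h
    rw [not_or] at h
    exact Set.disjoint_left.1 (Wo i h.1 h.2) h2 h1
  rcases bL2 V G (W ∪ Q a) (Q j) (Q a) (x j) (x' j) (x a) (x' a) (hQ.cn j) (hQ.cn a)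
    (jW.trans subset_union_left) subset_union_right (hQ.dis _ _ ja) (hQ.l j) (hQ.r j) (hQ.l a)
    (hQ.r a) with ⟨u, hu, v, hv, uv, hs⟩ | ⟨S, S', c, c', s, s', d, l, r, l', r', h⟩
  · have tr : x a = x' a → x' a ∈ ({u, v} : Set V) := fun e => by_contra fun h =>
      hs (x a) (.inr rfl) (x' a) (.inr rfl) (e ▸ R.refl ⟨.inr (hQ.l a), e ▸ h⟩)
    have YH : X' \ {x' j, x' a} ∪ {u, v} ⊆ H :=
      union_subset (fun _ h => hX' h.1) (by rintro _ (rfl | rfl); exacts [KH hu, KH hv])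
    obtain ⟨t1, t2⟩ := tight _ YH (by
      intro p hp q hq r
      have q1 : q ∈ ({x' j, x' a} : Set V) := by_contra fun h => r.right.2 (.inl ⟨hq, h⟩)
      have : R G ((W ∪ Q a) \ {u, v}) q p := by
        refine r.symm.ind (P := fun w => R G ((W ∪ Q a) \ {u, v}) q w)
          (R.refl ⟨?_, fun h => r.right.2 (.inr h)⟩) fun b c _ ih bc hc =>
            ih.tail bc ⟨?_, fun h => hc.2 (.inr h)⟩
        · rcases q1 with rfl | rfl
          · exact .inl (jW (hQ.r j))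
          · exact .inr (hQ.r a)
        · have bW : b ∈ W := by
            refine ih.right.1.elim id fun h => ?_
            by_cases e : x a = x' a
            · rw [nrm a e, e] at h
              exact absurd (h ▸ tr e) ih.right.2
            · exact aW e h
          by_cases e : c ∈ Fx
          · obtain ⟨i, i1, -, i2⟩ := e
            by_cases e' : i = a
            · exact .inr (e' ▸ i2)
            · exact absurd ⟨b, bW, c, i2, bc⟩ (Wt i i1 e')
          · exact .inl (rc_adj bW bc ⟨hc.1, e⟩)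
      obtain ⟨i, rfl⟩ := hx.ex hp
      refine hs _ ?_ q q1 this.symm
      rcases idx i _ (hQ.l i) this.right.1 with rfl | rfl
      · exact .inl rfl
      · exact .inr rfl)
    have n1 : (X' \ {x' j, x' a}).ncard + 2 = k := by
      rw [← Set.ncard_pair (hx'.1.ne ja), Set.ncard_sdiff_add_ncard_of_subset _ (toFinite _), hk]
      rintro _ (rfl | rfl) <;> exact hx'.mem _
    have n2 := Set.ncard_union_le (X' \ {x' j, x' a}) {u, v}
    rw [Set.ncard_pair uv.ne] at n2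
    have ok : ∀ p q, p ∈ X' → q ∈ X' → G.Adj p q → p ∈ X' \ {x' j, x' a} ∪ {u, v} := by
      intro p q hp hq pq
      by_contra h
      have p1 : p ∈ ({x' j, x' a} : Set V) := by_contra fun h' => h (.inl ⟨hp, h'⟩)
      obtain ⟨i, rfl⟩ := hx'.ex hq
      have pW : p ∈ W := by
        rcases p1 with rfl | rfl
        · exact jW (hQ.r j)
        · exact aW (fun e => h (.inr (tr e))) (hQ.r a)
      by_cases i1 : i = j
      · rcases p1 with rfl | rfl
        · exact pq.ne (i1 ▸ rfl)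
        · exact nja (i1 ▸ pq.symm)
      by_cases i2 : i = a
      · rcases p1 with rfl | rfl
        · exact nja (i2 ▸ pq)
        · exact pq.ne (i2 ▸ rfl)
      exact Wt i i1 i2 ⟨p, pW, _, hQ.r i, pq⟩
    refine absurd (t2 (by omega)) (not_le.2 (Set.ncard_lt_ncard ⟨?_, fun h => ?_⟩ (toFinite _)))
    · rintro e ⟨e1, e2⟩
      refine ⟨e1, ?_⟩
      induction e using Sym2.ind with
      | _ p q =>
        have p1 := e2 p (Sym2.mem_mk_left _ _)
        have q1 := e2 q (Sym2.mem_mk_right _ _)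
        intro w hw
        rcases Sym2.mem_iff.1 hw with rfl | rfl
        · exact ok _ _ p1 q1 e1
        · exact ok _ _ q1 p1 (SimpleGraph.Adj.symm e1)
    · have := (h (show s(u, v) ∈ _ from ⟨uv, fun w hw => .inr (Sym2.mem_iff.1 hw)⟩)).2
      obtain ⟨i, rfl⟩ := hx'.ex (this u (Sym2.mem_mk_left _ _))
      obtain ⟨i', rfl⟩ := hx'.ex (this v (Sym2.mem_mk_right _ _))
      rcases idx i _ (hQ.r i) hu with rfl | rfl <;> rcases idx i' _ (hQ.r i') hv with rfl | rfl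
      · exact uv.ne rfl
      · exact nja uv
      · exact nja uv.symm
      · exact uv.ne rfl
  have lk := hQ.upd ja c c' (s.trans KH) (s'.trans KH) d l r l' r'
    fun i h1 h2 => (Wo i h1 h2).mono_left (union_subset s s')
  rcases h with h | h | h | h
  · obtain ⟨T, T1, T2, T3, T4, T5, T6⟩ : ∃ T, T ⊆ S' ∧ Cn G T ∧ x a ∈ T ∧ x' a ∈ T ∧
        (x a = x' a → T = {x a}) ∧ ∀ i, i ≠ j → i ≠ a → Tc G T (Q i) → Tc G (Q a) (Q i) := by
      by_cases e : x a = x' a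
      · exact ⟨{x a}, singleton_subset_iff.2 l', cn_single _, rfl, e.symm, fun _ => rfl,
          fun i _ _ t => nrm a e ▸ t⟩
      · exact ⟨S', Subset.rfl, c', l', r', fun h => absurd h e, fun i h1 h2 t =>
          absurd (t.mono (s'.trans (union_subset Subset.rfl (aW e))) Subset.rfl) (Wt i h1 h2)⟩
    have SW : S ⊆ W := fun w hw => (s hw).elim id fun h' => by
      by_cases e : x a = x' a
      · rw [nrm a e] at h'
        exact absurd (h' ▸ l') (Set.disjoint_left.1 d hw)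
      · exact aW e h'
    have h1 : ∀ i, i ≠ j → ¬ Tc G S (upd Q j a S T i) := fun i i1 t => by
      by_cases i2 : i = a
      · rw [i2, upd_a ja] at t; exact h (t.mono Subset.rfl T1)
      · rw [upd_o i1 i2] at t; exact Wt i i1 i2 (t.mono SW Subset.rfl)
    have h2 : ∀ i i', i ≠ i' → Tc G (upd Q j a S T i) (upd Q j a S T i') →
        i ≠ j ∧ Tc G (Q i) (Q i') := by
      intro i i' ii t
      have i1 : i ≠ j := fun e => h1 i' (e ▸ ii.symm) (by rwa [e, upd_j] at t)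
      have i2 : i' ≠ j := fun e => h1 i i1 (by rw [e, upd_j] at t; exact t.symm)
      refine ⟨i1, ?_⟩
      by_cases e : i = a
      · have e' : i' ≠ a := e ▸ ii.symm
        rw [e, upd_a ja, upd_o i2 e'] at t
        exact e ▸ T6 _ i2 e' t
      by_cases e' : i' = a
      · rw [e', upd_a ja, upd_o i1 e] at t
        exact e' ▸ (T6 _ i1 e t.symm).symm
      · rwa [upd_o i1 e, upd_o i2 e'] at t
    refine hm (upd Q j a S T) ⟨hQ.upd ja c T2 (s.trans KH) (T1.trans (s'.trans KH))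
      (d.mono_right T1) l r T3 T4 fun i h1 h2 => (Wo i h1 h2).mono_left
        (union_subset s (T1.trans s')), fun i e => ?_⟩
      (Set.ncard_lt_ncard ⟨fun p hp => ⟨hp.1, (h2 _ _ hp.1 hp.2.1).2, hp.2.2⟩, fun h => ?_⟩
        (toFinite _))
    · have i1 : i ≠ j := fun e' => mv (e' ▸ e)
      by_cases i2 : i = a
      · subst i2; rw [upd_a ja]; exact T5 e
      · rw [upd_o i1 i2]; exact nrm i e
    · exact (h2 _ _ ja (h (show (j, a) ∈ _ from ⟨ja, tja, nja⟩)).2.1).1 rfl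
  · exact noG _ lk ⟨j, a, ja, .inr (.inl (by rwa [upd_j, upd_a ja]))⟩
  · exact noG _ lk ⟨j, a, ja, .inr (.inr (by rwa [upd_j, upd_a ja]))⟩
  · exact noG _ lk ⟨a, j, ja.symm, .inr (.inr (by rwa [upd_j, upd_a ja]))⟩

end Pool.Agent.Lib.IM
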