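import Pool.Agent.Lib.IM.Wqo
import Pool.Agent.Lib.IM.AntA
import Pool.Agent.Lib.IM.AntB
import Pool.Agent.Lib.IM.AntC

/-! The dichotomy for minor-closed classes. -/

open Set Function

namespace Pool.Agent.Lib.IM

open Pool.Agent.Lib.NC4b

theorem Anti.fin {Γ : ℕ → FinGraph} (h : Anti Γ) {F : Set FinGraph}
    (hF : ∀ G ∈ F, ∀ H, Minor H G → H ∈ F)
    (hw : ∀ g : ℕ → FinGraph, (∀ i, g i ∈ F) → ∃ i j, i < j ∧ IndMinor (g i) (g j)) :
    {n | Γ n ∈ F}.Finite := by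
  by_contra k
  obtain ⟨g, g1, g2⟩ := h
  obtain ⟨i, j, ij, e⟩ := hw g fun i => by
    obtain ⟨m, hm⟩ := g1 i
    obtain ⟨n, hn, mn⟩ := Set.Infinite.exists_gt k m
    exact hF _ hn _ (hm n mn.le)
  exact g2 i j ij e

theorem dichotomy (F : Set FinGraph) (hF : ∀ G ∈ F, ∀ H, Minor H G → H ∈ F) :
    (∀ g : ℕ → FinGraph, (∀ i, g i ∈ F) → ∃ i j, i < j ∧ IndMinor (g i) (g j)) ↔
      {n | fan n ∈ F ∨ loz n ∈ F ∨ hub n ∈ F}.Finite := by
  refine ⟨fun hw => ((antA.fin hF hw).union ((antB.fin hF hw).union (antC.fin hF hw))).subset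
    fun n hn => hn, fun h g hg => ?_⟩
  obtain ⟨n, hn⟩ := h.exists_notMem
  exact bWQO n g fun i => ⟨fun k => hn (.inl (hF _ (hg i) _ (mn_of_minor k))),
    fun k => hn (.inr (.inl (hF _ (hg i) _ (mn_of_minor k)))),
    fun k => hn (.inr (.inr (hF _ (hg i) _ (mn_of_minor k))))⟩

end Pool.Agent.Lib.IM
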