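import Pool.Agent.Lib.IM.Dec
import Pool.Agent.Lib.IM.Seg
import Pool.Agent.Lib.IM.Ch
import Pool.Agent.Lib.IM.Lift
import Pool.Agent.Lib.IM.Lnk
import Pool.Agent.Lib.IM.Gap

/-! The well-quasi-order theorem. -/

open Set Function

namespace Pool.Agent.Lib.IM

open Pool.Agent.Lib.NC4b

theorem Tr.Ok.mono {α : Type} {P Q : Set α → Prop} (h : ∀ Z, P Z → Q Z) {t : Tr α} (k : t.Ok P) :
    t.Ok Q := by
  induction t with
  | leaf Z => exact ⟨k.1, h _ k.2⟩
  | node a b ha hb => exact ⟨ha k.1, hb k.2.1, k.2.2.1, h _ k.2.2.2⟩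

theorem Tr.Desc.tail {α : Type} {f : Set α → ℕ} {m : ℕ} {t s : Tr α} (h : Tr.Desc f m t s) :
    ∀ a b c, s = .node a b → c = a ∨ c = b → m ≤ f c.set → Tr.Desc f m t c := by
  induction h with
  | refl t h =>
    rintro a b c rfl (rfl | rfl) k
    · exact .left _ _ _ h (.refl _ k)
    · exact .right _ _ _ h (.refl _ k)
  | left _ _ _ h _ ih => exact fun a b c e e' k => .left _ _ _ h (ih a b c e e' k)
  | right _ _ _ h _ ih => exact fun a b c e e' k => .right _ _ _ h (ih a b c e e' k)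

theorem Tr.Lnk.use {α : Type} {f : Set α → ℕ} {m : ℕ} {t s : Tr α} (h : t.Lnk f)
    (d : Tr.Desc f m t s) {A : Set α} (h1 : s.set ⊆ A) (h2 : A ⊆ t.set) : m ≤ f A := by
  cases t with
  | leaf Z =>
    cases d with
    | refl _ k => exact Subset.antisymm h1 h2 ▸ k
  | node a b => exact h.2.2 m s d A h1 h2

/-- The number of nodes. -/
def Tr.sz {α : Type} : Tr α → ℕ
  | .leaf _ => 0
  | .node a b => a.sz + b.sz + 1

theorem ed_le_sq {V : Type} [Finite V] (G : SimpleGraph V) (Y : Set V) :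
    ed G Y ≤ Y.ncard * Y.ncard := by
  rw [← Set.ncard_prod]
  refine (Set.ncard_le_ncard (t := (fun p : V × V => s(p.1, p.2)) '' (Y ×ˢ Y)) ?_
    (toFinite _)).trans (Set.ncard_image_le (toFinite _))
  rintro e ⟨-, h⟩
  induction e using Sym2.ind with
  | _ p q => exact ⟨(p, q), ⟨h p (Sym2.mem_mk_left _ _), h q (Sym2.mem_mk_right _ _)⟩, rfl⟩

/-- The rooted piece of a set of edges. -/
def rg (G : FinGraph) (Z : Set (Sym2 (Fin G.1))) : RG := ⟨G.1, G.2, vs G.2 Z, bd G.2 Z⟩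

/-- A tight pair that cannot be skipped. -/
def Bad (G : FinGraph) (Z' Z : Set (Sym2 (Fin G.1))) : Prop :=
  (Z' ⊆ Z ∧ lam G.2 Z' = lam G.2 Z ∧ ∀ A, Z' ⊆ A → A ⊆ Z → lam G.2 Z ≤ lam G.2 A) ∧
    ¬ (rg G Z').le (rg G Z)

/-- The lengths of the chains of such pairs above `Z`. -/
def Chs (G : FinGraph) (Z : Set (Sym2 (Fin G.1))) : Set ℕ :=
  {r | ∃ Y : ℕ → Set (Sym2 (Fin G.1)), Y r = Z ∧ ∀ i < r, Bad G (Y (i + 1)) (Y i)}

theorem lam_eq {G : FinGraph} {Z W} (h : lam G.2 Z = lam G.2 W) :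
    (bd G.2 Z).ncard = (bd G.2 W).ncard ∧ ed G.2 (bd G.2 Z) = ed G.2 (bd G.2 W) := by
  have h1 := (bSUB.le G.2 _ _).1 h.le
  have h2 := (bSUB.le G.2 _ _).1 h.ge
  omega

theorem Bad.gad {G : FinGraph} {Z' Z} (h : Bad G Z' Z) {k : ℕ} {x : Fin k → Fin G.1}
    (hx : En x (bd G.2 Z)) : ∃ x' Q, En x' (bd G.2 Z') ∧
      Lk G.2 (vs G.2 Z \ (vs G.2 Z' \ bd G.2 Z')) x x' Q ∧ Gad G.2 x x' Q := by
  obtain ⟨⟨h1, h2, h3⟩, h4⟩ := h
  obtain ⟨e1, e2⟩ := lam_eq h2
  have e3 := hx.card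
  obtain ⟨x', Q, k1, k2, k3⟩ := bSEG _ G.2 (vs G.2 Z \ (vs G.2 Z' \ bd G.2 Z')) _ (bd G.2 Z') k x hx
    (fun v k => ⟨k.1, fun k' => k'.2 ⟨k'.1, vs_mono (compl_subset_compl.2 h1) k.2⟩⟩)
    (fun v k => ⟨vs_mono h1 k.1, fun k' => k'.2 k⟩) (by omega) fun Y _ hs => by
      obtain ⟨A, a1, a2, a3⟩ := bSUB.cut G.2 Z' Z Y h1 hs
      have a4 := (bSUB.le G.2 _ _).1 (h3 A a1 a2)
      have a5 := Set.ncard_le_ncard a3 (toFinite _)
      refine ⟨by omega, fun e => ?_⟩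
      rw [Set.eq_of_subset_of_ncard_le a3 (by omega) (toFinite _)] at a4
      omega
  exact ⟨x', Q, k1, k2, k3.resolve_left fun c => h4 (bRO.skip _ _ _ _ _ _ k x x' Q hx k1
    inter_subset_left (vs_mono h1) (fun u hu v a => bd_closed hu a) k2 c)⟩

theorem chs_bound (n w : ℕ) : ∃ r : ℕ, ∀ (G : FinGraph) Z, ¬ Mn G.2 EA (n + 2) →
    ¬ Mn G.2 EB (2 * n) → ¬ Mn G.2 EC (3 * n + 2) → (bd G.2 Z).ncard ≤ w → ∀ c ∈ Chs G Z, c < r := by
  choose r hr using bCH n
  refine ⟨(Finset.range (w + 1)).sup r + 1, fun G Z hA hB hC hw c ⟨Y, hY, hb⟩ => ?_⟩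
  by_contra hc
  have e : ∀ i ≤ c, (bd G.2 (Y i)).ncard = (bd G.2 (Y 0)).ncard := by
    intro i
    induction i with
    | zero => exact fun _ => rfl
    | succ i ih => exact fun h => (lam_eq (hb i h).1.2.1).1.trans (ih (by omega))
  have h1 : r (bd G.2 (Y 0)).ncard ≤ (Finset.range (w + 1)).sup r :=
    Finset.le_sup (Finset.mem_range.2 (by rw [← e c le_rfl, hY]; omega))
  obtain ⟨x₀, h₀⟩ := exists_en (toFinite (bd G.2 (Y 0)))
  have d : ∀ Z, vs G.2 Z \ (vs G.2 Z \ bd G.2 Z) = bd G.2 Z := fun Z =>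
    sdiff_sdiff_cancel_left inter_subset_left
  have sub : ∀ i, Y (min (i + 1) c) ⊆ Y (min i c) := fun i => by
    by_cases k : i < c
    · rw [min_eq_left (by omega), min_eq_left k.le]; exact (hb i k).1.1
    · rw [min_eq_right (by omega), min_eq_right (by omega)]
  have := hr _ _ G.2 (fun i => vs G.2 (Y (min i c)))
    (fun i => vs G.2 (Y (min i c)) \ bd G.2 (Y (min i c))) x₀
    (fun i => ⟨sdiff_subset, vs_mono (sub i), fun v k => ⟨vs_mono (sub i) k.1, fun k' =>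
      k.2 ⟨k.1, vs_mono (compl_subset_compl.2 (sub i)) k'.2⟩⟩⟩) (by rwa [d, Nat.zero_min])
    fun i hi x hx => by
      simp only [d, min_eq_left (show i + 1 ≤ c by omega), min_eq_left (show i ≤ c by omega)]
        at hx ⊢
      exact (hb i (by omega)).gad hx
  tauto

theorem bWQO : St_WQO := by
  intro n g hg
  obtain ⟨w, hw⟩ := bDEC n
  obtain ⟨r, hr⟩ := chs_bound n w
  let N := {p : Σ G : FinGraph, Tr (Sym2 (Fin G.1)) // (¬ Mn p.1.2 EA (n + 2) ∧
    ¬ Mn p.1.2 EB (2 * n) ∧ ¬ Mn p.1.2 EC (3 * n + 2)) ∧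
    p.2.Ok (fun Z => (bd p.1.2 Z).ncard ≤ w) ∧ p.2.Lnk (lam p.1.2)}
  let lev : ∀ G : FinGraph, Set (Sym2 (Fin G.1)) → ℕ := fun G Z =>
    (bd G.2 Z).ncard * (w * w + 1) + (w * w - ed G.2 (bd G.2 Z))
  have edw : ∀ (G : FinGraph) Z, (bd G.2 Z).ncard ≤ w → ed G.2 (bd G.2 Z) ≤ w * w := fun G Z h =>
    (ed_le_sq _ _).trans (Nat.mul_le_mul h h)
  have lv : ∀ (G : FinGraph) Z Z', (bd G.2 Z).ncard ≤ w → (bd G.2 Z').ncard ≤ w →
      lev G Z ≤ lev G Z' → lam G.2 Z ≤ lam G.2 Z' := by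
    intro G Z Z' h h' k
    have a := edw G Z h
    have b := edw G Z' h'
    refine (bSUB.le G.2 _ _).2 ?_
    simp only [lev] at k
    rcases lt_trichotomy (bd G.2 Z).ncard (bd G.2 Z').ncard with j | j | j
    · exact .inl j
    · rw [j] at k; exact .inr ⟨j, by omega⟩
    · have := Nat.mul_le_mul_right (w * w + 1) (Nat.succ_le_of_lt j)
      rw [Nat.succ_mul] at this
      omega
  have c0 : ∀ G Z, 0 ∈ Chs G Z := fun G Z => ⟨fun _ => Z, rfl, fun i hi => by omega⟩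
  have bdd : ∀ e : N, ∀ c ∈ Chs e.1.1 e.1.2.set, c < r := fun e =>
    hr _ _ e.2.1.1 e.2.1.2.1 e.2.1.2.2 e.2.2.1.top
  have cm : ∀ e : N, sSup (Chs e.1.1 e.1.2.set) ∈ Chs e.1.1 e.1.2.set := fun e =>
    Nat.sSup_mem ⟨0, c0 _ _⟩ ⟨r, fun c h => (bdd e c h).le⟩
  let ψ : N → ℕ := fun e => lev e.1.1 e.1.2.set * r + sSup (Chs e.1.1 e.1.2.set)
  have ψle : ∀ e f : N, ψ e ≤ ψ f → lev e.1.1 e.1.2.set ≤ lev f.1.1 f.1.2.set := fun e f h => by
    by_contra k
    have := Nat.mul_le_mul_right r (Nat.succ_le_of_lt (not_le.1 k))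
    have := bdd f _ (cm f)
    simp only [ψ, Nat.succ_mul] at *
    omega
  let ch : N → N → Prop := fun e f => ∃ G a b c, e.1 = ⟨G, .node a b⟩ ∧ f.1 = ⟨G, c⟩ ∧
    (c = a ∨ c = b)
  have main := bGAP N ch (fun a b => (rg a.1.1 a.1.2.set).le (rg b.1.1 b.1.2.set))
    (fun e => e.1.2.sz) ψ ((w + 1) * (w * w + 1) * r) (fun a b c => bRO.trans _ _ _) ?_ ?_ ?_ ?_
  · have : ∀ i, ∃ e : N, e.1.1 = g i ∧ rg e.1.1 e.1.2.set = ⟨_, (g i).2, univ, ∅⟩ := fun i => by
      obtain ⟨T, t1, t2⟩ := hw _ (g i).2 (hg i).1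
      obtain ⟨T', k1, k2, k3⟩ := bLNK _ (lam (g i).2)
        ((2 * (g i).2.edgeSet.ncard + 1) * w + (g i).2.edgeSet.ncard) T (bSUB.sub _)
        (fun Z => by rw [lam, bd_compl, lam]) (t2.mono fun Z h => by
          have := Nat.mul_le_mul_left (2 * (g i).2.edgeSet.ncard + 1) h
          unfold lam ord; omega)
      refine ⟨⟨⟨g i, T'⟩, hg i, k2.mono fun Z h => ?_, k3⟩, rfl, ?_⟩
      · show (bd (g i).2 Z).ncard ≤ w
        by_contra k
        have := Nat.mul_le_mul_left (2 * (g i).2.edgeSet.ncard + 1) (Nat.succ_le_of_lt (not_le.1 k))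
        unfold lam ord at h
        rw [Nat.mul_succ] at this
        omega
      · simp only [rg, k1, t1]
        rw [show vs (g i).2 (hy (g i).2) = univ from
          eq_univ_of_forall fun v => ⟨_, hy_diag v, hy_diag v, Sym2.mem_mk_left _ _⟩, show bd (g i).2 (hy (g i).2) = ∅ from
            eq_empty_of_forall_notMem fun v ⟨_, e, e1, e2, _⟩ => e1 e2]
    choose e he he' using this
    obtain ⟨i, j, ij, h⟩ := main.exists_lt (f := e) fun _ => mem_univ _
    rw [he', he'] at h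
    obtain ⟨_, -, φ, m, -⟩ := h 0 Fin.elim0 ⟨fun a => a.elim0, by simp⟩
    exact ⟨i, j, ij, φ, fun v => cn_iff.2 (m.cn v trivial), fun u v => m.dis u trivial v trivial,
      fun u v => m.adj u trivial v trivial⟩
  · rintro ⟨_, hf⟩ ⟨_, he⟩ ⟨G, a, b, c, rfl, rfl, rfl | rfl⟩ <;> simp only [Tr.sz] <;> omega
  · intro e
    have h1 := bdd e _ (cm e)
    have h2 := Nat.mul_le_mul_right (w * w + 1) e.2.2.1.top
    have h3 : lev e.1.1 e.1.2.set + 1 ≤ (w + 1) * (w * w + 1) := by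
      simp only [lev, add_mul, one_mul]; omega
    have h4 := Nat.mul_le_mul_right r h3
    simp only [ψ]
    rw [add_mul, one_mul] at h4
    omega
  · rintro ⟨⟨G, t⟩, he⟩ f h e
    have key : ∃ s, f.1 = ⟨G, s⟩ ∧ Tr.Desc (lam G.2) (lam G.2 t.set) t s := by
      clear e
      induction h with
      | refl => exact ⟨t, rfl, .refl _ le_rfl⟩
      | @tail p q _ h ih =>
        obtain ⟨s, s1, s2⟩ := ih
        obtain ⟨⟨G', a, b, c, k1, k2, k3⟩, k4⟩ := h
        obtain ⟨q, hq⟩ := q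
        obtain ⟨rfl, k5⟩ := Sigma.mk.inj_iff.1 (s1.symm.trans k1)
        obtain rfl : q = _ := k2
        exact ⟨c, rfl, s2.tail a b c (eq_of_heq k5) k3
          (lv G _ _ he.2.1.top hq.2.1.top (ψle _ _ k4))⟩
    obtain ⟨f, hf⟩ := f
    obtain ⟨s, rfl, d⟩ := key
    by_contra k
    have l1 := ψle _ _ e.le
    have l2 := ψle _ _ e.ge
    have bad : Bad G s.set t.set := ⟨⟨d.sub, le_antisymm (lv G _ _ hf.2.1.top he.2.1.top l1)
      (lv G _ _ he.2.1.top hf.2.1.top l2), fun A h1 h2 => he.2.2.use d h1 h2⟩, k⟩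
    obtain ⟨Y, y1, y2⟩ := cm ⟨_, he⟩
    have : sSup (Chs G t.set) + 1 ∈ Chs G s.set := by
      refine ⟨fun i => if i ≤ sSup (Chs G t.set) then Y i else s.set, by simp, fun i hi => ?_⟩
      by_cases j : i < sSup (Chs G t.set)
      · simp only [j.le, Nat.succ_le_of_lt j, if_true]; exact y2 i j
      · obtain rfl : i = sSup (Chs G t.set) := by omega
        simp only [le_refl, if_true, Nat.not_succ_le_self, if_false]
        have y1' : Y (sSup (Chs G t.set)) = t.set := y1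
        rw [y1']; exact bad
    have := le_csSup ⟨r, fun c h => (bdd ⟨_, hf⟩ c h).le⟩ this
    simp only [ψ] at e l1 l2 this
    rw [le_antisymm l1 l2] at e
    omega
  · intro S hS
    have := bLIFT (w + 2) ((fun a : N => rg a.1.1 a.1.2.set) '' S)
      ((fun a : N => rg a.1.1 a.1.2.set) '' {f | ∃ e ∈ S, ch e f})
      (hS.image_of_monotone_on fun _ _ _ _ h => h) (by
        rintro _ ⟨⟨⟨G, t⟩, he⟩, hS, rfl⟩
        cases t with
        | leaf Z =>
          refine .inl ⟨?_, inter_subset_left⟩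
          show (vs G.2 Z).ncard ≤ w + 2
          rcases he.2.1.1.eq_empty_or_singleton with h | ⟨e, h⟩
          · rw [h]; simp [vs]
          · rw [h]
            induction e using Sym2.ind with
            | _ p q =>
              refine (Set.ncard_le_ncard (t := {p, q}) ?_ (toFinite _)).trans
                ((Set.ncard_insert_le _ _).trans (by simp))
              rintro v ⟨_, rfl, -, k⟩
              exact Sym2.mem_iff.1 k
        | node a b =>
          have d := he.2.1.2.2.1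
          exact .inr ⟨vs G.2 a.set, bd G.2 a.set, vs G.2 b.set, bd G.2 b.set,
            ⟨⟨⟨G, a⟩, he.1, he.2.1.1, he.2.2.1⟩, ⟨_, hS, G, a, b, a, rfl, rfl, .inl rfl⟩, rfl⟩,
            ⟨⟨⟨G, b⟩, he.1, he.2.1.2.1, he.2.2.2.1⟩, ⟨_, hS, G, a, b, b, rfl, rfl, .inr rfl⟩, rfl⟩,
            ⟨vs_union, fun v k => ⟨⟨k.1, vs_mono d.symm.subset_compl_right k.2⟩, k.2,
              vs_mono d.subset_compl_right k.1⟩, inter_subset_left, inter_subset_left,
              fun u hu v => bd_closed hu, fun u hu v => bd_closed hu, bd_union⟩,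
            he.2.1.1.top.trans (Nat.le_add_right _ _), he.2.1.2.1.top.trans (Nat.le_add_right _ _)⟩)
    rw [partiallyWellOrderedOn_iff_exists_lt]
    exact fun f hf => this.exists_lt fun i => mem_image_of_mem _ (hf i)

end Pool.Agent.Lib.IM
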